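import Pool.Agent.TBK.Stmts

/-!
# Three-body Bose gases (MP_80dc41_mp), kernels: module BEK
-/

set_option autoImplicit false

open MeasureTheory Filter Topology
open scoped ContDiff

namespace Pool.Agent.TBK

open Pool.Agent.TBG Pool.Agent.TBL Pool.Agent.TBF Pool.Agent.TBS

namespace BEK_

lemma dua_mono {φ : E × E → ℝ} {y : W4 → ℝ} {l C C' : ℝ} {Y : Fin 4 → Fin 3 → W4 → ℝ} {g : W4 → ℝ}
    (h : Dua φ y l C Y g) (hC : C ≤ C') : Dua φ y l C' Y g :=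
  ⟨h.smY, h.smg, h.spY, h.spg, h.eqn, fun m c p => (h.bdY m c p).trans hC, fun p => (h.bdg p).trans hC,
    h.eqv, h.syg, h.sum⟩

lemma cont_dv {φ : E × E → ℝ} (hφ : ContDiff ℝ ∞ φ) (v : E × E) : Continuous (dv v φ) := by
  unfold dv
  exact (hφ.continuous_fderiv (by simp)).clm_apply continuous_const

lemma bd5 {φ : E × E → ℝ} {C : ℝ} (h : ∀ m c z, |dv (dr m c) φ z| ≤ C * ((1 + ‖z‖) ^ 5)⁻¹) (m c : Fin 3)
    (z : E × E) : (1 + ‖z‖) ^ 5 * |dv (dr m c) φ z| ≤ C := by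
  have h1 : 0 < (1 + ‖z‖) ^ 5 := by positivity
  calc (1 + ‖z‖) ^ 5 * |dv (dr m c) φ z| ≤ (1 + ‖z‖) ^ 5 * (C * ((1 + ‖z‖) ^ 5)⁻¹) :=
        mul_le_mul_of_nonneg_left (h m c z) h1.le
    _ = C := by field_simp

/-- first term -/
noncomputable def A1 (φ : E × E → ℝ) (q : W4) : ℝ :=
  ∑ c, dv (dr 0 c) φ (q.1, q.2.1) * dv (dr 0 c) φ (q.1, q.2.2)

/-- second term -/
noncomputable def A2 (φ : E × E → ℝ) (Y : Fin 4 → Fin 3 → W4 → ℝ) (q : W4) : ℝ :=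
  ∑ c, dv (dr 0 c) φ (q.1, q.2.1) * Y 0 c q

lemma contA1 {φ : E × E → ℝ} (hφ : ContDiff ℝ ∞ φ) : Continuous (A1 φ) := by
  unfold A1
  refine continuous_finsetSum _ (fun c _ => ?_)
  have h := cont_dv hφ (dr 0 c)
  exact (h.comp (by fun_prop)).mul (h.comp (by fun_prop))

lemma contA2 {φ : E × E → ℝ} (hφ : ContDiff ℝ ∞ φ) {Y : Fin 4 → Fin 3 → W4 → ℝ}
    (hY : ∀ m c, ContDiff ℝ ∞ (Y m c)) : Continuous (A2 φ Y) := by
  unfold A2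
  refine continuous_finsetSum _ (fun c _ => ?_)
  have h := cont_dv hφ (dr 0 c)
  exact (h.comp (by fun_prop)).mul (hY 0 c).continuous

lemma intA1 (hTAI : Stmt_TAI) {φ : E × E → ℝ} (hφ : ContDiff ℝ ∞ φ) {C : ℝ} (hC : 0 < C)
    (h : ∀ m c z, |dv (dr m c) φ z| ≤ C * ((1 + ‖z‖) ^ 5)⁻¹) : Integrable (A1 φ) := by
  obtain ⟨c0, hc0, H⟩ := hTAI
  have hK : 0 < 3 * C ^ 2 := by positivity
  have hb : ∀ q, |A1 φ q| ≤ 3 * C ^ 2 * G5 q := by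
    intro q
    unfold A1
    calc |∑ c, dv (dr 0 c) φ (q.1, q.2.1) * dv (dr 0 c) φ (q.1, q.2.2)|
        ≤ ∑ c, |dv (dr 0 c) φ (q.1, q.2.1) * dv (dr 0 c) φ (q.1, q.2.2)| := Finset.abs_sum_le_sum_abs _ _
      _ ≤ ∑ _c : Fin 3, C ^ 2 * G5 q := by
          refine Finset.sum_le_sum (fun c _ => ?_)
          rw [abs_mul]
          calc |dv (dr 0 c) φ (q.1, q.2.1)| * |dv (dr 0 c) φ (q.1, q.2.2)|
              ≤ (C * ((1 + ‖(q.1, q.2.1)‖) ^ 5)⁻¹) * (C * ((1 + ‖(q.1, q.2.2)‖) ^ 5)⁻¹) :=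
                mul_le_mul (h 0 c _) (h 0 c _) (abs_nonneg _) (by positivity)
            _ = C ^ 2 * G5 q := by unfold G5; ring
      _ = 3 * C ^ 2 * G5 q := by
          rw [Finset.sum_const, Finset.card_univ, Fintype.card_fin, nsmul_eq_mul]
          push_cast
          ring
  have hF := H 1 le_rfl (fun q => (3 * C ^ 2)⁻¹ * A1 φ q)
    ((contA1 hφ).measurable.const_mul _)
    (fun q => by
      rw [abs_mul, abs_of_pos (inv_pos.mpr hK)]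
      calc (3 * C ^ 2)⁻¹ * |A1 φ q| ≤ (3 * C ^ 2)⁻¹ * (3 * C ^ 2 * G5 q) :=
            mul_le_mul_of_nonneg_left (hb q) (inv_pos.mpr hK).le
        _ = G5 q := by field_simp)
    (fun q _ => Or.inl (by linarith [norm_nonneg ((q.1, q.2.1) : E × E)]))
  have h2 := hF.1.const_mul (3 * C ^ 2)
  refine h2.congr (Eventually.of_forall (fun q => ?_))
  show 3 * C ^ 2 * ((3 * C ^ 2)⁻¹ * A1 φ q) = A1 φ q
  field_simp

lemma intA2 {φ : E × E → ℝ} (hφ : ContDiff ℝ ∞ φ) {Y : Fin 4 → Fin 3 → W4 → ℝ}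
    (hY : ∀ m c, ContDiff ℝ ∞ (Y m c))
    (hI : Integrable (fun q : W4 => ∑ c, |dv (dr 0 c) φ (q.1, q.2.1)| * |Y 0 c q|)) : Integrable (A2 φ Y) := by
  refine hI.mono' (contA2 hφ hY).aestronglyMeasurable (Eventually.of_forall (fun q => ?_))
  rw [Real.norm_eq_abs]
  unfold A2
  refine (Finset.abs_sum_le_sum_abs _ _).trans (Finset.sum_le_sum (fun c _ => ?_))
  rw [abs_mul]

lemma intA4 {φ : E × E → ℝ} {y : W4 → ℝ} (hw : Continuous (ww φ)) (hw0 : ∀ z, 0 ≤ ww φ z) (hy : Continuous y)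
    (hI : Integrable (fun q : W4 => ww φ (q.1, q.2.1) * |y q|)) :
    Integrable (fun q : W4 => ww φ (q.1, q.2.1) * y q) := by
  have hc : Continuous (fun q : W4 => ww φ (q.1, q.2.1) * y q) := (hw.comp (by fun_prop)).mul hy
  refine hI.mono' hc.aestronglyMeasurable (Eventually.of_forall (fun q => ?_))
  rw [Real.norm_eq_abs, abs_mul, abs_of_nonneg (hw0 _)]

end BEK_

open BEK_ in
theorem bek_proof (hSCB : Pool.Agent.TBF.Stmt_SCB) (hKM2 : Stmt_KM2) (hKM3 : Stmt_KM3) (hTAI : Stmt_TAI)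
    (hSY4 : Stmt_SY4) (hSY5 : Stmt_SY5) (hSY6 : Stmt_SY6) : Stmt_BEK := by
  intro C φ y l Y g₄ hφ hy hl hD
  obtain ⟨C0, hC0, hs1, hs2, hs3, hs4, hs5, hs6, hs7, hs8, hs9⟩ := hSCB φ hφ
  have hφs : ContDiff ℝ ∞ φ := hφ.smooth
  have hD' : Dua φ y l (max C C0) Y g₄ := dua_mono hD (le_max_left _ _)
  obtain ⟨C1, hC1, H2⟩ := hKM2 (max C C0)
  obtain ⟨hY2, hYt⟩ := H2 φ y l Y g₄ hl hD'
  have hB := hYt φ hφs (fun m c z => (bd5 hs2 m c z).trans (le_max_right _ _))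
  obtain ⟨C3, hC3, hW, hV⟩ := hKM3 φ y hφ hy
  have i1 : Integrable (A1 φ) := intA1 hTAI hφs hC0 hs2
  have i2 : Integrable (A2 φ Y) := intA2 hφs hD.smY hB.int
  have i3 : Integrable (fun q : W4 => ∑ c, Y 0 c q ^ 2) := hY2.int
  have i4 : Integrable (fun q : W4 => ww φ (q.1, q.2.1) * y q) :=
    intA4 hs6.continuous (fun z => (hs4 z).1) hy.1.continuous hW.int
  have i5 : Integrable (fun q : W4 => VV φ q.1 q.2.1 * y q ^ 2) := hV.int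
  have e0 : k4 φ φ y Y = fun q => A1 φ q - A2 φ Y q + 1 / 6 * (∑ c, Y 0 c q ^ 2)
      + 1 / 3 * (ww φ (q.1, q.2.1) * y q) + 1 / 6 * (VV φ q.1 q.2.1 * y q ^ 2) := rfl
  have j12 : Integrable (fun q => A1 φ q - A2 φ Y q) := i1.sub i2
  have j3 : Integrable (fun q => A1 φ q - A2 φ Y q + 1 / 6 * (∑ c, Y 0 c q ^ 2)) := j12.add (i3.const_mul _)
  have j4 : Integrable (fun q => A1 φ q - A2 φ Y q + 1 / 6 * (∑ c, Y 0 c q ^ 2)
      + 1 / 3 * (ww φ (q.1, q.2.1) * y q)) := j3.add (i4.const_mul _)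
  have j5 : Integrable (fun q => A1 φ q - A2 φ Y q + 1 / 6 * (∑ c, Y 0 c q ^ 2)
      + 1 / 3 * (ww φ (q.1, q.2.1) * y q) + 1 / 6 * (VV φ q.1 q.2.1 * y q ^ 2)) := j4.add (i5.const_mul _)
  refine ⟨by rw [e0]; exact j5, ?_⟩
  have hint : ∫ q, k4 φ φ y Y q = (∫ q, A1 φ q) - (∫ q, A2 φ Y q) + 1 / 6 * (∫ q, ∑ c, Y 0 c q ^ 2)
      + 1 / 3 * (∫ q : W4, ww φ (q.1, q.2.1) * y q) + 1 / 6 * (∫ q : W4, VV φ q.1 q.2.1 * y q ^ 2) := by
    rw [e0, integral_add j4 (i5.const_mul _), integral_add j3 (i4.const_mul _),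
      integral_add j12 (i3.const_mul _), integral_sub i1 i2, integral_const_mul, integral_const_mul,
      integral_const_mul]
  have f4 := hSY4 φ hφ
  have f5 := hSY5 C φ y l Y g₄ hφ hD
  obtain ⟨f6, f7, f8⟩ := hSY6 C φ y l Y g₄ hφ hy hD
  unfold bet
  rw [f4, f5, f6, f7, f8, hint]
  show 2 * (∫ q, g₄ q) - 4 * (∫ q, ∑ c, Y 0 c q ^ 2) + 2 * (12 * ∫ q, A2 φ Y q) - 24 * (∫ q, A1 φ q)
    - 2 * (4 * ∫ q : W4, ww φ (q.1, q.2.1) * y q) - 4 * (∫ q : W4, VV φ q.1 q.2.1 * y q ^ 2) = _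
  ring

end Pool.Agent.TBK
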