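import Pool.Agent.TBK.Stmts

/-!
# Three-body Bose gases, construction of the kernels, module BET: the partition functions
-/

set_option autoImplicit false

open MeasureTheory Filter Topology
open scoped ContDiff

namespace Pool.Agent.TBK

open Pool.Agent.TBG Pool.Agent.TBL Pool.Agent.TBF Pool.Agent.TBS

namespace BET_

lemma cd (hs : ContDiff ℝ ∞ hb) (l : ℝ) (a : E) : ContDiff ℝ ∞ (be l a) := by
  unfold be
  refine contDiff_prod fun c _ => hs.comp ?_
  have : ContDiff ℝ ∞ (fun x : E => x c) := by fun_prop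
  exact (this.sub contDiff_const).div_const l

/-- the derivative in the direction `c` -/
lemma der (hs : ContDiff ℝ ∞ hb) (l : ℝ) (a : E) (c : Fin 3) (x : E) :
    pd c (be l a) x = (deriv hb ((x c - a c) / l) * (1 / l)) *
      ∏ c' ∈ Finset.univ.erase c, hb ((x c' - a c') / l) := by
  have hd : DifferentiableAt ℝ (be l a) x := (cd hs l a).differentiable (by simp) x
  have hline : HasDerivAt (fun t : ℝ => x + t • (ev c : E)) (ev c : E) 0 := by
    simpa using ((hasDerivAt_id (0 : ℝ)).smul_const (ev c : E)).const_add x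
  have h1 : HasDerivAt (fun t : ℝ => be l a (x + t • (ev c : E))) (pd c (be l a) x) 0 := by
    have h2 : HasFDerivAt (be l a) (fderiv ℝ (be l a) x) (x + (0 : ℝ) • (ev c : E)) := by
      simpa using hd.hasFDerivAt
    exact h2.comp_hasDerivAt (0 : ℝ) hline
  have e1 : ∀ t : ℝ, be l a (x + t • (ev c : E)) = hb ((x c + t - a c) / l) *
      ∏ c' ∈ Finset.univ.erase c, hb ((x c' - a c') / l) := by
    intro t
    unfold be
    rw [← Finset.mul_prod_erase Finset.univ _ (Finset.mem_univ c)]
    congr 1
    · congr 2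
      simp [ev]
    · refine Finset.prod_congr rfl fun c' hc' => ?_
      have hne : c' ≠ c := Finset.ne_of_mem_erase hc'
      congr 3
      simp [ev, hne]
  have h3 : HasDerivAt (fun t : ℝ => be l a (x + t • (ev c : E)))
      ((deriv hb ((x c - a c) / l) * (1 / l)) *
        ∏ c' ∈ Finset.univ.erase c, hb ((x c' - a c') / l)) 0 := by
    simp_rw [e1]
    refine HasDerivAt.mul_const ?_ _
    have h4 : HasDerivAt hb (deriv hb ((x c - a c) / l)) ((x c + 0 - a c) / l) := by
      rw [add_zero]
      exact (hs.differentiable (by simp) _).hasDerivAt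
    have h5 : HasDerivAt (fun t : ℝ => (x c + t - a c) / l) (1 / l) 0 := by
      have := (((hasDerivAt_id (0 : ℝ)).const_add (x c)).sub_const (a c)).div_const l
      simpa using this
    exact h4.comp (0 : ℝ) h5
  exact h1.unique h3

end BET_

open BET_

theorem bet_proof (hHBU : Stmt_HBU) : Stmt_BET := by
  obtain ⟨hs, h01, hz, ⟨C, hC⟩, hI, -⟩ := hHBU
  have hC0 : 0 ≤ C := (abs_nonneg _).trans (hC 0)
  refine ⟨C + 1, by positivity, fun l hl a => ⟨cd hs l a, ?_, ?_, ?_, ?_⟩⟩
  · intro x
    unfold be
    exact ⟨Finset.prod_nonneg fun c _ => (h01 _).1,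
      Finset.prod_le_one (fun c _ => (h01 _).1) fun c _ => (h01 _).2⟩
  · intro x hx c
    by_contra hc
    refine hx ?_
    unfold be
    refine Finset.prod_eq_zero (Finset.mem_univ c) (hz _ ?_)
    rw [abs_div, abs_of_pos hl, le_div_iff₀ hl, one_mul]
    exact (not_le.1 hc).le
  · intro c x
    rw [der hs l a c x, abs_mul, abs_mul, abs_of_pos (one_div_pos.2 hl)]
    have h1 : |∏ c' ∈ Finset.univ.erase c, hb ((x c' - a c') / l)| ≤ 1 := by
      rw [Finset.abs_prod]
      refine Finset.prod_le_one (fun c' _ => abs_nonneg _) fun c' _ => ?_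
      rw [abs_of_nonneg (h01 _).1]
      exact (h01 _).2
    calc |deriv hb ((x c - a c) / l)| * (1 / l) *
          |∏ c' ∈ Finset.univ.erase c, hb ((x c' - a c') / l)| ≤ C * (1 / l) * 1 := by
          gcongr
          exact hC _
      _ ≤ (C + 1) / l := by
          rw [mul_one, mul_one_div]
          gcongr
          linarith
  · have hp := (PiLp.volume_preserving_toLp (ι := Fin 3))
    have e1 : ∫ x, be l a x = ∫ y : Fin 3 → ℝ, ∏ c, hb ((y c - a c) / l) := by
      rw [← hp.integral_comp (MeasurableEquiv.toLp 2 (Fin 3 → ℝ)).measurableEmbedding]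
      rfl
    have e2 : ∀ c : Fin 3, ∫ t : ℝ, hb ((t - a c) / l) = l := by
      intro c
      rw [integral_sub_right_eq_self (fun t => hb (t / l)) (a c)]
      have := Measure.integral_comp_div (fun t => hb t) l
      rw [this, hI, abs_of_pos hl, smul_eq_mul, mul_one]
    rw [e1]
    have e3 := integral_fintype_prod_volume_eq_prod (𝕜 := ℝ) (ι := Fin 3) (E := fun _ => ℝ)
      (fun c t => hb ((t - a c) / l))
    rw [e3]
    simp_rw [e2]
    simp

end Pool.Agent.TBK
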