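import Pool.Agent.TBK.Stmts

/-!
# CKP: products of one-particle kernels
-/

set_option autoImplicit false

open MeasureTheory Filter Topology
open scoped ContDiff

namespace Pool.Agent.TBK

open Pool.Agent.TBG Pool.Agent.TBL Pool.Agent.TBF Pool.Agent.TBS

namespace CKP_

lemma norm_le_three (x : E) (l : ℝ) (h : ∀ c, |x c| ≤ l) : ‖x‖ ≤ 3 * |l| := by
  have hl : 0 ≤ |l| := abs_nonneg l
  have h2 : ‖x‖ ^ 2 ≤ (3 * |l|) ^ 2 := by
    rw [EuclideanSpace.norm_sq_eq]
    have : ∀ c, ‖x c‖ ^ 2 ≤ |l| ^ 2 := fun c => by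
      rw [Real.norm_eq_abs]
      exact pow_le_pow_left₀ (abs_nonneg _) ((h c).trans (le_abs_self l)) 2
    calc ∑ c, ‖x c‖ ^ 2 ≤ ∑ _c : Fin 3, |l| ^ 2 := Finset.sum_le_sum fun c _ => this c
      _ = 3 * |l| ^ 2 := by simp
      _ ≤ (3 * |l|) ^ 2 := by nlinarith [sq_nonneg |l|]
  exact le_of_sq_le_sq h2 (by positivity)
where
  le_of_sq_le_sq {a b : ℝ} (h : a ^ 2 ≤ b ^ 2) (hb : 0 ≤ b) : a ≤ b := by
    by_contra hcon
    push Not at hcon
    nlinarith

lemma int_of_ball {W : Type} [NormedAddCommGroup W] [MeasureSpace W] [BorelSpace W]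
    [ProperSpace W] [IsFiniteMeasureOnCompacts (volume : Measure W)]
    (f : W → ℝ) (hf : Measurable f) (B : ℝ) (hB : ∀ x, |f x| ≤ B) (x₀ : W) (r : ℝ)
    (hs : ∀ x, f x ≠ 0 → dist x x₀ ≤ r) : Integrable f := by
  have hsub : Function.support f ⊆ Metric.closedBall x₀ r := fun x hx =>
    Metric.mem_closedBall.mpr (hs x hx)
  rw [← integrableOn_iff_integrable_of_support_subset hsub]
  refine Measure.integrableOn_of_bounded (M := B) ?_ hf.aestronglyMeasurable ?_
  · exact measure_closedBall_lt_top.ne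
  · exact Eventually.of_forall fun x => by
      rw [Real.norm_eq_abs]
      exact hB x

lemma pk_int {l w₁ w₂ w₃ : ℝ} {q : E → ℝ} (h : Pk l w₁ w₂ w₃ q) : Integrable q := by
  refine int_of_ball q h.meas 1 (fun x => ?_) 0 (3 * |l|) fun x hx => ?_
  · rw [abs_of_nonneg (h.nn x)]
    exact h.le1 x
  · rw [dist_zero_right]
    exact norm_le_three x l (h.sp x hx)

lemma cons_meas {m : ℕ} (x₀ : E) : Measurable fun z : Fin m → E => (Fin.cons x₀ z : Fin (m + 1) → E) := by
  rw [measurable_pi_iff]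
  intro s
  refine Fin.cases ?_ (fun s => ?_) s
  · simp only [Fin.cons_zero]
    exact measurable_const
  · simp only [Fin.cons_succ]
    exact measurable_pi_apply s

lemma ck_int {m : ℕ} {l κ : ℝ} {K : (Fin (m + 1) → E) → ℝ} (h : Ck m l κ K) (x₀ : E) :
    Integrable fun z : Fin m → E => K (Fin.cons x₀ z) := by
  obtain ⟨hm, C, hC⟩ := h.bm
  refine int_of_ball _ (hm.comp (cons_meas x₀)) C (fun z => hC _) (fun _ => x₀) (3 * |l|)
    fun z hz => ?_
  rw [dist_pi_le_iff (by positivity)]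
  intro s
  rw [dist_eq_norm]
  refine norm_le_three _ l fun c => ?_
  have := h.sp _ hz s.succ c
  simpa using this

end CKP_

open CKP_ in
theorem ckp_proof : Stmt_CKP := by
  refine ⟨?_, ?_, ?_⟩
  · intro m l C₁ w w₂ w₃ q K hl hC₁ hq hK hb
    have hp : ∀ x : Fin (m + 1) → E, 0 ≤ ∏ s : Fin m, q s (x 0 - x s.succ) ∧
        ∏ s : Fin m, q s (x 0 - x s.succ) ≤ 1 := fun x =>
      ⟨Finset.prod_nonneg fun s _ => (hq s).nn _,
        Finset.prod_le_one (fun s _ => (hq s).nn _) fun s _ => (hq s).le1 _⟩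
    refine ⟨⟨hK, C₁, fun x => ?_⟩, fun x => (hb x).1, fun x hx s c => ?_, fun x₀ => ?_⟩
    · rw [abs_of_nonneg (hb x).1]
      calc K x ≤ C₁ * ∏ s : Fin m, q s (x 0 - x s.succ) := (hb x).2
        _ ≤ C₁ * 1 := mul_le_mul_of_nonneg_left (hp x).2 hC₁
        _ = C₁ := mul_one _
    · revert s
      refine Fin.cases ?_ fun s => ?_
      · simpa using hl
      · have h1 : q s (x 0 - x s.succ) ≠ 0 := by
          intro h0
          have : ∏ s : Fin m, q s (x 0 - x s.succ) = 0 :=
            Finset.prod_eq_zero (Finset.mem_univ s) h0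
          have h2 := (hb x).2
          rw [this, mul_zero] at h2
          exact hx (le_antisymm h2 (hb x).1)
        have := (hq s).sp _ h1 c
        rw [abs_sub_comm]
        simpa using this
    · have hi : Integrable fun z : Fin m → E => ∏ s : Fin m, q s (x₀ - z s) := by
        have := Integrable.fintype_prod (f := fun s (y : E) => q s (x₀ - y))
          (fun s => (pk_int (hq s)).comp_sub_left x₀)
        exact this
      calc ∫ z : Fin m → E, K (Fin.cons x₀ z)
          ≤ ∫ z : Fin m → E, C₁ * ∏ s : Fin m, q s (x₀ - z s) := by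
            refine integral_mono_of_nonneg (Eventually.of_forall fun z => (hb _).1)
              (hi.const_mul C₁) (Eventually.of_forall fun z => ?_)
            have := (hb (Fin.cons x₀ z)).2
            simpa using this
        _ = C₁ * ∏ s : Fin m, ∫ y, q s (x₀ - y) := by
            rw [integral_const_mul]
            congr 1
            exact integral_fintype_prod_volume_eq_prod (fun s (y : E) => q s (x₀ - y))
        _ = C₁ * ∏ s : Fin m, ∫ y, q s y := by
            congr 1
            refine Finset.prod_congr rfl fun s _ => ?_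
            exact integral_sub_left_eq_self (q s) volume x₀
        _ ≤ C₁ * ∏ s, w s := by
            refine mul_le_mul_of_nonneg_left ?_ hC₁
            exact Finset.prod_le_prod (fun s _ => integral_nonneg (hq s).nn) fun s _ => (hq s).m1
  · intro m l κ₁ κ₂ K₁ K₂ h₁ h₂
    obtain ⟨hm₁, C₁, hC₁⟩ := h₁.bm
    obtain ⟨hm₂, C₂, hC₂⟩ := h₂.bm
    refine ⟨⟨hm₁.add hm₂, C₁ + C₂, fun x => ?_⟩, fun x => add_nonneg (h₁.nn x) (h₂.nn x),
      fun x hx s c => ?_, fun x₀ => ?_⟩
    · exact (abs_add_le _ _).trans (add_le_add (hC₁ x) (hC₂ x))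
    · by_cases h : K₁ x = 0
      · refine h₂.sp x (fun h0 => hx ?_) s c
        simp [h, h0]
      · exact h₁.sp x h s c
    · rw [integral_add (ck_int h₁ x₀) (ck_int h₂ x₀)]
      exact add_le_add (h₁.mass x₀) (h₂.mass x₀)
  · intro m l κ κ' K h hκ
    exact ⟨h.bm, h.nn, h.sp, fun x₀ => (h.mass x₀).trans hκ⟩

end Pool.Agent.TBK
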