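import Pool.Agent.TBK.Stmts
import Pool.Agent.TBS.StmtsB

/-!
# Three-body Bose gases (MP_80dc41_mp), sharp lower bound: existence of the data of one scale
-/

set_option autoImplicit false

open MeasureTheory Filter Topology
open scoped ContDiff

namespace Pool.Agent.TBK

open Pool.Agent.TBG Pool.Agent.TBL Pool.Agent.TBF Pool.Agent.TBS

namespace DTX_

theorem tri_mono {C C' R : ℝ} {φ τ g : E × E → ℝ} (h : Tri C R φ τ g) (hC : C ≤ C') : Tri C' R φ τ g where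
  smooth := h.smooth
  sy1 := h.sy1
  sy2 := h.sy2
  nn := h.nn
  dec0 := fun z => (h.dec0 z).trans hC
  dec1 := fun m c z => (h.dec1 m c z).trans hC
  sp := h.sp
  eqn := h.eqn
  g0 := h.g0
  gb := fun z => (h.gb z).trans hC
  gsp := h.gsp
  mass := h.mass
  en := h.en
  cl := fun m c z hz => h.cl m c z ((mul_le_mul_of_nonneg_right hC (norm_nonneg z)).trans hz)

theorem dua_mono {C C' l : ℝ} {φ : E × E → ℝ} {y : W4 → ℝ} {Y : Fin 4 → Fin 3 → W4 → ℝ} {g : W4 → ℝ}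
    (h : Dua φ y l C Y g) (hC : C ≤ C') : Dua φ y l C' Y g where
  smY := h.smY
  smg := h.smg
  spY := h.spY
  spg := h.spg
  eqn := h.eqn
  bdY := fun m c p => (h.bdY m c p).trans hC
  bdg := fun p => (h.bdg p).trans hC
  eqv := h.eqv
  syg := h.syg
  sum := h.sum

theorem sys_mono {C C' : ℝ} {p : Par} {β θ : E → E → ℝ} (h : Sys C p β θ) (hC : C ≤ C') : Sys C' p β θ := by
  have hl : 0 < p.l := by linarith [h.hR, h.hl]
  exact
  { hR := h.hR
    hl := h.hl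
    hM := h.hM
    inb := h.inb
    gi := h.gi
    mul := fun x => (h.mul x).trans hC
    βs := h.βs
    β0 := h.β0
    βsp := h.βsp
    βd := fun a c x => (h.βd a c x).trans (div_le_div_of_nonneg_right hC hl.le)
    β1 := h.β1
    βi := h.βi
    βm := h.βm
    θm := h.θm
    θ0 := h.θ0
    θb := fun a x => (h.θb a x).trans (div_le_div_of_nonneg_right hC (pow_nonneg hl.le 3))
    θsp := h.θsp
    θ1 := h.θ1 }

theorem trp_mono {C C' b : ℝ} {p : Par} {β θ : E → E → ℝ} {g : E × E → ℝ} {P : E → E → E → E → ℝ}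
    (h : Trp C b p β θ g P) (hC : C ≤ C') (hl : 0 ≤ p.l) (hR : 0 ≤ p.R) : Trp C' b p β θ g P where
  df := h.df
  sy := h.sy
  bm := h.bm
  nn := h.nn
  bd := fun a x y z => (h.bd a x y z).trans (div_le_div_of_nonneg_right hC (by positivity))
  sp := h.sp
  mar := h.mar

theorem pk_mono {l w₁ w₂ w₃ w₁' w₂' w₃' : ℝ} {q : E → ℝ} (h : Pk l w₁ w₂ w₃ q) (h1 : w₁ ≤ w₁') (h2 : w₂ ≤ w₂')
    (h3 : w₃ ≤ w₃') : Pk l w₁' w₂' w₃' q where
  meas := h.meas
  nn := h.nn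
  le1 := h.le1
  sp := h.sp
  m1 := h.m1.trans h1
  m2 := fun x => (h.m2 x).trans h2
  m3 := h.m3.trans h3

theorem ck_mono {m : ℕ} {l κ κ' : ℝ} {K : (Fin (m + 1) → E) → ℝ} (h : Ck m l κ K) (h1 : κ ≤ κ') : Ck m l κ' K where
  bm := h.bm
  nn := h.nn
  sp := h.sp
  mass := fun x => (h.mass x).trans h1

theorem pk_nn (α R : ℝ) (x : E) : 0 ≤ pk α R x := by
  unfold pk ic
  refine mul_nonneg (Set.indicator_nonneg (fun _ _ => zero_le_one) _) (Real.rpow_nonneg ?_ _)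
  positivity

theorem le_prod {m : ℕ} {A C α R v : ℝ} (hAC : A ≤ C) (z : Fin m → E) (h : v ≤ A * ∏ s : Fin m, pk α R (z s)) :
    v ≤ C * ∏ s : Fin m, pk α R (z s) :=
  h.trans (mul_le_mul_of_nonneg_right hAC (Finset.prod_nonneg fun s _ => pk_nn _ _ _))

end DTX_

open DTX_

theorem dtx_proof (hKTR : Pool.Agent.TBS.Stmt_KTR) (hSYC : Pool.Agent.TBS.Stmt_SYC)
    (hKMP : Pool.Agent.TBS.Stmt_KMP) (hKMS : Pool.Agent.TBS.Stmt_KMS) (hKMY : Pool.Agent.TBS.Stmt_KMY)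
    (hK4C : Pool.Agent.TBS.Stmt_K4C) (hKM1 : Stmt_KM1) (hKM2 : Stmt_KM2) (hKM3 : Stmt_KM3) :
    Pool.Agent.TBS.Stmt_DTX := by
  intro φ y B C₀ r₀ hφ hb hy hs hdual
  obtain ⟨C₁, R₀, hC₁, hR₀, hTri⟩ := hKTR φ hφ
  obtain ⟨C₂, hC₂, hSys⟩ := hSYC C₁ φ hφ hb
  obtain ⟨A₁, hA₁, hS⟩ := hKMS C₁
  obtain ⟨A₂, hA₂, hP⟩ := hKMP
  obtain ⟨A₃, hA₃, hY⟩ := hKMY C₀
  obtain ⟨A₄, hA₄, h1⟩ := hKM1 C₁
  obtain ⟨A₅, hA₅, h2⟩ := hKM2 (max C₀ C₁)
  obtain ⟨A₆, hA₆, h3, h3'⟩ := hKM3 φ y hφ hy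
  obtain ⟨A₇, hA₇, h4⟩ := hK4C (max C₀ C₁) φ y hφ hy hs
  set C := |C₀| + C₁ + C₂ + A₁ + A₂ + A₃ + A₄ + A₅ + A₆ + A₇ with hC
  have hC0 : 0 ≤ |C₀| := abs_nonneg _
  have l0 : C₀ ≤ C := by
    have := le_abs_self C₀
    linarith
  have l1 : C₁ ≤ C := by linarith
  have l2 : C₂ ≤ C := by linarith
  have m1 : A₁ ≤ C := by linarith
  have m2 : A₂ ≤ C := by linarith
  have m3 : A₃ ≤ C := by linarith
  have m4 : A₄ ≤ C := by linarith
  have m5 : A₅ ≤ C := by linarith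
  have m6 : A₆ ≤ C := by linarith
  have m7 : A₇ ≤ C := by linarith
  refine ⟨C, max (max 1 R₀) (max r₀ A₆), by linarith, (le_max_left _ _).trans (le_max_left _ _), ?_⟩
  intro Mc l R M hR hRl hM
  have hR1 : 1 ≤ R := ((le_max_left _ _).trans (le_max_left _ _)).trans hR
  have hRR : R₀ ≤ R := ((le_max_right _ _).trans (le_max_left _ _)).trans hR
  have hRr : r₀ ≤ R := ((le_max_left _ _).trans (le_max_right _ _)).trans hR
  have hRA : A₆ ≤ R := ((le_max_right _ _).trans (le_max_right _ _)).trans hR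
  have hR0 : 0 < R := by linarith
  have hl0 : 0 < l := by linarith
  have hl1 : 1 ≤ l := hR1.trans hRl
  obtain ⟨τ, g, hτ⟩ := hTri R hRR
  obtain ⟨β, θ, P, hs1, hs2, hs3⟩ := hSys Mc l R M τ g hτ hR1 hRl hM
  obtain ⟨Y, g₄, hD, hB⟩ := hdual l (hRr.trans hRl)
  refine ⟨β, θ, P, τ, g, Y, g₄, ?_, hB, hs3⟩
  obtain ⟨⟨a1, a2⟩, ⟨b1, b2⟩, c1, d1, e1⟩ := hS φ τ g R l hR1 hRl hφ hτ
  obtain ⟨p1, p2, p3⟩ := hP R l hR1 hRl
  obtain ⟨⟨y1, y2⟩, y3⟩ := hY φ y l Y g₄ hl1 hD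
  have hτ' : Tri (max C₀ C₁) R φ τ g := tri_mono hτ (le_max_right _ _)
  have hD' : Dua φ y l (max C₀ C₁) Y g₄ := dua_mono hD (le_max_left _ _)
  have k1 := h1 φ R τ g hR1 hτ
  obtain ⟨k3, k2⟩ := h2 φ y l Y g₄ hl1 hD'
  have k2 := k2 τ hτ'.smooth hτ'.dec1
  obtain ⟨-, -, n3⟩ := h4 R l τ g Y g₄ hR1 hRl hτ' hD'
  have hR' : ∀ A : ℝ, A ≤ C → 0 ≤ A → A * 1 ≤ C * R := fun A hA hA0 =>
    mul_le_mul hA hR1 zero_le_one (hA0.trans hA)
  exact
  { sys := sys_mono hs1 l2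
    tri := tri_mono hτ l1
    trp := trp_mono hs2 l2 hl0.le hR0.le
    dua := dua_mono hD l0
    kf := by
      refine
      { pA := ?_
        pT := pk_mono p2 (mul_le_mul_of_nonneg_right m2 hR0.le) m2 m2
        pB := pk_mono p3 (mul_le_mul_of_nonneg_right m2 (by positivity)) m2 m2
        cA := ck_mono a1 (mul_le_mul_of_nonneg_right m1 hR0.le)
        cA2 := ck_mono d1 m1
        dA := fun x => le_prod m1 _ (a2 x)
        cT := ck_mono b1 (mul_le_mul_of_nonneg_right m1 (by positivity))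
        dT := fun x => le_prod m1 _ (b2 x)
        cT2 := ck_mono c1 m1
        cTq := ck_mono e1 (mul_le_mul_of_nonneg_right m1 hR0.le)
        cB := ck_mono y1 (mul_le_mul_of_nonneg_right m3 hl0.le)
        dB := fun x => le_prod m3 _ (y2 x)
        cB2 := ck_mono y3 m3
        k5b := ?_
        k5s := ?_
        k5m := ?_
        k5v := ?_ }
      · have := pk_mono p1 (mul_le_mul_of_nonneg_right m2 (by positivity : 0 ≤ R ^ (1 / 2 : ℝ))) m2 m2
        rwa [← Real.sqrt_eq_rpow] at this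
      · intro n
        fin_cases n
        exacts [k1.bm, k2.bm, k3.bm, h3.bm, h3'.bm]
      · intro n q
        fin_cases n
        exacts [fun h => (k1.sp q h).trans hRl, fun h => k2.sp q h, fun h => k3.sp q h,
          fun h => (h3.sp q h).trans (hRA.trans hRl), fun h => (h3'.sp q h).trans (hRA.trans hRl)]
      · intro n
        fin_cases n
        exacts [k1.mass.trans m4, k2.mass.trans m5, k3.mass.trans m5, h3.mass.trans m6, h3'.mass.trans m6]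
      · intro n
        fin_cases n
        exacts [k1.sec.trans (mul_le_mul_of_nonneg_right m4 hR0.le), k2.sec.trans (hR' _ m5 hA₅.le),
          k3.sec.trans (hR' _ m5 hA₅.le), h3.sec.trans (hR' _ m6 hA₆.le), h3'.sec.trans (hR' _ m6 hA₆.le)]
    cst := n3.trans (div_le_div_of_nonneg_right m7 hR0.le) }

end Pool.Agent.TBK
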