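import Pool.Agent.TBK.Stmts

set_option autoImplicit false

open MeasureTheory Filter Topology
open scoped ContDiff

namespace Pool.Agent.TBK

open Pool.Agent.TBG Pool.Agent.TBL Pool.Agent.TBF Pool.Agent.TBS

namespace GRD_

lemma cc_apply (l : ℝ) (Mc : ℕ) (k : Fin 3 → Fin Mc) (c : Fin 3) :
    cc l Mc k c = -((Mc : ℝ) * l / 2) + (k c : ℕ) * l + l / 2 := by
  simp [cc, crn]

lemma card_le (t : ℝ) : (Finset.Icc ⌈t - 12⌉ ⌊t + 12⌋).card ≤ 25 := by
  rw [Int.card_Icc]
  have h1 : ⌊t + 12⌋ = ⌊t⌋ + 12 := by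
    have := Int.floor_add_intCast t 12
    simpa using this
  have h2 : ⌈t - 12⌉ = ⌈t⌉ - 12 := by
    have := Int.ceil_sub_intCast t 12
    simpa using this
  have h3 : ⌊t⌋ ≤ ⌈t⌉ := Int.floor_le_ceil t
  rw [h1, h2]
  omega

end GRD_

open GRD_

theorem grd_proof : Stmt_GRD := by
  classical
  intro Mc l R M hl
  refine ⟨?_, ?_, ?_⟩
  · intro a ha x hx c
    obtain ⟨k, hk, rfl⟩ : ∃ k : Fin 3 → Fin Mc,
        (∀ c, 11 ≤ (k c : ℕ) ∧ (k c : ℕ) + 11 ≤ Mc) ∧ cc l Mc k = a := by
      simpa [gpar] using ha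
    have h := hx c
    obtain ⟨h11, h12⟩ := hk c
    have e : (gpar Mc l R M).l = l := rfl
    have eL : (gpar Mc l R M).L = Mc * l := rfl
    rw [e, cc_apply] at h
    rw [eL, abs_lt]
    have a1 : (11 : ℝ) * l ≤ ((k c : ℕ) : ℝ) * l := by
      have : (11 : ℝ) ≤ ((k c : ℕ) : ℝ) := by exact_mod_cast h11
      nlinarith
    have a2 : (((k c : ℕ) : ℝ) + 11) * l ≤ (Mc : ℝ) * l := by
      have : ((k c : ℕ) : ℝ) + 11 ≤ (Mc : ℝ) := by exact_mod_cast h12
      nlinarith
    constructor
    · nlinarith [h.1]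
    · nlinarith [h.2]
  · apply Finset.image_subset_image
    intro k hk
    simp only [Finset.mem_filter, Finset.mem_univ, true_and] at hk ⊢
    intro c
    have := hk c
    omega
  · intro x
    have e : (gpar Mc l R M).l = l := rfl
    rw [e]
    have e2 : (gpar Mc l R M).Gr = (Finset.univ.filter (fun k : Fin 3 → Fin Mc =>
        ∀ c, 11 ≤ (k c : ℕ) ∧ (k c : ℕ) + 11 ≤ Mc)).image (cc l Mc) := by
      unfold gpar
      congr
    have h1 : ((gpar Mc l R M).Gr.filter (fun a => ∀ c, |x c - a c| ≤ 12 * l)).card ≤ 15625 := by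
      rw [e2, Finset.filter_image]
      refine le_trans Finset.card_image_le ?_
      set S : Finset (Fin 3 → ℤ) := Fintype.piFinset (fun c =>
        Finset.Icc ⌈(x c + (Mc : ℝ) * l / 2 - l / 2) / l - 12⌉ ⌊(x c + (Mc : ℝ) * l / 2 - l / 2) / l + 12⌋) with hS
      have hSc : S.card ≤ 15625 := by
        rw [hS, Fintype.card_piFinset]
        calc _ ≤ ∏ _c : Fin 3, 25 := Finset.prod_le_prod' (fun c _ => card_le _)
          _ = 15625 := by simp
      refine le_trans ?_ hSc
      refine Finset.card_le_card_of_injOn (fun k c => ((k c : ℕ) : ℤ)) ?_ ?_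
      · intro k hk
        simp only [Finset.coe_filter, Finset.mem_filter, Finset.mem_univ, true_and, Set.mem_ofPred_eq] at hk
        rw [hS]
        simp only [Finset.mem_coe, Fintype.mem_piFinset, Finset.mem_Icc]
        intro c
        have hc := hk.2 c
        rw [cc_apply, abs_le] at hc
        have hx : (x c + (Mc : ℝ) * l / 2 - l / 2) / l * l = x c + (Mc : ℝ) * l / 2 - l / 2 :=
          div_mul_cancel₀ _ hl.ne'
        set t := (x c + (Mc : ℝ) * l / 2 - l / 2) / l with ht
        constructor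
        · rw [Int.ceil_le]
          push_cast
          by_contra hcon
          push Not at hcon
          have : ((k c : ℕ) : ℝ) * l < (t - 12) * l := mul_lt_mul_of_pos_right hcon hl
          nlinarith [hc.1, hc.2]
        · rw [Int.le_floor]
          push_cast
          by_contra hcon
          push Not at hcon
          have : (t + 12) * l < ((k c : ℕ) : ℝ) * l := mul_lt_mul_of_pos_right hcon hl
          nlinarith [hc.1, hc.2]
      · intro k _ k' _ hkk
        funext c
        have := congrFun hkk c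
        simp only at this
        exact Fin.ext (by exact_mod_cast this)
    exact_mod_cast h1

end Pool.Agent.TBK
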