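import Pool.Agent.TBK.Stmts

/-!
# Squad TBK: module GSY (the soft potential)
-/

set_option autoImplicit false

open MeasureTheory Filter Topology
open scoped ContDiff

namespace Pool.Agent.TBK

open Pool.Agent.TBG Pool.Agent.TBL Pool.Agent.TBF Pool.Agent.TBS

namespace GSY_

lemma dv_smooth {f : E × E → ℝ} (hf : ContDiff ℝ ∞ f) (v : E × E) : ContDiff ℝ ∞ (dv v f) := by
  unfold dv
  exact (hf.fderiv_right (m := ∞) (by simp)).clm_apply contDiff_const

lemma lap_cont {f : E × E → ℝ} (hf : ContDiff ℝ ∞ f) : Continuous (Lap f) := by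
  unfold Lap
  refine continuous_finsetSum _ fun m _ => continuous_finsetSum _ fun c _ => ?_
  exact (dv_smooth (dv_smooth hf _) _).continuous

lemma lap_sym (hLTR : Pool.Agent.TBG.Stmt_LTR) {f : E × E → ℝ} (hf : ContDiff ℝ ∞ f)
    (h1 : ∀ x y, f (x, y) = f (y, x)) (h2 : ∀ x y, f (x, y) = f (-x, y - x)) (x y : E) :
    Lap f (x, y) = Lap f (y, x) ∧ Lap f (x, y) = Lap f (-x, y - x) := by
  obtain ⟨-, -, h3, h4⟩ := hLTR f hf
  have e1 : (fun z : E × E => f (z.2, z.1)) = f := by
    funext z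
    exact (h1 z.1 z.2).symm
  have e2 : (fun z : E × E => f (-z.1, z.2 - z.1)) = f := by
    funext z
    exact (h2 z.1 z.2).symm
  have a1 := (h3 (x, y)).1
  have a2 := (h4 (x, y)).1
  rw [e1] at a1
  rw [e2] at a2
  exact ⟨a1, a2⟩

end GSY_

open GSY_ in
theorem gsy_proof (hLTR : Pool.Agent.TBG.Stmt_LTR) (hADM : Pool.Agent.TBG.Stmt_ADM) :
    Stmt_GSY := by
  intro C R φ τ g hφ hT
  have hg : g = fun z => Lap τ z + ww φ z := by
    funext z
    rw [hT.eqn z]
    ring
  have hwc : Continuous (ww φ) := (hADM φ hφ).2.2.1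
  have hcont : Continuous g := by
    rw [hg]
    exact (lap_cont hT.smooth).add hwc
  have hcs : HasCompactSupport g := by
    refine HasCompactSupport.intro (isCompact_closedBall (0 : E × E) R) fun z hz => ?_
    refine hT.gsp z ?_
    rw [mem_closedBall_zero_iff, not_le] at hz
    exact hz
  refine ⟨fun x y => ?_, hcont, hcs, hcont.integrable_of_hasCompactSupport hcs⟩
  have a := lap_sym hLTR hT.smooth hT.sy1 hT.sy2 x y
  have b := lap_sym hLTR hφ.smooth hφ.sy1 hφ.sy2 x y
  rw [hg]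
  simp only [ww]
  exact ⟨by rw [a.1, b.1], by rw [a.2, b.2]⟩

end Pool.Agent.TBK
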