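import Pool.Agent.TBK.Stmts

set_option autoImplicit false

open MeasureTheory Filter Topology
open scoped ContDiff

namespace Pool.Agent.TBK

open Pool.Agent.TBG Pool.Agent.TBL Pool.Agent.TBF Pool.Agent.TBS

namespace GTA_

theorem gsq_nonneg (f : E × E → ℝ) (z : E × E) : 0 ≤ gsq f z :=
  Finset.sum_nonneg (fun _ _ => Finset.sum_nonneg (fun _ _ => sq_nonneg _))

theorem st_le (u : ℝ) : Real.smoothTransition u ≤ 1 := Real.smoothTransition.le_one u

end GTA_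

open GTA_ in
theorem gta_proof (_hSCB : Pool.Agent.TBF.Stmt_SCB) (hTDL : Pool.Agent.TBG.Stmt_TDL) (hTAU : Stmt_TAU) :
    Stmt_GTA := by
  intro φ hS
  obtain ⟨c, hc0, hc⟩ := hS.low
  obtain ⟨A, hA⟩ := hS.upp
  obtain ⟨G0, hG0⟩ := hS.grad
  obtain ⟨Rs0, hRs0⟩ := hS.supp
  obtain ⟨hT, CT0, hCT0⟩ := hTDL
  obtain ⟨_, _, hτ⟩ := hTAU φ hS
  have hcA : c ≤ A := (hc 0).trans (hA 0)
  have hA0 : 0 < A := lt_of_lt_of_le hc0 hcA
  -- nonnegative constants
  obtain ⟨G, hG0', hG⟩ : ∃ G : ℝ, 0 ≤ G ∧ ∀ z, (1 + ‖z‖) ^ 10 * gsq φ z ≤ G :=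
    ⟨max G0 0, le_max_right _ _, fun z => (hG0 z).trans (le_max_left _ _)⟩
  obtain ⟨Rs, hRs0', hRs⟩ : ∃ Rs : ℝ, 0 ≤ Rs ∧ ∀ z : E × E, Rs < ‖z‖ → Lap φ z = 0 :=
    ⟨max Rs0 0, le_max_right _ _, fun z hz => hRs0 z (lt_of_le_of_lt (le_max_left _ _) hz)⟩
  obtain ⟨CT, hCT0', hCT⟩ : ∃ CT : ℝ, 0 ≤ CT ∧ ∀ δ : ℝ, 0 < δ → ∀ u, δ * deriv (deriv (Td δ)) u ≤ CT :=
    ⟨max CT0 0, le_max_right _ _, fun δ hδ u => (hCT0 δ hδ u).trans (le_max_left _ _)⟩
  set κ : ℝ := c / (2 * A) with hκ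
  have hκ0 : 0 < κ := by positivity
  have hκ1 : κ ≤ 1 / 2 := by
    rw [hκ, div_le_div_iff₀ (by positivity) (by norm_num)]
    linarith
  have hκ4 : κ ^ 4 ≤ κ := by
    have h3 : κ ^ 3 ≤ 1 := pow_le_one₀ hκ0.le (by linarith)
    calc κ ^ 4 = κ ^ 3 * κ := by ring
      _ ≤ 1 * κ := mul_le_mul_of_nonneg_right h3 hκ0.le
      _ = κ := one_mul _
  have hcκ : c = 2 * A * κ := by
    rw [hκ]
    field_simp
  refine ⟨A, 2 / κ + CT * G * 2 ^ 10 / (A * κ ^ 10), 1 + 2 / κ + (1 + Rs) / κ, hA0, by positivity, ?_, ?_⟩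
  · have h1 : 0 < 2 / κ := by positivity
    have h2 : 0 < (1 + Rs) / κ := by positivity
    linarith
  intro R hR
  have h1 : 0 < 2 / κ := by positivity
  have h2 : 0 < (1 + Rs) / κ := by positivity
  have hR1 : 1 ≤ R := by linarith
  have hR0 : 0 < R := by linarith
  have hRκ : 2 ≤ κ * R := by
    have : 2 / κ ≤ R := by linarith
    rw [div_le_iff₀ hκ0] at this
    linarith
  have hRs1 : 1 + Rs ≤ κ * R := by
    have : (1 + Rs) / κ ≤ R := by linarith
    rw [div_le_iff₀ hκ0] at this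
    linarith
  have hRsR : Rs ≤ R := by
    have : κ * R ≤ 1 * R := mul_le_mul_of_nonneg_right (by linarith) hR0.le
    linarith
  set δ : ℝ := A / R ^ 4 with hδ
  have hδ0 : 0 < δ := by positivity
  obtain ⟨_, hT1, hT2, _, hT4, hT5⟩ := hT δ hδ0
  obtain ⟨_, _, _, hτ4, hτ5⟩ := hτ δ hδ0
  have hn : ∀ z : E × E, 0 ≤ ‖z‖ := fun z => norm_nonneg z
  -- inner region
  have hin : ∀ z : E × E, 1 + ‖z‖ ≤ κ * R → deriv (Td δ) (φ z) = 1 := by
    intro z hz
    rw [hT1]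
    refine Real.smoothTransition.one_of_one_le ?_
    have hp : 0 < (1 + ‖z‖) ^ 4 := by
      have := hn z
      positivity
    have h4 : (1 + ‖z‖) ^ 4 ≤ κ * R ^ 4 := by
      calc (1 + ‖z‖) ^ 4 ≤ (κ * R) ^ 4 := pow_le_pow_left₀ (by have := hn z; linarith) hz 4
        _ = κ ^ 4 * R ^ 4 := by ring
        _ ≤ κ * R ^ 4 := mul_le_mul_of_nonneg_right hκ4 (by positivity)
    have h5 : 2 * δ ≤ φ z := by
      have h6 : c ≤ κ * R ^ 4 * φ z := by
        have hφ : 0 ≤ φ z := by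
          by_contra hneg
          push Not at hneg
          have := hc z
          nlinarith
        exact (hc z).trans (mul_le_mul_of_nonneg_right h4 hφ)
      rw [hcκ] at h6
      have h7 : 2 * A ≤ R ^ 4 * φ z := by
        have : κ * (2 * A) ≤ κ * (R ^ 4 * φ z) := by linarith
        exact le_of_mul_le_mul_left this hκ0
      rw [hδ, ← mul_div_assoc, div_le_iff₀ (by positivity)]
      linarith
    have : 2 ≤ φ z / δ := by
      rw [le_div_iff₀ hδ0]
      exact h5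
    linarith
  have hφ0 : ∀ z, 0 ≤ φ z := by
    intro z
    by_contra hneg
    push Not at hneg
    have := hc z
    have hp : 0 < (1 + ‖z‖) ^ 4 := by
      have := hn z
      positivity
    nlinarith
  -- the first part vanishes
  have hwz : ∀ z, (1 - deriv (Td δ) (φ z)) * ww φ z = 0 := by
    intro z
    by_cases hz : ‖z‖ ≤ Rs
    · rw [hin z (by linarith), sub_self, zero_mul]
    · push Not at hz
      rw [ww, hRs z hz, neg_zero, mul_zero]
  have hsg : ∀ z, sg φ δ z = deriv (deriv (Td δ)) (φ z) * gsq φ z := by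
    intro z
    rw [hτ5, hwz, zero_add]
  refine ⟨?_, ?_, ?_⟩
  · intro z hz
    have hφδ : φ z < δ := by
      have h3 : R ^ 4 < (1 + ‖z‖) ^ 4 := pow_lt_pow_left₀ (by linarith) hR0.le (by norm_num)
      have hp : 0 < (1 + ‖z‖) ^ 4 := by
        have := hn z
        positivity
      rw [hδ, lt_div_iff₀ (by positivity)]
      rcases (hφ0 z).eq_or_lt with h0 | h0
      · rw [← h0, zero_mul]
        exact hA0
      · calc φ z * R ^ 4 < φ z * (1 + ‖z‖) ^ 4 := mul_lt_mul_of_pos_left h3 h0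
          _ = (1 + ‖z‖) ^ 4 * φ z := by ring
          _ ≤ A := hA z
    refine ⟨hT2 _ hφδ.le, ?_⟩
    rw [hsg, hT5 _ (Or.inl hφδ), zero_mul]
  · intro z
    rw [hsg]
    refine ⟨mul_nonneg (hT4 _) (gsq_nonneg _ _), ?_⟩
    by_cases h0 : deriv (deriv (Td δ)) (φ z) = 0
    · rw [h0, zero_mul, mul_zero]
      positivity
    have hz : κ * R / 2 ≤ 1 + ‖z‖ := by
      by_contra hlt
      push Not at hlt
      apply h0
      refine hT5 _ (Or.inr ?_)
      have hp : 0 < (1 + ‖z‖) ^ 4 := by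
        have := hn z
        positivity
      have h4 : (1 + ‖z‖) ^ 4 ≤ κ * R ^ 4 / 16 := by
        calc (1 + ‖z‖) ^ 4 ≤ (κ * R / 2) ^ 4 := pow_le_pow_left₀ (by have := hn z; linarith) hlt.le 4
          _ = κ ^ 4 * R ^ 4 / 16 := by ring
          _ ≤ κ * R ^ 4 / 16 := by
            have : κ ^ 4 * R ^ 4 ≤ κ * R ^ 4 := mul_le_mul_of_nonneg_right hκ4 (by positivity)
            linarith
      have h6 : c ≤ κ * R ^ 4 / 16 * φ z := (hc z).trans (mul_le_mul_of_nonneg_right h4 (hφ0 z))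
      rw [hcκ] at h6
      have h7 : 32 * A ≤ R ^ 4 * φ z := by
        have : κ * (32 * A) ≤ κ * (R ^ 4 * φ z) := by linarith
        exact le_of_mul_le_mul_left this hκ0
      rw [hδ, ← mul_div_assoc, div_lt_iff₀ (by positivity)]
      linarith
    have hδT : deriv (deriv (Td δ)) (φ z) ≤ CT * R ^ 4 / A := by
      have := hCT δ hδ0 (φ z)
      rw [hδ] at this
      rw [le_div_iff₀ hA0]
      have hR4 : 0 < R ^ 4 := by positivity
      have h8 : A / R ^ 4 * deriv (deriv (Td (A / R ^ 4))) (φ z) * R ^ 4 ≤ CT * R ^ 4 :=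
        mul_le_mul_of_nonneg_right this hR4.le
      have h9 : A / R ^ 4 * deriv (deriv (Td (A / R ^ 4))) (φ z) * R ^ 4 =
          deriv (deriv (Td (A / R ^ 4))) (φ z) * A := by
        field_simp
      rw [← h9]
      exact h8
    have hgs : gsq φ z ≤ G / (κ * R / 2) ^ 10 := by
      have hp : 0 < (κ * R / 2) ^ 10 := by positivity
      rw [le_div_iff₀ hp]
      calc gsq φ z * (κ * R / 2) ^ 10 ≤ gsq φ z * (1 + ‖z‖) ^ 10 :=
            mul_le_mul_of_nonneg_left (pow_le_pow_left₀ (by positivity) hz 10) (gsq_nonneg _ _)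
        _ = (1 + ‖z‖) ^ 10 * gsq φ z := by ring
        _ ≤ G := hG z
    have hmul : deriv (deriv (Td δ)) (φ z) * gsq φ z ≤ CT * R ^ 4 / A * (G / (κ * R / 2) ^ 10) :=
      mul_le_mul hδT hgs (gsq_nonneg _ _) (by positivity)
    calc R ^ 6 * (deriv (deriv (Td δ)) (φ z) * gsq φ z)
        ≤ R ^ 6 * (CT * R ^ 4 / A * (G / (κ * R / 2) ^ 10)) :=
          mul_le_mul_of_nonneg_left hmul (by positivity)
      _ = CT * G * 2 ^ 10 / (A * κ ^ 10) := by
          field_simp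
      _ ≤ 2 / κ + CT * G * 2 ^ 10 / (A * κ ^ 10) := by linarith
  · intro m c' z hz
    rw [(hτ4 m c' z).1, hin z ?_, one_mul]
    have h3 : 2 / κ * ‖z‖ ≤ R := by
      have h4 : 0 ≤ CT * G * 2 ^ 10 / (A * κ ^ 10) * ‖z‖ := by
        have := hn z
        positivity
      calc 2 / κ * ‖z‖ ≤ 2 / κ * ‖z‖ + CT * G * 2 ^ 10 / (A * κ ^ 10) * ‖z‖ := by linarith
        _ = (2 / κ + CT * G * 2 ^ 10 / (A * κ ^ 10)) * ‖z‖ := by ring
        _ ≤ R := hz
    have h5 : 2 * ‖z‖ ≤ κ * R := by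
      have : κ * (2 / κ * ‖z‖) ≤ κ * R := mul_le_mul_of_nonneg_left h3 hκ0.le
      have h6 : κ * (2 / κ * ‖z‖) = 2 * ‖z‖ := by
        field_simp
      linarith
    linarith

end Pool.Agent.TBK
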