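import Pool.Agent.TBK.Stmts

set_option autoImplicit false

open MeasureTheory Filter Topology
open scoped ContDiff

namespace Pool.Agent.TBK

open Pool.Agent.TBG Pool.Agent.TBL Pool.Agent.TBF Pool.Agent.TBS

namespace HBU_

theorem smooth : ContDiff ℝ ∞ hb := by
  unfold hb
  exact (Real.smoothTransition.contDiff.comp (contDiff_id.add contDiff_const)).sub
    Real.smoothTransition.contDiff

theorem zero (t : ℝ) (ht : 1 ≤ |t|) : hb t = 0 := by
  unfold hb
  rcases le_abs.1 ht with h | h
  · rw [Real.smoothTransition.one_of_one_le h, Real.smoothTransition.one_of_one_le (by linarith)]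
    ring
  · rw [Real.smoothTransition.zero_of_nonpos (by linarith),
      Real.smoothTransition.zero_of_nonpos (by linarith)]
    ring

theorem cpt : HasCompactSupport hb := by
  refine HasCompactSupport.intro (isCompact_Icc (a := (-1 : ℝ)) (b := 1)) fun t ht => ?_
  refine zero t ?_
  by_contra h
  exact ht ⟨by linarith [(abs_lt.1 (not_le.1 h)).1], by linarith [(abs_lt.1 (not_le.1 h)).2]⟩

theorem bounds (t : ℝ) : 0 ≤ hb t ∧ hb t ≤ 1 := by
  unfold hb
  have h1 := Real.smoothTransition.nonneg t
  have h2 := Real.smoothTransition.le_one (t + 1)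
  refine ⟨?_, by linarith⟩
  rcases le_total t 0 with h | h
  · rw [Real.smoothTransition.zero_of_nonpos h]
    linarith [Real.smoothTransition.nonneg (t + 1)]
  · rw [Real.smoothTransition.one_of_one_le (x := t + 1) (by linarith)]
    linarith [Real.smoothTransition.le_one t]

theorem dbound : ∃ C : ℝ, ∀ t, |deriv hb t| ≤ C := by
  have h1 : Continuous (deriv hb) := smooth.continuous_deriv (by simp)
  obtain ⟨C, hC⟩ := cpt.deriv.exists_bound_of_continuous h1
  exact ⟨C, fun t => by simpa [Real.norm_eq_abs] using hC t⟩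

theorem int_one : ∫ t, hb t = 1 := by
  have hS : Continuous Real.smoothTransition := Real.smoothTransition.continuous
  have h1 : ∫ t, hb t = ∫ t in (-1 : ℝ)..1, hb t := by
    rw [intervalIntegral.integral_of_le (by norm_num)]
    refine (setIntegral_eq_integral_of_forall_compl_eq_zero fun t ht => zero t ?_).symm
    by_contra h
    exact ht ⟨by linarith [(abs_lt.1 (not_le.1 h)).1], by linarith [(abs_lt.1 (not_le.1 h)).2]⟩
  have i1 : ∀ a b : ℝ, IntervalIntegrable Real.smoothTransition volume a b :=
    fun a b => hS.intervalIntegrable a b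
  have h2 : ∫ t in (-1 : ℝ)..1, hb t =
      (∫ t in (-1 : ℝ)..1, Real.smoothTransition (t + 1)) -
        ∫ t in (-1 : ℝ)..1, Real.smoothTransition t := by
    unfold hb
    exact intervalIntegral.integral_sub
      ((hS.comp (continuous_id.add continuous_const)).intervalIntegrable _ _) (i1 _ _)
  have h3 : ∫ t in (-1 : ℝ)..1, Real.smoothTransition (t + 1) =
      ∫ t in (0 : ℝ)..2, Real.smoothTransition t := by
    rw [intervalIntegral.integral_comp_add_right (fun t => Real.smoothTransition t) 1]
    norm_num
  have h4 : ∫ t in (0 : ℝ)..2, Real.smoothTransition t =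
      (∫ t in (0 : ℝ)..1, Real.smoothTransition t) + ∫ t in (1 : ℝ)..2, Real.smoothTransition t :=
    (intervalIntegral.integral_add_adjacent_intervals (i1 0 1) (i1 1 2)).symm
  have h5 : ∫ t in (-1 : ℝ)..1, Real.smoothTransition t =
      (∫ t in (-1 : ℝ)..0, Real.smoothTransition t) + ∫ t in (0 : ℝ)..1, Real.smoothTransition t :=
    (intervalIntegral.integral_add_adjacent_intervals (i1 (-1) 0) (i1 0 1)).symm
  have h6 : ∫ t in (1 : ℝ)..2, Real.smoothTransition t = 1 := by
    rw [intervalIntegral.integral_congr (g := fun _ => (1 : ℝ))]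
    · simp
      norm_num
    · intro t ht
      rw [Set.uIcc_of_le (by norm_num)] at ht
      exact Real.smoothTransition.one_of_one_le ht.1
  have h7 : ∫ t in (-1 : ℝ)..0, Real.smoothTransition t = 0 := by
    rw [intervalIntegral.integral_congr (g := fun _ => (0 : ℝ))]
    · simp
    · intro t ht
      rw [Set.uIcc_of_le (by norm_num)] at ht
      exact Real.smoothTransition.zero_of_nonpos ht.2
  rw [h1, h2, h3, h4, h5, h6, h7]
  ring

theorem tele (t : ℝ) (a b : ℕ) (hab : a ≤ b) : ∑ n ∈ Finset.Ico a b, hb (t - n) =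
    Real.smoothTransition (t - a + 1) - Real.smoothTransition (t - b + 1) := by
  induction b, hab using Nat.le_induction with
  | base => simp
  | succ b hb' ih =>
    rw [Finset.sum_Ico_succ_top hb', ih]
    unfold hb
    push_cast
    have e : t - (b + 1 : ℝ) + 1 = t - b := by ring
    rw [e]
    ring

end HBU_

theorem hbu_proof : Stmt_HBU :=
  ⟨HBU_.smooth, HBU_.bounds, HBU_.zero, HBU_.dbound, HBU_.int_one, HBU_.tele⟩

end Pool.Agent.TBK
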