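import Pool.Agent.TBK.Stmts
set_option autoImplicit false
open MeasureTheory Filter Topology Set
open scoped ContDiff
namespace Pool.Agent.TBK
open Pool.Agent.TBG Pool.Agent.TBL Pool.Agent.TBF Pool.Agent.TBS

namespace JIN_

theorem fin3 : Module.finrank ℝ E = 3 := by simp [E]

theorem i5 : Integrable (fun x : E => ((1 + ‖x‖) ^ 5)⁻¹) := by
  have h := integrable_one_add_norm (E := E) (μ := volume) (r := 5) (by rw [fin3]; norm_num)
  refine h.congr (Eventually.of_forall fun x => ?_)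
  have hx : 0 < 1 + ‖x‖ := by positivity
  show (1 + ‖x‖) ^ (-(5:ℝ)) = ((1 + ‖x‖) ^ 5)⁻¹
  rw [Real.rpow_neg hx.le]
  norm_cast

theorem first (A : ℝ) (hA : 1 ≤ A) : Integrable (fun x : E => ((A + ‖x‖) ^ 5)⁻¹) ∧
    ∫ x : E, ((A + ‖x‖) ^ 5)⁻¹ = (A ^ 2)⁻¹ * ∫ x : E, ((1 + ‖x‖) ^ 5)⁻¹ := by
  have hA0 : 0 < A := by linarith
  have e : ∀ x : E, ((A + ‖x‖) ^ 5)⁻¹ = (A ^ 5)⁻¹ * ((1 + ‖A⁻¹ • x‖) ^ 5)⁻¹ := by
    intro x
    rw [norm_smul, Real.norm_of_nonneg (inv_nonneg.mpr hA0.le), ← mul_inv, ← mul_pow]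
    congr 2
    field_simp
  constructor
  · have h := (i5.comp_smul (R := A⁻¹) (inv_ne_zero hA0.ne')).const_mul ((A ^ 5)⁻¹)
    exact h.congr (Eventually.of_forall fun x => (e x).symm)
  · rw [integral_congr_ae (Eventually.of_forall e), integral_const_mul,
      Measure.integral_comp_inv_smul_of_nonneg volume (fun x : E => ((1 + ‖x‖) ^ 5)⁻¹) hA0.le, fin3, smul_eq_mul,
      ← mul_assoc]
    congr 1
    field_simp

theorem der (ρ : ℝ) (x : ℝ) (hx : 0 < ρ + x) : HasDerivAt (fun s => -(ρ + s)⁻¹) (((ρ + x) ^ 2)⁻¹) x := by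
  have h := (((hasDerivAt_id x).const_add ρ).inv hx.ne').neg
  simp only [id] at h
  have e : ((ρ + x) ^ 2)⁻¹ = -(-1 / (ρ + x) ^ 2) := by rw [neg_div, neg_neg, one_div]
  rw [e]
  exact h

theorem lim (ρ : ℝ) : Tendsto (fun s => -(ρ + s)⁻¹) atTop (𝓝 0) := by
  have h := (tendsto_inv_atTop_zero.comp (tendsto_atTop_add_const_left atTop ρ tendsto_id)).neg
  simpa [Function.comp_def] using h

theorem io (ρ : ℝ) (hρ : 1 ≤ ρ) : IntegrableOn (fun s : ℝ => ((ρ + s) ^ 2)⁻¹) (Ioi 0) ∧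
    ∫ s in Ioi (0:ℝ), ((ρ + s) ^ 2)⁻¹ = 1 / ρ := by
  have d : ∀ x ∈ Ici (0:ℝ), HasDerivAt (fun s => -(ρ + s)⁻¹) (((ρ + x) ^ 2)⁻¹) x := by
    intro x hx
    have : (0:ℝ) ≤ x := hx
    exact der ρ x (by linarith)
  have p : ∀ x ∈ Ioi (0:ℝ), 0 ≤ ((ρ + x) ^ 2)⁻¹ := fun x _ => by positivity
  refine ⟨integrableOn_Ioi_deriv_of_nonneg' d p (lim ρ), ?_⟩
  rw [integral_Ioi_of_hasDerivAt_of_nonneg' d p (lim ρ)]
  simp

theorem second (ρ : ℝ) (hρ : 1 ≤ ρ) : Integrable (fun x : E => ((ρ + ‖x‖) ^ 2)⁻¹ * ((1 + ‖x‖) ^ 2)⁻¹) ∧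
    ∫ x : E, ((ρ + ‖x‖) ^ 2)⁻¹ * ((1 + ‖x‖) ^ 2)⁻¹ ≤ (3 * (volume : Measure E).real (Metric.ball 0 1)) / ρ := by
  have hρ0 : 0 < ρ := by linarith
  set f : ℝ → ℝ := fun s => ((ρ + s) ^ 2)⁻¹ * ((1 + s) ^ 2)⁻¹ with hf
  have hle : ∀ s ∈ Ioi (0:ℝ), s ^ 2 * f s ≤ ((ρ + s) ^ 2)⁻¹ := by
    intro s hs
    have hs0 : (0:ℝ) < s := hs
    have h1 : s ^ 2 * ((1 + s) ^ 2)⁻¹ ≤ 1 := by
      rw [← div_eq_mul_inv, div_le_one (by positivity)]
      nlinarith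
    calc s ^ 2 * f s = ((ρ + s) ^ 2)⁻¹ * (s ^ 2 * ((1 + s) ^ 2)⁻¹) := by rw [hf]; ring
      _ ≤ ((ρ + s) ^ 2)⁻¹ * 1 := mul_le_mul_of_nonneg_left h1 (by positivity)
      _ = _ := mul_one _
  have hnn : ∀ s ∈ Ioi (0:ℝ), 0 ≤ s ^ 2 * f s := by
    intro s hs
    rw [hf]; positivity
  have hI : IntegrableOn (fun s : ℝ => s ^ 2 * f s) (Ioi 0) := by
    refine (io ρ hρ).1.mono' ?_ ?_
    · refine ContinuousOn.aestronglyMeasurable ?_ measurableSet_Ioi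
      intro s hs
      have hs0 : (0:ℝ) < s := hs
      refine ContinuousAt.continuousWithinAt ?_
      rw [hf]
      have a1 : (ρ + s) ^ 2 ≠ 0 := by positivity
      have a2 : (1 + s) ^ 2 ≠ 0 := by positivity
      fun_prop (disch := assumption)
    · refine (ae_restrict_iff' measurableSet_Ioi).mpr (Eventually.of_forall fun s hs => ?_)
      rw [Real.norm_of_nonneg (hnn s hs)]
      exact hle s hs
  constructor
  · have h := (integrable_fun_norm_addHaar (E := E) (μ := volume) (f := f)).mpr (by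
      rw [fin3]; simpa [smul_eq_mul] using hI)
    exact h
  · have h := integral_fun_norm_addHaar (E := E) (volume : Measure E) f
    have h2 : ∫ x : E, ((ρ + ‖x‖) ^ 2)⁻¹ * ((1 + ‖x‖) ^ 2)⁻¹ = ∫ x : E, f ‖x‖ := rfl
    rw [h2, h, fin3]
    have h3 : ∫ y in Ioi (0 : ℝ), y ^ (3 - 1) • f y ≤ 1 / ρ := by
      rw [← (io ρ hρ).2]
      refine setIntegral_mono_on ?_ (io ρ hρ).1 measurableSet_Ioi ?_
      · simpa [smul_eq_mul] using hI
      · intro s hs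
        simpa [smul_eq_mul] using hle s hs
    have h4 : 0 ≤ (volume : Measure E).real (Metric.ball 0 1) := measureReal_nonneg
    calc (3:ℕ) • (volume : Measure E).real (Metric.ball 0 1) • ∫ y in Ioi (0 : ℝ), y ^ (3 - 1) • f y
        = (3 * (volume : Measure E).real (Metric.ball 0 1)) * ∫ y in Ioi (0 : ℝ), y ^ (3 - 1) • f y := by
          simp only [nsmul_eq_mul, smul_eq_mul]; push_cast; ring
      _ ≤ (3 * (volume : Measure E).real (Metric.ball 0 1)) * (1 / ρ) := mul_le_mul_of_nonneg_left h3 (by positivity)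
      _ = _ := by ring

end JIN_

theorem jin_proof : Stmt_JIN := by
  set I := ∫ x : E, ((1 + ‖x‖) ^ 5)⁻¹ with hI
  have hI0 : 0 ≤ I := integral_nonneg fun x => by positivity
  set V := 3 * (volume : Measure E).real (Metric.ball 0 1) with hV
  have hV0 : 0 ≤ V := by rw [hV]; have := measureReal_nonneg (μ := (volume : Measure E)) (s := Metric.ball 0 1); positivity
  refine ⟨I + V + 1, by positivity, fun A hA => ⟨(JIN_.first A hA).1, ?_⟩, fun ρ hρ => ⟨(JIN_.second ρ hρ).1, ?_⟩⟩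
  · rw [(JIN_.first A hA).2, mul_comm]
    refine mul_le_mul_of_nonneg_right ?_ (by positivity)
    linarith
  · refine (JIN_.second ρ hρ).2.trans ?_
    have hρ0 : 0 < ρ := by linarith
    gcongr
    linarith

end Pool.Agent.TBK
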