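import Pool.Agent.TBK.Stmts

/-!
# K4M: masses of the kernels of the four-body terms
-/

set_option autoImplicit false

open MeasureTheory Filter Topology
open scoped ContDiff

namespace Pool.Agent.TBK

open Pool.Agent.TBG Pool.Agent.TBL Pool.Agent.TBF Pool.Agent.TBS

theorem k4m_proof (hKM1 : Stmt_KM1) (hKM2 : Stmt_KM2) (hKM3 : Stmt_KM3) :
    Pool.Agent.TBS.Stmt_K4M := by
  intro C φ y hφ hy _
  obtain ⟨c1, hc1, h1⟩ := hKM1 C
  obtain ⟨c2, hc2, h2⟩ := hKM2 C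
  obtain ⟨c3, hc3, h3a, h3b⟩ := hKM3 φ y hφ hy
  refine ⟨c1 + c2 + c3, by positivity, ?_⟩
  intro R l τ g Y g₄ hR hRl hT hD K hK
  have hl : 1 ≤ l := hR.trans hRl
  have key : ∀ (b ρ S : ℝ), K4P b ρ S K → 0 < b → b ≤ c1 + c2 + c3 → 0 ≤ S → S ≤ R →
      (ρ ≤ c1 + c2 + c3 + R ∨ ρ ≤ l) →
      BM K ∧ (∀ q, 0 ≤ K q) ∧ (∀ q, K q ≠ 0 → ‖q‖ ≤ c1 + c2 + c3 + R ∨ ‖q‖ ≤ l) ∧
        ∫ q, K q ≤ c1 + c2 + c3 ∧ ∫ q, K q * ‖q‖ ^ 2 ≤ (c1 + c2 + c3) * R := by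
    intro b ρ S hP hb0 hb hS0 hS hρ
    refine ⟨hP.bm, hP.nn, fun q hq => ?_, hP.mass.trans hb, ?_⟩
    · rcases hρ with h | h
      · exact Or.inl ((hP.sp q hq).trans h)
      · exact Or.inr ((hP.sp q hq).trans h)
    · exact hP.sec.trans (mul_le_mul hb hS hS0 (by positivity))
  have hq1 := h1 φ R τ g hR hT
  obtain ⟨hq2, hq3⟩ := h2 φ y l Y g₄ hl hD
  have hq4 := hq3 τ hT.smooth hT.dec1
  rcases hK with h | h | h | h | h
  · rw [← h] at hq1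
    exact key c1 R R hq1 hc1 (by linarith) (by linarith) le_rfl (Or.inl (by linarith))
  · rw [← h] at hq4
    exact key c2 l 1 hq4 hc2 (by linarith) zero_le_one hR (Or.inr le_rfl)
  · rw [← h] at hq2
    exact key c2 l 1 hq2 hc2 (by linarith) zero_le_one hR (Or.inr le_rfl)
  · rw [← h] at h3a
    exact key c3 c3 1 h3a hc3 (by linarith) zero_le_one hR (Or.inl (by linarith))
  · rw [← h] at h3b
    exact key c3 c3 1 h3b hc3 (by linarith) zero_le_one hR (Or.inl (by linarith))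

end Pool.Agent.TBK
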