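import Pool.Agent.TBK.Stmts

/-!
# Squad TBK, module KDI: replacing `φ` by `τ` in the four-body kernel
-/

set_option autoImplicit false

open MeasureTheory Filter Topology
open scoped ContDiff

namespace Pool.Agent.TBK

open Pool.Agent.TBG Pool.Agent.TBL Pool.Agent.TBF Pool.Agent.TBS

namespace KDI_

lemma pm3 (q : W4) : pm 3 q = (q.1, q.2.1) := by
  have h0 : (3 : Fin 4).succAbove 0 = 0 := by decide
  have h1 : (3 : Fin 4).succAbove 1 = 1 := by decide
  have h2 : (3 : Fin 4).succAbove 2 = 2 := by decide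
  unfold pm cf
  rw [h0, h1, h2]
  simp

/-- the first part of the difference -/
noncomputable def FA (φ τ : E × E → ℝ) (q : W4) : ℝ :=
  ∑ c, (dv (dr 0 c) τ (q.1, q.2.1) * dv (dr 0 c) τ (q.1, q.2.2) -
    dv (dr 0 c) φ (q.1, q.2.1) * dv (dr 0 c) φ (q.1, q.2.2))

/-- the second part of the difference -/
noncomputable def FB (φ τ : E × E → ℝ) (Y : Fin 4 → Fin 3 → W4 → ℝ) (q : W4) : ℝ :=
  ∑ c, (dv (dr 0 c) τ (q.1, q.2.1) - dv (dr 0 c) φ (q.1, q.2.1)) * Y 0 c q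

lemma diff_eq (φ τ : E × E → ℝ) (y : W4 → ℝ) (Y : Fin 4 → Fin 3 → W4 → ℝ) (q : W4) :
    k4 φ τ y Y q - k4 φ φ y Y q = FA φ τ q - FB φ τ Y q := by
  unfold k4 FA FB
  simp only [Fin.sum_univ_three]
  ring

lemma dv_cont {u : E × E → ℝ} (hu : ContDiff ℝ ∞ u) (v : E × E) : Continuous (fun z => dv v u z) := by
  unfold dv
  exact (hu.continuous_fderiv (by simp)).clm_apply continuous_const

lemma FA_cont {φ τ : E × E → ℝ} (hφ : ContDiff ℝ ∞ φ) (hτ : ContDiff ℝ ∞ τ) :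
    Continuous (FA φ τ) := by
  unfold FA
  have e1 : Continuous (fun q : W4 => ((q.1, q.2.1) : E × E)) := by fun_prop
  have e2 : Continuous (fun q : W4 => ((q.1, q.2.2) : E × E)) := by fun_prop
  refine continuous_finset_sum _ (fun c _ => ?_)
  exact (((dv_cont hτ _).comp e1).mul ((dv_cont hτ _).comp e2)).sub
    (((dv_cont hφ _).comp e1).mul ((dv_cont hφ _).comp e2))

lemma FB_cont {φ τ : E × E → ℝ} (hφ : ContDiff ℝ ∞ φ) (hτ : ContDiff ℝ ∞ τ)
    {Y : Fin 4 → Fin 3 → W4 → ℝ} (hY : ∀ c, Continuous (Y 0 c)) : Continuous (FB φ τ Y) := by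
  unfold FB
  have e1 : Continuous (fun q : W4 => ((q.1, q.2.1) : E × E)) := by fun_prop
  refine continuous_finset_sum _ (fun c _ => ?_)
  exact (((dv_cont hτ _).comp e1).sub ((dv_cont hφ _).comp e1)).mul (hY c)

lemma le_inv {a b K : ℝ} (ha : 0 < a) (h : a * b ≤ K) : b ≤ K * a⁻¹ := by
  rw [← div_eq_mul_inv, le_div_iff₀ ha]
  linarith

end KDI_

open KDI_ in
theorem kdi_proof (_hRLP : Pool.Agent.TBF.Stmt_RLP) (hINW : Pool.Agent.TBF.Stmt_INW)
    (hSCB : Pool.Agent.TBF.Stmt_SCB) (hTAI : Stmt_TAI) (_hKM2 : Stmt_KM2) (_hKM3 : Stmt_KM3) :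
    Stmt_KDI := by
  intro C φ y hφ hy
  obtain ⟨D, hD0, _, hDφ, _⟩ := hSCB φ hφ
  obtain ⟨c₀, hc0, hT⟩ := hTAI
  have hWint := hINW 3 8 4 (by norm_num) (by norm_num)
  set W : W4 → ℝ := fun p : W4 => ((1 + ‖p‖) ^ 8)⁻¹ * ((1 + ‖pm 3 p‖) ^ 4)⁻¹ with hW
  have hW0 : ∀ p, 0 ≤ W p := fun p => by
    rw [hW]
    positivity
  set J := ∫ p, W p with hJ
  have hJ0 : 0 ≤ J := integral_nonneg hW0
  set K := |C| + 1 with hK
  have hK0 : 0 < K := by positivity
  have hCK : C ≤ K := by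
    have := le_abs_self C
    rw [hK]
    linarith
  set B := 3 * (K ^ 2 + D ^ 2) with hB
  have hB0 : 0 < B := by positivity
  refine ⟨B * (c₀ * K) + 3 * ((K + D) * K) * K * J, by positivity, ?_⟩
  intro R l τ g Y g₄ hR hRl hτ hY
  have hR0 : 0 < R := by linarith
  -- bounds of the derivatives
  have hdτ : ∀ c z, |dv (dr 0 c) τ z| ≤ K * ((1 + ‖z‖) ^ 5)⁻¹ := by
    intro c z
    have hp : 0 < (1 + ‖z‖) ^ 5 := by positivity
    exact le_inv hp ((hτ.dec1 0 c z).trans hCK)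
  have hdφ : ∀ c z, |dv (dr 0 c) φ z| ≤ D * ((1 + ‖z‖) ^ 5)⁻¹ := fun c z => hDφ 0 c z
  have hYb : ∀ c q, |Y 0 c q| ≤ K * ((1 + ‖q‖) ^ 8)⁻¹ := by
    intro c q
    have hp : 0 < (1 + ‖q‖) ^ 8 := by positivity
    exact le_inv hp ((hY.bdY 0 c q).trans hCK)
  have hcl : ∀ c z, K * ‖z‖ ≤ R → dv (dr 0 c) τ z = dv (dr 0 c) φ z := by
    intro c z hz
    refine hτ.cl 0 c z (le_trans ?_ hz)
    exact mul_le_mul_of_nonneg_right hCK (norm_nonneg _)
  -- first part
  have h1b : ∀ q, |FA φ τ q| ≤ B * G5 q := by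
    intro q
    set a := ((1 + ‖((q.1, q.2.1) : E × E)‖) ^ 5)⁻¹ with ha
    set b := ((1 + ‖((q.1, q.2.2) : E × E)‖) ^ 5)⁻¹ with hb
    have ha0 : 0 ≤ a := by rw [ha]; positivity
    have hb0 : 0 ≤ b := by rw [hb]; positivity
    have hG : G5 q = a * b := rfl
    have hc : ∀ c : Fin 3, |dv (dr 0 c) τ (q.1, q.2.1) * dv (dr 0 c) τ (q.1, q.2.2) -
        dv (dr 0 c) φ (q.1, q.2.1) * dv (dr 0 c) φ (q.1, q.2.2)| ≤ (K ^ 2 + D ^ 2) * (a * b) := by
      intro c
      refine (abs_sub _ _).trans ?_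
      rw [abs_mul, abs_mul]
      have e1 : |dv (dr 0 c) τ (q.1, q.2.1)| * |dv (dr 0 c) τ (q.1, q.2.2)| ≤ (K * a) * (K * b) :=
        mul_le_mul (hdτ c _) (hdτ c _) (abs_nonneg _) (mul_nonneg hK0.le ha0)
      have e2 : |dv (dr 0 c) φ (q.1, q.2.1)| * |dv (dr 0 c) φ (q.1, q.2.2)| ≤ (D * a) * (D * b) :=
        mul_le_mul (hdφ c _) (hdφ c _) (abs_nonneg _) (mul_nonneg hD0.le ha0)
      nlinarith [e1, e2]
    unfold FA
    refine (Finset.abs_sum_le_sum_abs _ _).trans ?_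
    refine (Finset.sum_le_sum (fun c _ => hc c)).trans (le_of_eq ?_)
    rw [Finset.sum_const, Finset.card_univ, Fintype.card_fin, nsmul_eq_mul, hG, hB]
    push_cast
    ring
  have h1s : ∀ q, FA φ τ q ≠ 0 → max 1 (R / K) ≤ 1 + ‖((q.1, q.2.1) : E × E)‖ ∨
      max 1 (R / K) ≤ 1 + ‖((q.1, q.2.2) : E × E)‖ := by
    intro q hq
    by_contra hcon
    rw [not_or, not_le, not_le] at hcon
    apply hq
    have aux : ∀ z : E × E, 1 + ‖z‖ < max 1 (R / K) → K * ‖z‖ ≤ R := by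
      intro z hz
      rcases lt_max_iff.mp hz with h | h
      · have := norm_nonneg z
        linarith
      · rw [lt_div_iff₀ hK0] at h
        nlinarith [norm_nonneg z]
    unfold FA
    refine Finset.sum_eq_zero (fun c _ => ?_)
    rw [hcl c _ (aux _ hcon.1), hcl c _ (aux _ hcon.2), sub_self]
  have h1m : Continuous (FA φ τ) := FA_cont hφ.smooth hτ.smooth
  obtain ⟨hi1, hv1⟩ := hT (max 1 (R / K)) (le_max_left _ _) (fun q => B⁻¹ * FA φ τ q)
    (h1m.measurable.const_mul _) (fun q => by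
      rw [abs_mul, abs_of_pos (inv_pos.mpr hB0), inv_mul_le_iff₀ hB0]
      exact h1b q) (fun q hq => h1s q (right_ne_zero_of_mul hq))
  have hi1' : Integrable (FA φ τ) := by
    have h := hi1.const_mul B
    refine h.congr (Filter.Eventually.of_forall (fun q => ?_))
    show B * (B⁻¹ * FA φ τ q) = FA φ τ q
    rw [← mul_assoc, mul_inv_cancel₀ hB0.ne', one_mul]
  have hv1' : ∫ q, |FA φ τ q| ≤ B * (c₀ * K) / R := by
    have e : ∀ q, |B⁻¹ * FA φ τ q| = B⁻¹ * |FA φ τ q| := fun q => by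
      rw [abs_mul, abs_of_pos (inv_pos.mpr hB0)]
    simp_rw [e] at hv1
    rw [integral_const_mul, inv_mul_le_iff₀ hB0] at hv1
    refine hv1.trans ?_
    have hρ : c₀ / max 1 (R / K) ≤ c₀ * K / R := by
      have hρ1 : R / K ≤ max 1 (R / K) := le_max_right _ _
      have hRK : 0 < R / K := by positivity
      calc c₀ / max 1 (R / K) ≤ c₀ / (R / K) :=
            div_le_div_of_nonneg_left hc0.le hRK hρ1
        _ = c₀ * K / R := by field_simp
    calc B * (c₀ / max 1 (R / K)) ≤ B * (c₀ * K / R) := mul_le_mul_of_nonneg_left hρ hB0.le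
      _ = B * (c₀ * K) / R := by ring
  -- second part
  have h2b : ∀ q, |FB φ τ Y q| ≤ 3 * ((K + D) * K) * (K / R) * W q := by
    intro q
    set z : E × E := (q.1, q.2.1) with hz
    have hWq : W q = ((1 + ‖q‖) ^ 8)⁻¹ * ((1 + ‖z‖) ^ 4)⁻¹ := by
      rw [hW]
      show ((1 + ‖q‖) ^ 8)⁻¹ * ((1 + ‖pm 3 q‖) ^ 4)⁻¹ = _
      rw [pm3 q]
    have h1z : 0 < 1 + ‖z‖ := by positivity
    have hc : ∀ c : Fin 3, |(dv (dr 0 c) τ z - dv (dr 0 c) φ z) * Y 0 c q| ≤
        ((K + D) * K) * (K / R) * W q := by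
      intro c
      by_cases h : K * ‖z‖ ≤ R
      · rw [hcl c z h, sub_self, zero_mul, abs_zero]
        have := hW0 q
        positivity
      · rw [not_le] at h
        rw [abs_mul]
        have e1 : |dv (dr 0 c) τ z - dv (dr 0 c) φ z| ≤ (K + D) * ((1 + ‖z‖) ^ 5)⁻¹ := by
          refine (abs_sub _ _).trans ?_
          have a1 := hdτ c z
          have a2 := hdφ c z
          linarith
        have e2 : ((1 + ‖z‖) ^ 5)⁻¹ ≤ (K / R) * ((1 + ‖z‖) ^ 4)⁻¹ := by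
          have hpow : ((1 + ‖z‖) ^ 5)⁻¹ = (1 + ‖z‖)⁻¹ * ((1 + ‖z‖) ^ 4)⁻¹ := by
            rw [← mul_inv]
            congr 1
            ring
          rw [hpow]
          refine mul_le_mul_of_nonneg_right ?_ (by positivity)
          rw [inv_eq_one_div, div_le_div_iff₀ h1z hR0]
          nlinarith [norm_nonneg z]
        have e3 : |dv (dr 0 c) τ z - dv (dr 0 c) φ z| ≤ (K + D) * ((K / R) * ((1 + ‖z‖) ^ 4)⁻¹) :=
          e1.trans (mul_le_mul_of_nonneg_left e2 (by positivity))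
        have e4 := mul_le_mul e3 (hYb c q) (abs_nonneg _) (by positivity)
        refine e4.trans (le_of_eq ?_)
        rw [hWq]
        ring
    unfold FB
    refine (Finset.abs_sum_le_sum_abs _ _).trans ?_
    refine (Finset.sum_le_sum (fun c _ => hc c)).trans (le_of_eq ?_)
    rw [Finset.sum_const, Finset.card_univ, Fintype.card_fin, nsmul_eq_mul]
    push_cast
    ring
  have h2m : Continuous (FB φ τ Y) :=
    FB_cont hφ.smooth hτ.smooth (fun c => (hY.smY 0 c).continuous)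
  have hi2 : Integrable (FB φ τ Y) := by
    refine Integrable.mono' (hWint.const_mul (3 * ((K + D) * K) * (K / R)))
      h2m.aestronglyMeasurable (Filter.Eventually.of_forall (fun q => ?_))
    rw [Real.norm_eq_abs]
    exact h2b q
  have hv2 : ∫ q, |FB φ τ Y q| ≤ 3 * ((K + D) * K) * K * J / R := by
    calc ∫ q, |FB φ τ Y q| ≤ ∫ q, 3 * ((K + D) * K) * (K / R) * W q :=
          integral_mono hi2.abs (hWint.const_mul _) h2b
      _ = 3 * ((K + D) * K) * (K / R) * J := by rw [integral_const_mul]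
      _ = _ := by ring
  -- conclusion
  have hEq : (fun q => k4 φ τ y Y q - k4 φ φ y Y q) = fun q => FA φ τ q - FB φ τ Y q := by
    funext q
    exact diff_eq φ τ y Y q
  refine ⟨by rw [hEq]; exact hi1'.sub hi2, ?_⟩
  have hEq2 : (fun q => |k4 φ τ y Y q - k4 φ φ y Y q|) = fun q => |FA φ τ q - FB φ τ Y q| := by
    funext q
    rw [diff_eq φ τ y Y q]
  rw [hEq2]
  calc ∫ q, |FA φ τ q - FB φ τ Y q| ≤ ∫ q, (|FA φ τ q| + |FB φ τ Y q|) :=
        integral_mono (hi1'.sub hi2).abs (hi1'.abs.add hi2.abs) (fun q => abs_sub _ _)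
    _ = (∫ q, |FA φ τ q|) + ∫ q, |FB φ τ Y q| := integral_add hi1'.abs hi2.abs
    _ ≤ B * (c₀ * K) / R + 3 * ((K + D) * K) * K * J / R := add_le_add hv1' hv2
    _ = (B * (c₀ * K) + 3 * ((K + D) * K) * K * J) / R := by ring

end Pool.Agent.TBK
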