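import Pool.Agent.TBK.Stmts

set_option autoImplicit false

open MeasureTheory Filter Topology
open scoped ContDiff

namespace Pool.Agent.TBK

open Pool.Agent.TBG Pool.Agent.TBL Pool.Agent.TBF Pool.Agent.TBS

namespace KM1_

theorem dv_zero {C R : ℝ} {φ τ g : E × E → ℝ} (hT : Tri C R φ τ g) (v z : E × E) (hz : R < ‖z‖) :
    dv v τ z = 0 := by
  have hev : τ =ᶠ[𝓝 z] fun _ => (0 : ℝ) := by
    have : IsOpen {z : E × E | R < ‖z‖} := isOpen_lt continuous_const continuous_norm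
    filter_upwards [this.mem_nhds hz] with w hw
    exact hT.sp w hw
  unfold dv
  rw [hev.fderiv_eq]
  simp

theorem dv_cont {C R : ℝ} {φ τ g : E × E → ℝ} (hT : Tri C R φ τ g) (v : E × E) :
    Continuous (fun z => dv v τ z) := by
  have h1 : Continuous (fderiv ℝ τ) := hT.smooth.continuous_fderiv (by simp)
  exact h1.clm_apply continuous_const

theorem dv_bd {C R : ℝ} {φ τ g : E × E → ℝ} (hT : Tri C R φ τ g) (m c : Fin 3) (z : E × E) :
    |dv (dr m c) τ z| ≤ C * ((1 + ‖z‖) ^ 5)⁻¹ := by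
  have h := hT.dec1 m c z
  have h0 : 0 < (1 + ‖z‖) ^ 5 := by positivity
  rw [← div_eq_mul_inv, le_div_iff₀ h0]
  linarith [mul_comm ((1 + ‖z‖) ^ 5) |dv (dr m c) τ z|]

theorem G5_nn (q : W4) : 0 ≤ G5 q := by unfold G5; positivity

theorem G5_le (q : W4) : G5 q ≤ 1 := by
  unfold G5
  have h1 : ((1 + ‖(q.1, q.2.1)‖) ^ 5)⁻¹ ≤ 1 := by
    apply inv_le_one_of_one_le₀
    apply one_le_pow₀
    linarith [norm_nonneg (q.1, q.2.1)]
  have h2 : ((1 + ‖(q.1, q.2.2)‖) ^ 5)⁻¹ ≤ 1 := by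
    apply inv_le_one_of_one_le₀
    apply one_le_pow₀
    linarith [norm_nonneg (q.1, q.2.2)]
  have h3 : 0 ≤ ((1 + ‖(q.1, q.2.2)‖) ^ 5)⁻¹ := by positivity
  calc ((1 + ‖(q.1, q.2.1)‖) ^ 5)⁻¹ * ((1 + ‖(q.1, q.2.2)‖) ^ 5)⁻¹
      ≤ 1 * ((1 + ‖(q.1, q.2.2)‖) ^ 5)⁻¹ := mul_le_mul_of_nonneg_right h1 h3
    _ ≤ 1 := by rw [one_mul]; exact h2

end KM1_

open KM1_

theorem km1_proof (hTAI : Stmt_TAI) (hWEI : Stmt_WEI) : Stmt_KM1 := by
  obtain ⟨c, hc, hT⟩ := hTAI
  obtain ⟨c', hc', hW⟩ := hWEI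
  intro C
  refine ⟨(3 * C ^ 2 + 1) * (c + c'), by positivity, ?_⟩
  intro φ R τ g hR hTri
  set K : W4 → ℝ := fun q => ∑ c, |dv (dr 0 c) τ (q.1, q.2.1)| * |dv (dr 0 c) τ (q.1, q.2.2)| with hK
  have hA : (0 : ℝ) < 3 * C ^ 2 + 1 := by positivity
  have hKnn : ∀ q, 0 ≤ K q := fun q => Finset.sum_nonneg (fun c _ => by positivity)
  have hKle : ∀ q, K q ≤ 3 * C ^ 2 * G5 q := by
    intro q
    have hterm : ∀ c : Fin 3, |dv (dr 0 c) τ (q.1, q.2.1)| * |dv (dr 0 c) τ (q.1, q.2.2)| ≤ C ^ 2 * G5 q := by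
      intro c
      have h1 := dv_bd hTri 0 c (q.1, q.2.1)
      have h2 := dv_bd hTri 0 c (q.1, q.2.2)
      have := mul_le_mul h1 h2 (abs_nonneg _) (le_trans (abs_nonneg _) h1)
      refine this.trans (le_of_eq ?_)
      unfold G5
      ring
    calc K q ≤ ∑ _c : Fin 3, C ^ 2 * G5 q := Finset.sum_le_sum (fun c _ => hterm c)
      _ = 3 * C ^ 2 * G5 q := by simp; ring
  have hKc : Continuous K := by
    apply continuous_finsetSum
    intro c _
    have h1 := dv_cont hTri (dr 0 c)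
    exact ((h1.comp (by fun_prop : Continuous (fun q : W4 => (q.1, q.2.1)))).abs).mul
      ((h1.comp (by fun_prop : Continuous (fun q : W4 => (q.1, q.2.2)))).abs)
  have hKsp : ∀ q, K q ≠ 0 → ‖q‖ ≤ R := by
    intro q hq
    by_contra hcon
    push Not at hcon
    apply hq
    apply Finset.sum_eq_zero
    intro c _
    by_cases h1 : R < ‖(q.1, q.2.1)‖
    · rw [dv_zero hTri _ _ h1]; simp
    · by_cases h2 : R < ‖(q.1, q.2.2)‖
      · rw [dv_zero hTri (dr 0 c) (q.1, q.2.2) h2]; simp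
      · exfalso
        push Not at h1 h2
        rw [Prod.norm_def] at h1 h2
        have h3 : ‖q‖ ≤ R := by
          rw [Prod.norm_def, Prod.norm_def]
          simp only [sup_le_iff] at h1 h2 ⊢
          exact ⟨h1.1, h1.2, h2.2⟩
        linarith
  -- normalised kernel
  set F : W4 → ℝ := fun q => K q / (3 * C ^ 2 + 1) with hF
  have hFnn : ∀ q, 0 ≤ F q := fun q => div_nonneg (hKnn q) hA.le
  have hFm : Measurable F := (hKc.div_const _).measurable
  have hFle : ∀ q, |F q| ≤ G5 q := by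
    intro q
    rw [abs_of_nonneg (hFnn q)]
    rw [hF]
    simp only
    rw [div_le_iff₀ hA]
    have h1 := hKle q
    have h2 := G5_nn q
    nlinarith
  have hKF : ∀ q, K q = (3 * C ^ 2 + 1) * F q := by
    intro q
    rw [hF]; simp only; field_simp
  obtain ⟨hFi, hFb⟩ := hT 1 le_rfl F hFm hFle (fun q _ => Or.inl (by linarith [norm_nonneg (q.1, q.2.1)]))
  have hFw := hW R hR F hFm hFle (fun q hq => hKsp q (fun h0 => hq (by rw [hF]; simp only; rw [h0]; simp)))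
  have hKint : Integrable K := by
    have := hFi.const_mul (3 * C ^ 2 + 1)
    refine this.congr (Filter.Eventually.of_forall (fun q => (hKF q).symm))
  refine ⟨⟨hKc.measurable, 3 * C ^ 2, ?_⟩, hKnn, hKsp, hKint, ?_, ?_⟩
  · intro q
    rw [abs_of_nonneg (hKnn q)]
    refine (hKle q).trans ?_
    have := G5_le q
    nlinarith [sq_nonneg C]
  · have h1 : ∫ q, K q = (3 * C ^ 2 + 1) * ∫ q, |F q| := by
      rw [← integral_const_mul]
      congr 1
      ext q
      rw [abs_of_nonneg (hFnn q)]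
      exact hKF q
    rw [h1]
    apply mul_le_mul_of_nonneg_left _ hA.le
    rw [div_one] at hFb
    linarith
  · have h1 : ∫ q, K q * ‖q‖ ^ 2 = (3 * C ^ 2 + 1) * ∫ q, |F q| * ‖q‖ ^ 2 := by
      rw [← integral_const_mul]
      congr 1
      ext q
      rw [abs_of_nonneg (hFnn q), hKF q]
      ring
    rw [h1, mul_assoc]
    apply mul_le_mul_of_nonneg_left _ hA.le
    refine hFw.trans ?_
    apply mul_le_mul_of_nonneg_right _ (by linarith)
    linarith

end Pool.Agent.TBK
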