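import Pool.Agent.TBK.Stmts

set_option autoImplicit false

open MeasureTheory Filter Topology
open scoped ContDiff

namespace Pool.Agent.TBK

open Pool.Agent.TBG Pool.Agent.TBL Pool.Agent.TBF Pool.Agent.TBS

namespace KM2_

/-- A continuous nonnegative function with a dominated weight is a kernel. -/
theorem k4p {l A : ℝ} {K W : W4 → ℝ} (hc : Continuous K) (h0 : ∀ q, 0 ≤ K q)
    (hsp : ∀ q, l < ‖q‖ → K q = 0) (hW : Integrable W)
    (hb : ∀ q, K q * (1 + ‖q‖) ^ 2 ≤ A * W q) {B C₁ : ℝ}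
    (hB : ∀ q, K q ≤ B) (h1 : A * (∫ q, W q) ≤ C₁) : K4P C₁ l 1 K := by
  have hn : ∀ q : W4, (0 : ℝ) ≤ ‖q‖ := fun q => norm_nonneg q
  have hk1 : ∀ q, K q ≤ A * W q := fun q => by
    refine le_trans ?_ (hb q)
    have : (1 : ℝ) ≤ (1 + ‖q‖) ^ 2 := one_le_pow₀ (by linarith [hn q])
    nlinarith [h0 q]
  have hk2 : ∀ q, K q * ‖q‖ ^ 2 ≤ A * W q := fun q => by
    refine le_trans ?_ (hb q)
    have : ‖q‖ ^ 2 ≤ (1 + ‖q‖) ^ 2 := pow_le_pow_left₀ (hn q) (by linarith) 2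
    exact mul_le_mul_of_nonneg_left this (h0 q)
  have hAW : Integrable (fun q => A * W q) := hW.const_mul A
  have hi1 : Integrable K := by
    refine hAW.mono' hc.aestronglyMeasurable (Filter.Eventually.of_forall fun q => ?_)
    rw [Real.norm_of_nonneg (h0 q)]
    exact hk1 q
  have hi2 : Integrable (fun q => K q * ‖q‖ ^ 2) := by
    refine hAW.mono' (hc.mul (continuous_norm.pow 2)).aestronglyMeasurable
      (Filter.Eventually.of_forall fun q => ?_)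
    rw [Real.norm_of_nonneg (mul_nonneg (h0 q) (by positivity))]
    exact hk2 q
  have hAI : ∫ q, A * W q = A * ∫ q, W q := integral_const_mul A W
  refine ⟨⟨hc.measurable, B, fun q => ?_⟩, h0, fun q hq => ?_, hi1, ?_, ?_⟩
  · rw [abs_of_nonneg (h0 q)]
    exact hB q
  · by_contra hlt
    exact hq (hsp q (not_le.1 hlt))
  · calc ∫ q, K q ≤ ∫ q, A * W q := integral_mono hi1 hAW hk1
      _ = A * ∫ q, W q := hAI
      _ ≤ C₁ := h1
  · calc ∫ q, K q * ‖q‖ ^ 2 ≤ ∫ q, A * W q := integral_mono hi2 hAW hk2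
      _ = A * ∫ q, W q := hAI
      _ ≤ C₁ * 1 := by rw [mul_one]; exact h1

theorem pm3 (q : W4) : pm 3 q = (q.1, q.2.1) := by
  have h0 : (3 : Fin 4).succAbove 0 = 0 := by decide
  have h1 : (3 : Fin 4).succAbove 1 = 1 := by decide
  have h2 : (3 : Fin 4).succAbove 2 = 2 := by decide
  simp only [pm, h0, h1, h2, cf]
  simp

/-- `a ≤ C / X` squared. -/
theorem le_div {a X C : ℝ} (hX : 0 < X) (h : X * a ≤ C) : a ≤ C * X⁻¹ := by
  rw [← div_eq_mul_inv, le_div_iff₀ hX]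
  linarith [mul_comm X a]

end KM2_

open KM2_ in
theorem km2_proof (_hRLP : Pool.Agent.TBF.Stmt_RLP) (hINW : Pool.Agent.TBF.Stmt_INW) : Stmt_KM2 := by
  intro C
  have hW1 := hINW 3 14 0 (by norm_num) (by norm_num)
  have hW2 := hINW 3 6 5 (by norm_num) (by norm_num)
  set W1 : W4 → ℝ := fun p => ((1 + ‖p‖) ^ 14)⁻¹ * ((1 + ‖pm 3 p‖) ^ 0)⁻¹ with hW1d
  set W2 : W4 → ℝ := fun p => ((1 + ‖p‖) ^ 6)⁻¹ * ((1 + ‖pm 3 p‖) ^ 5)⁻¹ with hW2d
  have hW10 : ∀ q, 0 ≤ W1 q := fun q => by simp only [hW1d]; positivity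
  have hW20 : ∀ q, 0 ≤ W2 q := fun q => by simp only [hW2d]; positivity
  have hI1 : 0 ≤ ∫ q, W1 q := integral_nonneg hW10
  have hI2 : 0 ≤ ∫ q, W2 q := integral_nonneg hW20
  refine ⟨1 + 3 * C ^ 2 * (∫ q, W1 q) + 3 * C ^ 2 * (∫ q, W2 q), by positivity, ?_⟩
  intro φ y l Y g₄ hl hD
  have hp1 : ∀ q : W4, (1 : ℝ) ≤ 1 + ‖q‖ := fun q => by linarith [norm_nonneg q]
  have hp0 : ∀ q : W4, (0 : ℝ) < 1 + ‖q‖ := fun q => by linarith [norm_nonneg q]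
  have hC : 0 ≤ C := le_trans (by positivity) (hD.bdY 0 0 0)
  have hY : ∀ c q, |Y 0 c q| ≤ C * ((1 + ‖q‖) ^ 8)⁻¹ := fun c q =>
    le_div (pow_pos (hp0 q) 8) (hD.bdY 0 c q)
  have hYc : ∀ c, Continuous (Y 0 c) := fun c => (hD.smY 0 c).continuous
  have hinv : ∀ q : W4, ∀ n : ℕ, ((1 + ‖q‖) ^ n)⁻¹ ≤ 1 := fun q n =>
    inv_le_one_of_one_le₀ (one_le_pow₀ (hp1 q))
  have hYC : ∀ c q, |Y 0 c q| ≤ C := fun c q => by
    refine (hY c q).trans ?_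
    have := hinv q 8
    nlinarith
  constructor
  · have hsq : ∀ c q, Y 0 c q ^ 2 * (1 + ‖q‖) ^ 2 ≤ C ^ 2 * W1 q := fun c q => by
      have h1 : Y 0 c q ^ 2 ≤ (C * ((1 + ‖q‖) ^ 8)⁻¹) ^ 2 := by
        rw [← sq_abs]
        exact pow_le_pow_left₀ (abs_nonneg _) (hY c q) 2
      have h2 : (C * ((1 + ‖q‖) ^ 8)⁻¹) ^ 2 * (1 + ‖q‖) ^ 2 = C ^ 2 * W1 q := by
        have := (hp0 q).ne'
        simp only [hW1d]
        field_simp
      calc Y 0 c q ^ 2 * (1 + ‖q‖) ^ 2 ≤ (C * ((1 + ‖q‖) ^ 8)⁻¹) ^ 2 * (1 + ‖q‖) ^ 2 :=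
            mul_le_mul_of_nonneg_right h1 (by positivity)
        _ = C ^ 2 * W1 q := h2
    refine k4p (A := 3 * C ^ 2) (B := 3 * C ^ 2) (W := W1) ?_ ?_ ?_ hW1 ?_ ?_ ?_
    · exact continuous_finsetSum _ fun c _ => (hYc c).pow 2
    · exact fun q => Finset.sum_nonneg fun c _ => sq_nonneg _
    · exact fun q hq => Finset.sum_eq_zero fun c _ => by rw [hD.spY 0 c q hq]; norm_num
    · intro q
      rw [Finset.sum_mul]
      calc ∑ c, Y 0 c q ^ 2 * (1 + ‖q‖) ^ 2 ≤ ∑ _c : Fin 3, C ^ 2 * W1 q :=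
            Finset.sum_le_sum fun c _ => hsq c q
        _ = 3 * C ^ 2 * W1 q := by simp; ring
    · intro q
      calc ∑ c, Y 0 c q ^ 2 ≤ ∑ _c : Fin 3, C ^ 2 :=
            Finset.sum_le_sum fun c _ => by
              rw [← sq_abs]
              exact pow_le_pow_left₀ (abs_nonneg _) (hYC c q) 2
        _ = 3 * C ^ 2 := by simp
    · nlinarith [mul_nonneg (mul_nonneg (by norm_num : (0 : ℝ) ≤ 3) (sq_nonneg C)) hI2]
  · intro τ hτ hdτ
    have hz0 : ∀ q : W4, (0 : ℝ) < 1 + ‖pm 3 q‖ := fun q => by linarith [norm_nonneg (pm 3 q)]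
    have hdt : ∀ c q, |dv (dr 0 c) τ (q.1, q.2.1)| ≤ C * ((1 + ‖pm 3 q‖) ^ 5)⁻¹ := fun c q => by
      refine le_div (pow_pos (hz0 q) 5) ?_
      rw [pm3]
      exact hdτ 0 c _
    have hdC : ∀ c q, |dv (dr 0 c) τ ((q : W4).1, q.2.1)| ≤ C := fun c q => by
      refine (hdt c q).trans ?_
      have : ((1 + ‖pm 3 q‖) ^ 5)⁻¹ ≤ 1 :=
        inv_le_one_of_one_le₀ (one_le_pow₀ (by linarith [norm_nonneg (pm 3 q)]))
      nlinarith
    have hdc : ∀ c, Continuous (fun q : W4 => dv (dr 0 c) τ (q.1, q.2.1)) := fun c => by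
      have h1 : Continuous (fun z : E × E => fderiv ℝ τ z (dr 0 c)) :=
        (hτ.continuous_fderiv (by simp)).clm_apply continuous_const
      exact h1.comp (continuous_fst.prodMk (continuous_fst.comp continuous_snd))
    have hsq : ∀ c q, |dv (dr 0 c) τ ((q : W4).1, q.2.1)| * |Y 0 c q| * (1 + ‖q‖) ^ 2 ≤
        C ^ 2 * W2 q := fun c q => by
      have h1 : |dv (dr 0 c) τ (q.1, q.2.1)| * |Y 0 c q| ≤
          (C * ((1 + ‖pm 3 q‖) ^ 5)⁻¹) * (C * ((1 + ‖q‖) ^ 8)⁻¹) :=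
        mul_le_mul (hdt c q) (hY c q) (abs_nonneg _) (le_trans (abs_nonneg _) (hdt c q))
      have h2 : (C * ((1 + ‖pm 3 q‖) ^ 5)⁻¹) * (C * ((1 + ‖q‖) ^ 8)⁻¹) * (1 + ‖q‖) ^ 2 =
          C ^ 2 * W2 q := by
        have := (hp0 q).ne'
        have := (hz0 q).ne'
        simp only [hW2d]
        field_simp
      calc |dv (dr 0 c) τ (q.1, q.2.1)| * |Y 0 c q| * (1 + ‖q‖) ^ 2 ≤
            (C * ((1 + ‖pm 3 q‖) ^ 5)⁻¹) * (C * ((1 + ‖q‖) ^ 8)⁻¹) * (1 + ‖q‖) ^ 2 :=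
            mul_le_mul_of_nonneg_right h1 (by positivity)
        _ = C ^ 2 * W2 q := h2
    refine k4p (A := 3 * C ^ 2) (B := 3 * C ^ 2) (W := W2) ?_ ?_ ?_ hW2 ?_ ?_ ?_
    · exact continuous_finsetSum _ fun c _ => (hdc c).abs.mul (hYc c).abs
    · exact fun q => Finset.sum_nonneg fun c _ => mul_nonneg (abs_nonneg _) (abs_nonneg _)
    · exact fun q hq => Finset.sum_eq_zero fun c _ => by rw [hD.spY 0 c q hq]; simp
    · intro q
      rw [Finset.sum_mul]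
      calc ∑ c, |dv (dr 0 c) τ (q.1, q.2.1)| * |Y 0 c q| * (1 + ‖q‖) ^ 2 ≤
            ∑ _c : Fin 3, C ^ 2 * W2 q := Finset.sum_le_sum fun c _ => hsq c q
        _ = 3 * C ^ 2 * W2 q := by simp; ring
    · intro q
      calc ∑ c, |dv (dr 0 c) τ (q.1, q.2.1)| * |Y 0 c q| ≤ ∑ _c : Fin 3, C ^ 2 :=
            Finset.sum_le_sum fun c _ => by
              rw [sq]
              exact mul_le_mul (hdC c q) (hYC c q) (abs_nonneg _) hC
        _ = 3 * C ^ 2 := by simp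
    · nlinarith [mul_nonneg (mul_nonneg (by norm_num : (0 : ℝ) ≤ 3) (sq_nonneg C)) hI1]

end Pool.Agent.TBK
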