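import Pool.Agent.TBK.Stmts

set_option autoImplicit false

open MeasureTheory Filter Topology
open scoped ContDiff

namespace Pool.Agent.TBK

open Pool.Agent.TBG Pool.Agent.TBL Pool.Agent.TBF Pool.Agent.TBS

namespace KM3_

theorem gen (K : W4 → ℝ) (hK : Continuous K) (hc : HasCompactSupport K) (h0 : ∀ q, 0 ≤ K q) :
    ∃ C₁ : ℝ, 0 < C₁ ∧ ∀ C, C₁ ≤ C → K4P C C 1 K := by
  obtain ⟨B, hB⟩ := hK.bounded_above_of_compact_support hc
  obtain ⟨r, hr⟩ := hc.isCompact.isBounded.subset_closedBall (0 : W4)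
  refine ⟨max (max 1 r) (max (∫ q, K q) (∫ q, K q * ‖q‖ ^ 2)), ?_, ?_⟩
  · exact lt_of_lt_of_le one_pos ((le_max_left _ _).trans (le_max_left _ _))
  · intro C hC
    have h1 : r ≤ C := ((le_max_right _ _).trans (le_max_left _ _)).trans hC
    have h2 : ∫ q, K q ≤ C := ((le_max_left _ _).trans (le_max_right _ _)).trans hC
    have h3 : ∫ q, K q * ‖q‖ ^ 2 ≤ C := ((le_max_right _ _).trans (le_max_right _ _)).trans hC
    refine ⟨⟨hK.measurable, B, fun q => ?_⟩, h0, fun q hq => ?_, hK.integrable_of_hasCompactSupport hc,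
      h2, ?_⟩
    · rw [← Real.norm_eq_abs]
      exact hB q
    · have h4 : q ∈ Metric.closedBall (0 : W4) r := hr (subset_tsupport K hq)
      rw [mem_closedBall_zero_iff] at h4
      exact h4.trans h1
    · rw [mul_one]
      exact h3

end KM3_

theorem km3_proof (hSCB : Pool.Agent.TBF.Stmt_SCB) : Stmt_KM3 := by
  intro φ y hφ hy
  obtain ⟨C, -, -, -, hV, hw, hVs, hws, -⟩ := hSCB φ hφ
  have hm : Continuous (fun q : W4 => ((q.1, q.2.1) : E × E)) := by fun_prop
  have hyc : Continuous y := hy.1.continuous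
  have hz : ∀ q, q ∉ tsupport y → y q = 0 := fun q hq => image_eq_zero_of_notMem_tsupport hq
  have c1 : Continuous (fun q : W4 => ww φ (q.1, q.2.1) * |y q|) :=
    (hws.continuous.comp hm).mul hyc.abs
  have c2 : Continuous (fun q : W4 => VV φ q.1 q.2.1 * y q ^ 2) :=
    (hVs.continuous.comp hm).mul (hyc.pow 2)
  have s1 : HasCompactSupport (fun q : W4 => ww φ (q.1, q.2.1) * |y q|) :=
    HasCompactSupport.intro hy.2 fun q hq => by
      rw [hz q hq]
      simp
  have s2 : HasCompactSupport (fun q : W4 => VV φ q.1 q.2.1 * y q ^ 2) :=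
    HasCompactSupport.intro hy.2 fun q hq => by
      rw [hz q hq]
      simp
  obtain ⟨C₁, h1, h2⟩ := KM3_.gen _ c1 s1 (fun q => mul_nonneg (hw _).1 (abs_nonneg _))
  obtain ⟨C₂, h3, h4⟩ := KM3_.gen _ c2 s2
    (fun q => mul_nonneg (hV (q.1, q.2.1)).1 (sq_nonneg _))
  exact ⟨max C₁ C₂, lt_of_lt_of_le h1 (le_max_left _ _), h2 _ (le_max_left _ _),
    h4 _ (le_max_right _ _)⟩

end Pool.Agent.TBK
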