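import Pool.Agent.TBK.Stmts

/-!
# Squad TBK: module KMP (one-particle kernels, output)
-/

set_option autoImplicit false

open MeasureTheory Filter Topology
open scoped ContDiff

namespace Pool.Agent.TBK

open Pool.Agent.TBG Pool.Agent.TBL Pool.Agent.TBF Pool.Agent.TBS

namespace KMP_

lemma pk_mono {l w₁ w₂ w₃ w₁' w₂' w₃' : ℝ} {q : E → ℝ} (h : Pk l w₁ w₂ w₃ q) (h1 : w₁ ≤ w₁')
    (h2 : w₂ ≤ w₂') (h3 : w₃ ≤ w₃') : Pk l w₁' w₂' w₃' q :=
  ⟨h.meas, h.nn, h.le1, h.sp, h.m1.trans h1, fun x => (h.m2 x).trans h2, h.m3.trans h3⟩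

end KMP_

open KMP_ in
theorem kmp_proof (hPKA : Stmt_PKA) : Pool.Agent.TBS.Stmt_KMP := by
  obtain ⟨A, hA, hA'⟩ := hPKA.1 (5 / 2) (by norm_num) (by norm_num)
  obtain ⟨B, hB, hB'⟩ := hPKA.1 2 (by norm_num) (by norm_num)
  obtain ⟨D, hD, hD'⟩ := hPKA.1 (8 / 3) (by norm_num) (by norm_num)
  refine ⟨A + B + D, by positivity, fun R l hR hRl => ⟨?_, ?_, ?_⟩⟩
  · have hR0 : (0 : ℝ) ≤ R ^ (1 / 2 : ℝ) := by positivity
    have h := hA' R l hR hRl
    rw [show (3 : ℝ) - 5 / 2 = 1 / 2 by norm_num] at h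
    exact pk_mono h (mul_le_mul_of_nonneg_right (by linarith) hR0) (by linarith) (by linarith)
  · have h := hB' R l hR hRl
    rw [show (3 : ℝ) - 2 = 1 by norm_num, Real.rpow_one] at h
    exact pk_mono h (mul_le_mul_of_nonneg_right (by linarith) (by linarith)) (by linarith)
      (by linarith)
  · have hl : (1 : ℝ) ≤ l := hR.trans hRl
    have hl0 : (0 : ℝ) ≤ l ^ (1 / 3 : ℝ) := by positivity
    have h := hD' l l hl le_rfl
    rw [show (3 : ℝ) - 8 / 3 = 1 / 3 by norm_num] at h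
    exact pk_mono h (mul_le_mul_of_nonneg_right (by linarith) hl0) (by linarith) (by linarith)

end Pool.Agent.TBK
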