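import Pool.Agent.TBK.Stmts

/-!
# Three-body Bose gases, construction of the kernels, module KMS: masses of the kernels
-/

set_option autoImplicit false

open MeasureTheory Filter Topology
open scoped ContDiff

namespace Pool.Agent.TBK

open Pool.Agent.TBG Pool.Agent.TBL Pool.Agent.TBF Pool.Agent.TBS

namespace KMS_

theorem pk_nonneg (α R : ℝ) (x : E) : 0 ≤ pk α R x := by
  unfold pk ic
  apply mul_nonneg
  · exact Set.indicator_nonneg (fun _ _ => zero_le_one) x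
  · positivity

theorem pk_ge (α R r : ℝ) (hα : 0 ≤ α) (x : E) (hx : ‖x‖ ≤ r) (hr : r ≤ R) :
    (1 + r) ^ (-α) ≤ pk α R x := by
  unfold pk ic
  have h1 : x ∈ {y : E | ‖y‖ ≤ R} := hx.trans hr
  rw [Set.indicator_of_mem h1, one_mul]
  apply Real.rpow_le_rpow_of_nonpos (by positivity) (by linarith) (by linarith)

theorem pk_sq (α β R : ℝ) (h : α * 2 = β) (x : E) : pk α R x ^ 2 = pk β R x := by
  unfold pk ic
  rw [mul_pow]
  congr 1
  · by_cases h : x ∈ {y : E | ‖y‖ ≤ R}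
    · rw [Set.indicator_of_mem h]
      norm_num
    · rw [Set.indicator_of_notMem h]
      norm_num
  · rw [← Real.rpow_natCast, ← Real.rpow_mul (by positivity)]
    congr 1
    push_cast
    linarith

theorem nrm (x : Fin 3 → E) (s : Fin 2) : ‖x 0 - x s.succ‖ ≤ ‖rt x‖ := by
  fin_cases s
  · exact norm_fst_le (rt x)
  · exact norm_snd_le (rt x)

theorem prod_ge (α R : ℝ) (k : ℕ) (hα : 0 ≤ α) (hk : α * 2 = k) (x : Fin 3 → E) (h : ‖rt x‖ ≤ R) :
    ((1 + ‖rt x‖) ^ k)⁻¹ ≤ ∏ s : Fin 2, pk α R (x 0 - x s.succ) := by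
  have h1 : ∏ _s : Fin 2, (1 + ‖rt x‖) ^ (-α : ℝ) ≤ ∏ s : Fin 2, pk α R (x 0 - x s.succ) :=
    Finset.prod_le_prod (fun s _ => by positivity)
      (fun s _ => pk_ge α R ‖rt x‖ hα _ (nrm x s) h)
  refine le_trans (le_of_eq ?_) h1
  rw [Finset.prod_const, Finset.card_univ, Fintype.card_fin, ← Real.rpow_natCast _ 2,
    ← Real.rpow_mul (by positivity), ← Real.rpow_natCast _ k, ← Real.rpow_neg (by positivity)]
  congr 1
  push_cast
  linarith

theorem ppnn (α R : ℝ) (x : Fin 3 → E) : 0 ≤ ∏ s : Fin 2, pk α R (x 0 - x s.succ) :=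
  Finset.prod_nonneg fun s _ => pk_nonneg _ _ _

theorem tau_le {C R : ℝ} {φ τ g : E × E → ℝ} (h : Tri C R φ τ g) (x : Fin 3 → E) :
    τ (rt x) ≤ |C| * ∏ s : Fin 2, pk 2 R (x 0 - x s.succ) := by
  have hp := ppnn 2 R x
  by_cases hl : R < ‖rt x‖
  · rw [h.sp _ hl]
    positivity
  · push Not at hl
    have h1 := prod_ge 2 R 4 (by norm_num) (by norm_num) x hl
    have h3 := h.dec0 (rt x)
    have h4 : 0 < (1 + ‖rt x‖) ^ 4 := by positivity
    have h2 : τ (rt x) ≤ |C| * ((1 + ‖rt x‖) ^ 4)⁻¹ := by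
      rw [← div_eq_mul_inv, le_div_iff₀ h4, mul_comm]
      exact h3.trans (le_abs_self C)
    exact h2.trans (mul_le_mul_of_nonneg_left h1 (abs_nonneg C))

theorem dv_zero {C R : ℝ} {φ τ g : E × E → ℝ} (h : Tri C R φ τ g) (c : Fin 3) (z : E × E)
    (hz : R < ‖z‖) : dv (dr 0 c) τ z = 0 := by
  have ho : IsOpen {z : E × E | R < ‖z‖} := isOpen_lt continuous_const continuous_norm
  have he : τ =ᶠ[𝓝 z] fun _ => 0 := by
    filter_upwards [ho.mem_nhds hz] with w hw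
    exact h.sp w hw
  unfold dv
  rw [he.fderiv_eq]
  simp

theorem kA_nn (τ : E × E → ℝ) (x : Fin 3 → E) : 0 ≤ kA τ x := by
  unfold kA
  exact Finset.sum_nonneg fun c _ => abs_nonneg _

theorem kA_le {C R : ℝ} {φ τ g : E × E → ℝ} (h : Tri C R φ τ g) (x : Fin 3 → E) :
    kA τ x ≤ 3 * |C| * ∏ s : Fin 2, pk (5 / 2) R (x 0 - x s.succ) := by
  have hp := ppnn (5 / 2) R x
  by_cases hl : R < ‖rt x‖
  · have h0 : kA τ x = 0 := by
      unfold kA
      refine Finset.sum_eq_zero fun c _ => ?_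
      rw [dv_zero h c _ hl, abs_zero]
    rw [h0]
    positivity
  · push Not at hl
    have h1 := prod_ge (5 / 2) R 5 (by norm_num) (by norm_num) x hl
    have h2 : ∀ c, |dv (dr 0 c) τ (rt x)| ≤ |C| * ((1 + ‖rt x‖) ^ 5)⁻¹ := by
      intro c
      have h3 := h.dec1 0 c (rt x)
      have h4 : 0 < (1 + ‖rt x‖) ^ 5 := by positivity
      rw [← div_eq_mul_inv, le_div_iff₀ h4, mul_comm]
      exact h3.trans (le_abs_self C)
    have h5 : kA τ x ≤ 3 * (|C| * ((1 + ‖rt x‖) ^ 5)⁻¹) := by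
      unfold kA
      refine (Finset.sum_le_sum fun c _ => h2 c).trans ?_
      simp
    have h6 : |C| * ((1 + ‖rt x‖) ^ 5)⁻¹ ≤ |C| * ∏ s : Fin 2, pk (5 / 2) R (x 0 - x s.succ) :=
      mul_le_mul_of_nonneg_left h1 (abs_nonneg C)
    linarith

theorem rt_cont : Continuous (fun x : Fin 3 → E => rt x) := by
  unfold rt
  fun_prop

theorem tau_meas {C R : ℝ} {φ τ g : E × E → ℝ} (h : Tri C R φ τ g) :
    Measurable (fun x : Fin 3 → E => τ (rt x)) :=
  (h.smooth.continuous.comp rt_cont).measurable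

theorem kA_meas {C R : ℝ} {φ τ g : E × E → ℝ} (h : Tri C R φ τ g) : Measurable (kA τ) := by
  have hc : Continuous (kA τ) := by
    unfold kA dv
    refine continuous_finsetSum _ fun c _ => ?_
    exact (((h.smooth.continuous_fderiv (by simp)).clm_apply continuous_const).comp rt_cont).abs
  exact hc.measurable

end KMS_

open KMS_ in
theorem kms_proof (hPKA : Stmt_PKA) (hCKP : Stmt_CKP) : Pool.Agent.TBS.Stmt_KMS := by
  intro C
  obtain ⟨A, hA, h52⟩ := hPKA.1 (5 / 2) (by norm_num) (by norm_num)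
  obtain ⟨B, hB, h2⟩ := hPKA.1 2 (by norm_num) (by norm_num)
  obtain ⟨D, hD, h4⟩ := hPKA.2 4 (by norm_num)
  obtain ⟨F, hF, h5⟩ := hPKA.2 5 (by norm_num)
  obtain ⟨c1, c2, c3⟩ := hCKP
  set c : ℝ := |C| with hc
  have hc0 : 0 ≤ c := abs_nonneg C
  set C₁ : ℝ := 1 + 3 * c + 3 * c * A ^ 2 + c + c * B ^ 2 + c ^ 2 * D ^ 2 + 9 * c ^ 2 * F ^ 2 +
    2 * (c * (D * B)) with hC₁
  have n1 : 0 ≤ 3 * c * A ^ 2 := by positivity
  have n2 : 0 ≤ c * B ^ 2 := by positivity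
  have n3 : 0 ≤ c ^ 2 * D ^ 2 := by positivity
  have n4 : 0 ≤ 9 * c ^ 2 * F ^ 2 := by positivity
  have n5 : 0 ≤ c * (D * B) := by positivity
  refine ⟨C₁, by positivity, fun φ τ g R l hR hRl _ h => ?_⟩
  have hR0 : 0 ≤ R := by linarith
  have hl0 : 0 ≤ l := by linarith
  have hτm := tau_meas h
  have hkm := kA_meas h
  have hτ := tau_le h
  have hk := kA_le h
  have e1 : R ^ (3 - 2 : ℝ) = R := by
    have : (3 - 2 : ℝ) = 1 := by norm_num
    rw [this, Real.rpow_one]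
  have e2 : R ^ (3 - 5 / 2 : ℝ) * R ^ (3 - 5 / 2 : ℝ) = R := by
    rw [← Real.rpow_add (by linarith)]
    have : (3 - 5 / 2 + (3 - 5 / 2) : ℝ) = 1 := by norm_num
    rw [this, Real.rpow_one]
  refine ⟨⟨?_, fun x => ?_⟩, ⟨?_, fun x => ?_⟩, ?_, ?_, ?_⟩
  · have := c1 2 l (3 * c) (fun _ => A * R ^ (3 - 5 / 2 : ℝ)) (fun _ => A) (fun _ => A)
      (fun _ => pk (5 / 2) R) (kA τ) hl0 (by positivity) (fun _ => h52 R l hR hRl) hkm
      (fun x => ⟨kA_nn τ x, hk x⟩)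
    refine c3 2 l _ _ _ this ?_
    rw [Fin.prod_univ_two]
    have e3 : 3 * c * (A * R ^ (3 - 5 / 2 : ℝ) * (A * R ^ (3 - 5 / 2 : ℝ))) = 3 * c * A ^ 2 * R := by
      calc 3 * c * (A * R ^ (3 - 5 / 2 : ℝ) * (A * R ^ (3 - 5 / 2 : ℝ)))
          = 3 * c * A ^ 2 * (R ^ (3 - 5 / 2 : ℝ) * R ^ (3 - 5 / 2 : ℝ)) := by ring
        _ = _ := by rw [e2]
    rw [e3]
    refine mul_le_mul_of_nonneg_right ?_ hR0
    linarith
  · refine (hk x).trans (mul_le_mul_of_nonneg_right ?_ (ppnn _ _ _))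
    linarith
  · have := c1 2 l c (fun _ => B * R ^ (3 - 2 : ℝ)) (fun _ => B) (fun _ => B)
      (fun _ => pk 2 R) (fun x => τ (rt x)) hl0 hc0 (fun _ => h2 R l hR hRl) hτm
      (fun x => ⟨h.nn _, hτ x⟩)
    refine c3 2 l _ _ _ this ?_
    rw [Fin.prod_univ_two, e1]
    have e3 : c * (B * R * (B * R)) = c * B ^ 2 * R ^ 2 := by ring
    rw [e3]
    refine mul_le_mul_of_nonneg_right ?_ (sq_nonneg R)
    linarith
  · refine (hτ x).trans (mul_le_mul_of_nonneg_right ?_ (ppnn _ _ _))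
    linarith
  · have := c1 2 l (c ^ 2) (fun _ => D) (fun _ => D) (fun _ => D)
      (fun _ => pk 4 R) (fun x => τ (rt x) ^ 2) hl0 (by positivity) (fun _ => h4 R l hR hRl)
      (hτm.pow_const 2) (fun x => ⟨sq_nonneg _, by
        have h5 := pow_le_pow_left₀ (h.nn (rt x)) (hτ x) 2
        refine h5.trans (le_of_eq ?_)
        rw [mul_pow, ← Finset.prod_pow]
        congr 1
        exact Finset.prod_congr rfl fun s _ => pk_sq 2 4 R (by norm_num) _⟩)
    refine c3 2 l _ _ _ this ?_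
    rw [Fin.prod_univ_two]
    have e3 : c ^ 2 * (D * D) = c ^ 2 * D ^ 2 := by ring
    rw [e3]
    linarith
  · have := c1 2 l (9 * c ^ 2) (fun _ => F) (fun _ => F) (fun _ => F)
      (fun _ => pk 5 R) (fun x => kA τ x ^ 2) hl0 (by positivity) (fun _ => h5 R l hR hRl)
      (hkm.pow_const 2) (fun x => ⟨sq_nonneg _, by
        have h5 := pow_le_pow_left₀ (kA_nn τ x) (hk x) 2
        refine h5.trans (le_of_eq ?_)
        rw [mul_pow, ← Finset.prod_pow]
        have e4 : (3 * c) ^ 2 = 9 * c ^ 2 := by ring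
        rw [e4]
        congr 1
        exact Finset.prod_congr rfl fun s _ => pk_sq (5 / 2) 5 R (by norm_num) _⟩)
    refine c3 2 l _ _ _ this ?_
    rw [Fin.prod_univ_two]
    have e3 : 9 * c ^ 2 * (F * F) = 9 * c ^ 2 * F ^ 2 := by ring
    rw [e3]
    linarith
  · -- the mixed kernels
    have hp2 : Measurable (pk 2 R) := (h2 R l hR hRl).meas
    have k1 := c1 2 l c ![D, B * R ^ (3 - 2 : ℝ)] ![D, B] ![D, B] ![pk 4 R, pk 2 R]
      (fun x => τ (rt x) * pk 2 R (x 0 - x 1)) hl0 hc0 (fun s => by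
        fin_cases s
        · exact h4 R l hR hRl
        · exact h2 R l hR hRl)
      (hτm.mul (hp2.comp (by fun_prop))) (fun x => ⟨mul_nonneg (h.nn _) (pk_nonneg _ _ _), by
        refine (mul_le_mul_of_nonneg_right (hτ x) (pk_nonneg 2 R (x 0 - x 1))).trans (le_of_eq ?_)
        rw [Fin.prod_univ_two, Fin.prod_univ_two]
        have e5 := pk_sq 2 4 R (by norm_num) (x 0 - x 1)
        change c * (pk 2 R (x 0 - x 1) * pk 2 R (x 0 - x 2)) * pk 2 R (x 0 - x 1) =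
          c * (pk 4 R (x 0 - x 1) * pk 2 R (x 0 - x 2))
        rw [← e5]
        ring⟩)
    have k2 := c1 2 l c ![B * R ^ (3 - 2 : ℝ), D] ![B, D] ![B, D] ![pk 2 R, pk 4 R]
      (fun x => τ (rt x) * pk 2 R (x 0 - x 2)) hl0 hc0 (fun s => by
        fin_cases s
        · exact h2 R l hR hRl
        · exact h4 R l hR hRl)
      (hτm.mul (hp2.comp (by fun_prop))) (fun x => ⟨mul_nonneg (h.nn _) (pk_nonneg _ _ _), by
        refine (mul_le_mul_of_nonneg_right (hτ x) (pk_nonneg 2 R (x 0 - x 2))).trans (le_of_eq ?_)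
        rw [Fin.prod_univ_two, Fin.prod_univ_two]
        have e5 := pk_sq 2 4 R (by norm_num) (x 0 - x 2)
        change c * (pk 2 R (x 0 - x 1) * pk 2 R (x 0 - x 2)) * pk 2 R (x 0 - x 2) =
          c * (pk 2 R (x 0 - x 1) * pk 4 R (x 0 - x 2))
        rw [← e5]
        ring⟩)
    have k3 := c2 2 l _ _ _ _ k1 k2
    have e6 : (fun x : Fin 3 → E => τ (rt x) * (pk 2 R (x 0 - x 1) + pk 2 R (x 0 - x 2))) =
        fun x => τ (rt x) * pk 2 R (x 0 - x 1) + τ (rt x) * pk 2 R (x 0 - x 2) := by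
      funext x
      ring
    rw [e6]
    refine c3 2 l _ _ _ k3 ?_
    rw [Fin.prod_univ_two, Fin.prod_univ_two]
    change c * (D * (B * R ^ (3 - 2 : ℝ))) + c * (B * R ^ (3 - 2 : ℝ) * D) ≤ C₁ * R
    rw [e1]
    have e3 : c * (D * (B * R)) + c * (B * R * D) = 2 * (c * (D * B)) * R := by ring
    rw [e3]
    refine mul_le_mul_of_nonneg_right ?_ hR0
    linarith

end Pool.Agent.TBK
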