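import Pool.Agent.TBK.Stmts

set_option autoImplicit false

open MeasureTheory Filter Topology
open scoped ContDiff

namespace Pool.Agent.TBK

open Pool.Agent.TBG Pool.Agent.TBL Pool.Agent.TBF Pool.Agent.TBS

namespace KMY_

theorem pk_nonneg (α R : ℝ) (x : E) : 0 ≤ pk α R x := by
  unfold pk ic
  apply mul_nonneg
  · exact Set.indicator_nonneg (fun _ _ => zero_le_one) x
  · positivity

theorem pk_ge (α R r : ℝ) (hα : 0 ≤ α) (x : E) (hx : ‖x‖ ≤ r) (hr : r ≤ R) :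
    (1 + r) ^ (-α) ≤ pk α R x := by
  unfold pk ic
  have h1 : x ∈ {y : E | ‖y‖ ≤ R} := hx.trans hr
  rw [Set.indicator_of_mem h1, one_mul]
  apply Real.rpow_le_rpow_of_nonpos (by positivity) (by linarith) (by linarith)

theorem pk_sq (R : ℝ) (x : E) : pk (8 / 3) R x ^ 2 = pk (16 / 3) R x := by
  unfold pk ic
  rw [mul_pow]
  congr 1
  · by_cases h : x ∈ {y : E | ‖y‖ ≤ R}
    · rw [Set.indicator_of_mem h]
      norm_num
    · rw [Set.indicator_of_notMem h]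
      norm_num
  · rw [← Real.rpow_natCast, ← Real.rpow_mul (by positivity)]
    congr 1
    norm_num

theorem nrm (x : Fin 4 → E) (s : Fin 3) : ‖x 0 - x s.succ‖ ≤ ‖rl x‖ := by
  have h1 : ‖x 0 - x 1‖ ≤ ‖rl x‖ := norm_fst_le (rl x)
  have h2 : ‖(rl x).2‖ ≤ ‖rl x‖ := norm_snd_le (rl x)
  have h3 : ‖x 0 - x 2‖ ≤ ‖(rl x).2‖ := norm_fst_le (rl x).2
  have h4 : ‖x 0 - x 3‖ ≤ ‖(rl x).2‖ := norm_snd_le (rl x).2
  fin_cases s
  · exact h1
  · exact h3.trans h2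
  · exact h4.trans h2

theorem prod_ge (l : ℝ) (x : Fin 4 → E) (h : ‖rl x‖ ≤ l) :
    ((1 + ‖rl x‖) ^ 8)⁻¹ ≤ ∏ s : Fin 3, pk (8 / 3) l (x 0 - x s.succ) := by
  have h1 : ∏ _s : Fin 3, (1 + ‖rl x‖) ^ (-(8 / 3) : ℝ) ≤
      ∏ s : Fin 3, pk (8 / 3) l (x 0 - x s.succ) :=
    Finset.prod_le_prod (fun s _ => by positivity)
      (fun s _ => pk_ge (8 / 3) l ‖rl x‖ (by norm_num) _ (nrm x s) h)
  refine le_trans (le_of_eq ?_) h1
  rw [Finset.prod_const, Finset.card_univ, Fintype.card_fin, ← Real.rpow_natCast _ 3,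
    ← Real.rpow_mul (by positivity), ← Real.rpow_natCast _ 8, ← Real.rpow_neg (by positivity)]
  congr 1
  norm_num

theorem pw (C : ℝ) (φ : E × E → ℝ) (y : W4 → ℝ) (l : ℝ) (Y : Fin 4 → Fin 3 → W4 → ℝ) (g : W4 → ℝ)
    (h : Dua φ y l C Y g) (x : Fin 4 → E) :
    kB Y x ≤ (3 * |C| + 1) * ∏ s : Fin 3, pk (8 / 3) l (x 0 - x s.succ) := by
  have hp : 0 ≤ ∏ s : Fin 3, pk (8 / 3) l (x 0 - x s.succ) :=
    Finset.prod_nonneg fun s _ => pk_nonneg _ _ _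
  by_cases hl : l < ‖rl x‖
  · have h0 : kB Y x = 0 := by
      unfold kB
      refine Finset.sum_eq_zero fun c _ => ?_
      rw [h.spY 0 c _ hl, abs_zero]
    rw [h0]
    positivity
  · push Not at hl
    have h1 := prod_ge l x hl
    have h2 : ∀ c, |Y 0 c (rl x)| ≤ |C| * ((1 + ‖rl x‖) ^ 8)⁻¹ := by
      intro c
      have h3 := h.bdY 0 c (rl x)
      have h4 : 0 < (1 + ‖rl x‖) ^ 8 := by positivity
      rw [← div_eq_mul_inv, le_div_iff₀ h4, mul_comm]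
      exact h3.trans (le_abs_self C)
    have h5 : kB Y x ≤ 3 * (|C| * ((1 + ‖rl x‖) ^ 8)⁻¹) := by
      unfold kB
      refine (Finset.sum_le_sum fun c _ => h2 c).trans ?_
      simp
    have h6 : |C| * ((1 + ‖rl x‖) ^ 8)⁻¹ ≤ |C| * ∏ s : Fin 3, pk (8 / 3) l (x 0 - x s.succ) :=
      mul_le_mul_of_nonneg_left h1 (abs_nonneg C)
    nlinarith

theorem meas (C : ℝ) (φ : E × E → ℝ) (y : W4 → ℝ) (l : ℝ) (Y : Fin 4 → Fin 3 → W4 → ℝ) (g : W4 → ℝ)
    (h : Dua φ y l C Y g) : Measurable (kB Y) := by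
  have hr : Continuous (fun x : Fin 4 → E => rl x) := by
    unfold rl
    fun_prop
  have hc : Continuous (kB Y) := by
    unfold kB
    exact continuous_finsetSum _ fun c _ => ((h.smY 0 c).continuous.comp hr).abs
  exact hc.measurable

theorem kB_nonneg (Y : Fin 4 → Fin 3 → W4 → ℝ) (x : Fin 4 → E) : 0 ≤ kB Y x := by
  unfold kB
  exact Finset.sum_nonneg fun c _ => abs_nonneg _

end KMY_

theorem kmy_proof (_hRLP : Pool.Agent.TBF.Stmt_RLP) (hPKA : Stmt_PKA) (hCKP : Stmt_CKP) :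
    Pool.Agent.TBS.Stmt_KMY := by
  intro C
  obtain ⟨C₁, hC₁, h1⟩ := hPKA.1 (8 / 3) (by norm_num) (by norm_num)
  obtain ⟨C₂, hC₂, h2⟩ := hPKA.2 (16 / 3) (by norm_num)
  obtain ⟨c1, -, c3⟩ := hCKP
  set D : ℝ := 3 * |C| + 1 with hD
  have hD0 : 0 < D := by positivity
  refine ⟨D + D * C₁ ^ 3 + D ^ 2 * C₂ ^ 3, by positivity, fun φ y l Y g hl h => ?_⟩
  have hl0 : 0 ≤ l := by linarith
  have hpw := KMY_.pw C φ y l Y g h
  have hms := KMY_.meas C φ y l Y g h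
  refine ⟨⟨?_, fun x => ?_⟩, ?_⟩
  · have h3 := c1 3 l D (fun _ => C₁ * l ^ (3 - 8 / 3 : ℝ)) (fun _ => C₁) (fun _ => C₁)
      (fun _ => pk (8 / 3) l) (kB Y) hl0 hD0.le (fun _ => h1 l l hl le_rfl) hms
      (fun x => ⟨KMY_.kB_nonneg Y x, hpw x⟩)
    refine c3 3 l _ _ _ h3 ?_
    rw [Finset.prod_const, Finset.card_univ, Fintype.card_fin, mul_pow, ← Real.rpow_natCast (l ^ _) 3,
      ← Real.rpow_mul hl0]
    have e : ((3 - 8 / 3 : ℝ) * ((3 : ℕ) : ℝ)) = 1 := by norm_num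
    rw [e, Real.rpow_one]
    have h4 : D * (C₁ ^ 3 * l) = (D * C₁ ^ 3) * l := by ring
    rw [h4]
    apply mul_le_mul_of_nonneg_right _ hl0
    have : 0 ≤ D ^ 2 * C₂ ^ 3 := by positivity
    linarith
  · refine (hpw x).trans ?_
    apply mul_le_mul_of_nonneg_right _ (Finset.prod_nonneg fun s _ => KMY_.pk_nonneg _ _ _)
    have : 0 ≤ D ^ 2 * C₂ ^ 3 := by positivity
    have : 0 ≤ D * C₁ ^ 3 := by positivity
    linarith
  · have h3 := c1 3 l (D ^ 2) (fun _ => C₂) (fun _ => C₂) (fun _ => C₂)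
      (fun _ => pk (16 / 3) l) (fun x => kB Y x ^ 2) hl0 (by positivity)
      (fun _ => h2 l l hl le_rfl) (hms.pow_const 2)
      (fun x => ⟨sq_nonneg _, by
        have h5 := pow_le_pow_left₀ (KMY_.kB_nonneg Y x) (hpw x) 2
        refine h5.trans (le_of_eq ?_)
        rw [mul_pow, ← Finset.prod_pow]
        congr 1
        exact Finset.prod_congr rfl fun s _ => KMY_.pk_sq l _⟩)
    refine c3 3 l _ _ _ h3 ?_
    rw [Finset.prod_const, Finset.card_univ, Fintype.card_fin]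
    have : 0 ≤ D * C₁ ^ 3 := by positivity
    linarith

end Pool.Agent.TBK
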