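import Pool.Agent.TBK.Stmts

/-!
# Squad TBK: module KTR (the cut off scattering function, output)
-/

set_option autoImplicit false

open MeasureTheory Filter Topology
open scoped ContDiff

namespace Pool.Agent.TBK

open Pool.Agent.TBG Pool.Agent.TBL Pool.Agent.TBF Pool.Agent.TBS

theorem ktr_proof (hTAU : Stmt_TAU) (hGTA : Stmt_GTA) (hTEN : Stmt_TEN) :
    Pool.Agent.TBS.Stmt_KTR := by
  intro φ hφ
  obtain ⟨C1, hC1, h1⟩ := hTAU φ hφ
  obtain ⟨A, C2, R₀, hA, hC2, hR₀, h2⟩ := hGTA φ hφ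
  refine ⟨C1 + C2, R₀, by positivity, hR₀, fun R hR => ?_⟩
  have hR0 : 0 < R := by linarith
  set δ : ℝ := A / R ^ 4 with hδ
  have hδ0 : 0 < δ := by positivity
  obtain ⟨a1, a2, a3, a4, a5⟩ := h1 δ hδ0
  obtain ⟨b1, b2, b3⟩ := h2 R hR
  have hg0 : ∀ z, 0 ≤ sg φ δ z := fun z => (b2 z).1
  obtain ⟨c1, c2⟩ := hTEN φ δ R hφ hδ0 (fun z hz => (b1 z hz).1) hg0
  refine ⟨fun z => Td δ (φ z), sg φ δ, ⟨a1, fun x y => (a2 x y).1, fun x y => (a2 x y).2,
    fun z => (a3 z).1, fun z => ?_, fun m c z => ?_, fun z hz => (b1 z hz).1, fun z => ?_, hg0,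
    fun z => ?_, fun z hz => (b1 z hz).2, c1, c2, fun m c z hz => ?_⟩⟩
  · exact (a3 z).2.2.trans (by linarith)
  · exact (a4 m c z).2.trans (by linarith)
  · unfold sg
    ring
  · exact (b2 z).2.trans (by linarith)
  · refine b3 m c z (le_trans ?_ hz)
    exact mul_le_mul_of_nonneg_right (by linarith) (norm_nonneg z)

end Pool.Agent.TBK
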