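import Pool.Agent.TBK.Stmts

/-!
# Squad TBK: module PT1 (formula for the marginal)
-/

set_option autoImplicit false

open MeasureTheory Filter Topology
open scoped ContDiff

namespace Pool.Agent.TBK

open Pool.Agent.TBG Pool.Agent.TBL Pool.Agent.TBF Pool.Agent.TBS

theorem pt1_proof (hBET : Stmt_BET) : Stmt_PT1 := by
  intro b R C l g hg hR hRl a x
  obtain ⟨C₁, -, hB⟩ := hBET
  have hl : 0 < l := lt_of_lt_of_le (by linarith) hRl
  obtain ⟨hBs, -, -, -, -⟩ := hB l hl a
  set G : E × E → ℝ := fun w => be l a (x - (1 / 3 : ℝ) • (w.1 + w.2)) * g w with hG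
  have hGc : Continuous G := by
    refine Continuous.mul ?_ hg.cont
    exact hBs.continuous.comp (by fun_prop)
  have hGs : HasCompactSupport G := by
    refine HasCompactSupport.intro (isCompact_closedBall (0 : E × E) R) fun w hw => ?_
    have h1 : R < ‖w‖ := by
      simpa [Metric.mem_closedBall, dist_zero_right] using hw
    simp only [hG, hg.sp w h1, mul_zero]
  have hGi : Integrable G := hGc.integrable_of_hasCompactSupport hGs
  refine ⟨hGi, ?_⟩
  have h1 : ∀ y z : E, Pd b l g a x y z = (b * l ^ 3)⁻¹ * G (x - y, x - z) := by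
    intro y z
    have e1 : x - (1 / 3 : ℝ) • ((x - y) + (x - z)) = (1 / 3 : ℝ) • (x + y + z) := by
      module
    simp only [hG, Pd, e1]
  have h2 : ∀ y : E, ∫ z, Pd b l g a x y z = (b * l ^ 3)⁻¹ * ∫ z, G (x - y, z) := by
    intro y
    simp only [h1]
    rw [integral_const_mul]
    congr 1
    exact integral_sub_left_eq_self (fun z => G (x - y, z)) volume x
  unfold thd
  simp only [h2]
  rw [integral_const_mul]
  congr 1
  rw [integral_sub_left_eq_self (fun y => ∫ z, G (y, z)) volume x]
  rw [← integral_prod (μ := (volume : Measure E)) (ν := (volume : Measure E)) G hGi]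
  rfl

end Pool.Agent.TBK
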