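import Pool.Agent.TBK.Stmts

/-!
# Squad TBK, module PT2: properties of the marginal of the density of triples (helper67)
-/

set_option autoImplicit false

open MeasureTheory Filter Topology
open scoped ContDiff

namespace Pool.Agent.TBK

open Pool.Agent.TBG Pool.Agent.TBL Pool.Agent.TBF Pool.Agent.TBS

namespace PT2_

/-- a function with a non zero integral is integrable -/
theorem int_of_ne {α : Type*} [MeasurableSpace α] {μ : Measure α} {f : α → ℝ} (h : ∫ x, f x ∂μ ≠ 0) :
    Integrable f μ := by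
  by_contra hf
  exact h (integral_undef hf)

end PT2_

open PT2_ in
theorem pt2_proof (hBET : Stmt_BET) (hPT1 : Stmt_PT1) : Stmt_PT2 := by
  intro b R C l g hS hR hRl a
  obtain ⟨C0, _, hbet⟩ := hBET
  have hl : 0 < l := by linarith
  obtain ⟨hbs, hb01, hbsp, _, hbint⟩ := hbet l hl a
  have hl3 : (0:ℝ) < l ^ 3 := by positivity
  have hb := hS.pos
  have hbl : 0 < (b * l ^ 3)⁻¹ := by positivity
  -- the integrand
  set G : E × (E × E) → ℝ := fun p => be l a (p.1 - (1 / 3 : ℝ) • (p.2.1 + p.2.2)) * g p.2 with hG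
  have hthd : ∀ x, thd b l g a x = (b * l ^ 3)⁻¹ * ∫ w : E × E, G (x, w) := fun x =>
    (hPT1 b R C l g hS hR hRl a x).2
  have hGi : ∀ x, Integrable (fun w : E × E => G (x, w)) := fun x => (hPT1 b R C l g hS hR hRl a x).1
  have hgi : Integrable g := int_of_ne (by rw [hS.mass]; exact hb.ne')
  have hbi : Integrable (be l a) := int_of_ne (by rw [hbint]; exact hl3.ne')
  have hbc : Continuous (be l a) := hbs.continuous
  have hGc : Continuous G := by
    rw [hG]
    have h1 : Continuous (fun p : E × (E × E) => p.1 - (1 / 3 : ℝ) • (p.2.1 + p.2.2)) := by fun_prop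
    exact (hbc.comp h1).mul (hS.cont.comp continuous_snd)
  have hG0 : ∀ p, 0 ≤ G p := fun p => mul_nonneg (hb01 _).1 (hS.nn _)
  have hGle : ∀ x w, G (x, w) ≤ g w := fun x w => by
    have := mul_le_mul_of_nonneg_right (hb01 (x - (1 / 3 : ℝ) • (w.1 + w.2))).2 (hS.nn w)
    simpa [hG] using this
  -- the integral in the first variable
  have hGx : ∀ w, (fun x => G (x, w)) = fun x => be l a (x - (1 / 3 : ℝ) • (w.1 + w.2)) * g w := fun w => rfl
  have hGxi : ∀ w, Integrable (fun x => G (x, w)) := fun w => by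
    rw [hGx]
    exact (hbi.comp_sub_right _).mul_const _
  have hGxv : ∀ w, ∫ x, G (x, w) = l ^ 3 * g w := fun w => by
    rw [hGx, integral_mul_const, integral_sub_right_eq_self (fun x => be l a x), hbint]
  have hGint : Integrable G ((volume : Measure E).prod (volume : Measure (E × E))) := by
    refine (integrable_prod_iff' hGc.aestronglyMeasurable).2 ⟨Eventually.of_forall hGxi, ?_⟩
    have : (fun w : E × E => ∫ x, ‖G (x, w)‖) = fun w => l ^ 3 * g w := by
      funext w
      rw [← hGxv w]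
      refine integral_congr_ae (Eventually.of_forall fun x => ?_)
      exact Real.norm_of_nonneg (hG0 _)
    rw [this]
    exact hgi.const_mul _
  refine ⟨?_, fun x => ⟨?_, ?_⟩, fun x hx => ?_, ?_⟩
  · have h1 : thd b l g a = fun x => (b * l ^ 3)⁻¹ * ∫ w : E × E, G (x, w) := funext hthd
    rw [h1]
    have h2 : StronglyMeasurable (fun x => ∫ w : E × E, G (x, w)) :=
      (hGc.stronglyMeasurable).integral_prod_right'
    exact h2.measurable.const_mul _
  · rw [hthd]
    exact mul_nonneg hbl.le (integral_nonneg fun w => hG0 _)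
  · rw [hthd]
    have h1 : ∫ w : E × E, G (x, w) ≤ b := by
      rw [← hS.mass]
      exact integral_mono (hGi x) hgi (fun w => hGle x w)
    calc (b * l ^ 3)⁻¹ * ∫ w : E × E, G (x, w) ≤ (b * l ^ 3)⁻¹ * b := mul_le_mul_of_nonneg_left h1 hbl.le
      _ = (l ^ 3)⁻¹ := by field_simp
  · rw [hthd] at hx
    have h1 : ∫ w : E × E, G (x, w) ≠ 0 := fun h => hx (by rw [h, mul_zero])
    have h2 : ∃ w, G (x, w) ≠ 0 := by
      by_contra hcon
      push Not at hcon
      exact h1 (by simp [hcon])
    obtain ⟨w, hw⟩ := h2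
    have hw' : be l a (x - (1 / 3 : ℝ) • (w.1 + w.2)) * g w ≠ 0 := hw
    have hw1 : be l a (x - (1 / 3 : ℝ) • (w.1 + w.2)) ≠ 0 := left_ne_zero_of_mul hw'
    have hw2 : g w ≠ 0 := right_ne_zero_of_mul hw'
    have hwR : ‖w‖ ≤ R := by
      by_contra hcon
      exact hw2 (hS.sp w (not_le.1 hcon))
    have hq := hbsp _ hw1
    intro c
    have hqc := hq c
    have hn1 : |w.1 c| ≤ R := by
      have h3 : ‖w.1 c‖ ≤ ‖w.1‖ := PiLp.norm_apply_le w.1 c
      exact (by simpa using h3 : |w.1 c| ≤ ‖w.1‖).trans ((norm_fst_le w).trans hwR)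
    have hn2 : |w.2 c| ≤ R := by
      have h3 : ‖w.2 c‖ ≤ ‖w.2‖ := PiLp.norm_apply_le w.2 c
      exact (by simpa using h3 : |w.2 c| ≤ ‖w.2‖).trans ((norm_snd_le w).trans hwR)
    have he : (x - (1 / 3 : ℝ) • (w.1 + w.2)) c = x c - (1 / 3) * (w.1 c + w.2 c) := by
      simp only [PiLp.sub_apply, PiLp.smul_apply, PiLp.add_apply, smul_eq_mul]
    rw [he] at hqc
    rw [abs_le] at *
    constructor <;> linarith [hqc.1, hqc.2, hn1.1, hn1.2, hn2.1, hn2.2]
  · have h1 : (fun x => thd b l g a x) = fun x => (b * l ^ 3)⁻¹ * ∫ w : E × E, G (x, w) := funext hthd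
    rw [h1, integral_const_mul]
    have h2 : ∫ x, ∫ w : E × E, G (x, w) = ∫ w : E × E, ∫ x, G (x, w) :=
      integral_integral_swap (f := fun x w => G (x, w)) hGint
    rw [h2]
    have h3 : (fun w : E × E => ∫ x, G (x, w)) = fun w => l ^ 3 * g w := funext hGxv
    rw [h3, integral_const_mul, hS.mass]
    field_simp

end Pool.Agent.TBK
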