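import Pool.Agent.TBK.Stmts

set_option autoImplicit false

open MeasureTheory Filter Topology
open scoped ContDiff

namespace Pool.Agent.TBK

open Pool.Agent.TBG Pool.Agent.TBL Pool.Agent.TBF Pool.Agent.TBS

theorem pt3_proof (hBET : Stmt_BET) : Stmt_PT3 := by
  intro b R C l g hg hR hRl a
  obtain ⟨C₁, -, hB⟩ := hBET
  have hl : 0 < l := lt_of_lt_of_le (by linarith) hRl
  have hR0 : 0 < R := by linarith
  obtain ⟨hBs, hB0, hBn, -, -⟩ := hB l hl a
  have hb := hg.pos
  have hk : 0 ≤ (b * l ^ 3)⁻¹ := by positivity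
  have hgu : ∀ z, g z ≤ C / R ^ 6 := by
    intro z
    rw [le_div_iff₀ (by positivity), mul_comm]
    exact hg.gb z
  have hnn : ∀ x y z, 0 ≤ Pd b l g a x y z := by
    intro x y z
    unfold Pd
    exact mul_nonneg hk (mul_nonneg (hB0 _).1 (hg.nn _))
  have hub : ∀ x y z, Pd b l g a x y z ≤ C / b / (l ^ 3 * R ^ 6) := by
    intro x y z
    unfold Pd
    have h1 : be l a ((1 / 3 : ℝ) • (x + y + z)) * g (x - y, x - z) ≤ 1 * (C / R ^ 6) :=
      mul_le_mul (hB0 _).2 (hgu _) (hg.nn _) (by norm_num)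
    calc (b * l ^ 3)⁻¹ * (be l a ((1 / 3 : ℝ) • (x + y + z)) * g (x - y, x - z))
        ≤ (b * l ^ 3)⁻¹ * (1 * (C / R ^ 6)) := mul_le_mul_of_nonneg_left h1 hk
      _ = C / b / (l ^ 3 * R ^ 6) := by field_simp
  refine ⟨⟨?_, ?_⟩, ⟨?_, C / b / (l ^ 3 * R ^ 6), fun p => ?_⟩, fun x y z => ⟨hnn x y z, hub x y z⟩, ?_⟩
  · intro x y z
    unfold Pd
    rw [hg.sy2 (x - y) (x - z)]
    have e1 : -(x - y) = y - x := by abel
    have e2 : x - z - (x - y) = y - z := by abel
    have e3 : x + y + z = y + x + z := by abel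
    rw [e1, e2, e3]
  · intro x y z
    unfold Pd
    rw [hg.sy1 (x - y) (x - z)]
    have e3 : x + y + z = x + z + y := by abel
    rw [e3]
  · have hc : Continuous (fun p : E × E × E => Pd b l g a p.1 p.2.1 p.2.2) := by
      unfold Pd
      refine continuous_const.mul (Continuous.mul ?_ ?_)
      · exact hBs.continuous.comp (by fun_prop)
      · exact hg.cont.comp (by fun_prop)
    exact hc.measurable
  · show |Pd b l g a p.1 p.2.1 p.2.2| ≤ _
    rw [abs_of_nonneg (hnn _ _ _)]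
    exact hub _ _ _
  · intro x y z h
    unfold Pd at h
    have h1 : be l a ((1 / 3 : ℝ) • (x + y + z)) ≠ 0 := fun h0 => h (by rw [h0]; ring)
    have h2 : g (x - y, x - z) ≠ 0 := fun h0 => h (by rw [h0]; ring)
    have h3 : ‖((x - y, x - z) : E × E)‖ ≤ R := by
      by_contra h4
      push Not at h4
      exact h2 (hg.sp _ h4)
    rw [Prod.norm_def] at h3
    have h5 : ‖x - y‖ ≤ R := (le_max_left _ _).trans h3
    have h6 : ‖x - z‖ ≤ R := (le_max_right _ _).trans h3
    refine ⟨?_, h5, h6⟩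
    intro c
    have h7 := hBn _ h1 c
    have h8 : |(x - y) c| ≤ R := (PiLp.norm_apply_le (x - y) c).trans h5
    have h9 : |(x - z) c| ≤ R := (PiLp.norm_apply_le (x - z) c).trans h6
    have e : ((1 / 3 : ℝ) • (x + y + z)) c = 1 / 3 * (x c + y c + z c) := by
      simp
      ring
    rw [e] at h7
    have e1 : (x - y) c = x c - y c := by simp
    have e2 : (x - z) c = x c - z c := by simp
    rw [e1] at h8
    rw [e2] at h9
    rw [abs_le] at h7 h8 h9 ⊢
    constructor <;> linarith [h7.1, h7.2, h8.1, h8.2, h9.1, h9.2]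

end Pool.Agent.TBK
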