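import Pool.Agent.TBK.Stmts

set_option autoImplicit false

open MeasureTheory Filter Topology
open scoped ContDiff

namespace Pool.Agent.TBK

open Pool.Agent.TBG Pool.Agent.TBL Pool.Agent.TBF Pool.Agent.TBS

namespace PUN_

theorem cc_apply (l : ℝ) (Mc : ℕ) (k : Fin 3 → Fin Mc) (c : Fin 3) :
    cc l Mc k c = -((Mc : ℝ) * l / 2) + ((k c : ℕ) : ℝ) * l + l / 2 := by
  unfold cc crn
  simp

theorem cc_inj (l : ℝ) (Mc : ℕ) (hl : 0 < l) : Function.Injective (cc l Mc) := by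
  intro k k' h
  funext c
  have h1 : cc l Mc k c = cc l Mc k' c := by rw [h]
  rw [cc_apply, cc_apply] at h1
  have h2 : ((k c : ℕ) : ℝ) * l = ((k' c : ℕ) : ℝ) * l := by linarith
  have h3 := mul_right_cancel₀ hl.ne' h2
  exact Fin.ext (by exact_mod_cast h3)

theorem Gr_sum (Mc : ℕ) (l R M : ℝ) (hl : 0 < l) (f : E → ℝ) :
    ∑ a ∈ (gpar Mc l R M).Gr, f a =
      ∑ k ∈ Finset.univ.filter (fun k : Fin 3 → Fin Mc => ∀ c, 11 ≤ (k c : ℕ) ∧ (k c : ℕ) + 11 ≤ Mc),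
        f (cc l Mc k) := by
  classical
  unfold gpar
  exact Finset.sum_image (fun a _ b _ h => cc_inj l Mc hl h)

/-- the coordinate -/
noncomputable def tc (l : ℝ) (Mc : ℕ) (x : E) (c : Fin 3) : ℝ := (x c + (Mc : ℝ) * l / 2) / l - 1 / 2

theorem be_cc (l : ℝ) (Mc : ℕ) (hl : 0 < l) (k : Fin 3 → Fin Mc) (x : E) :
    be l (cc l Mc k) x = ∏ c, hb (tc l Mc x c - ((k c : ℕ) : ℝ)) := by
  unfold be tc
  refine Finset.prod_congr rfl fun c _ => ?_
  rw [cc_apply]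
  congr 1
  field_simp
  ring

theorem sum_Gr (Mc : ℕ) (l R M : ℝ) (hl : 0 < l) (x : E) :
    ∑ a ∈ (gpar Mc l R M).Gr, be l a x =
      ∏ c, ∑ n ∈ Finset.Ico 11 (Mc - 10), hb (tc l Mc x c - (n : ℝ)) := by
  rw [Gr_sum Mc l R M hl]
  simp only [be_cc l Mc hl]
  have e : (Finset.univ.filter (fun k : Fin 3 → Fin Mc => ∀ c, 11 ≤ (k c : ℕ) ∧ (k c : ℕ) + 11 ≤ Mc)) =
      Fintype.piFinset (fun _ : Fin 3 =>
        Finset.univ.filter (fun n : Fin Mc => 11 ≤ (n : ℕ) ∧ (n : ℕ) + 11 ≤ Mc)) := by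
    ext k
    simp
  rw [e, ← Finset.prod_univ_sum (fun _ : Fin 3 =>
    Finset.univ.filter (fun n : Fin Mc => 11 ≤ (n : ℕ) ∧ (n : ℕ) + 11 ≤ Mc))
    (fun c n => hb (tc l Mc x c - ((n : ℕ) : ℝ)))]
  refine Finset.prod_congr rfl fun c _ => ?_
  refine Finset.sum_bij (fun n _ => (n : ℕ)) ?_ ?_ ?_ ?_
  · intro n hn
    simp only [Finset.mem_filter, Finset.mem_univ, true_and] at hn
    rw [Finset.mem_Ico]
    omega
  · intro a _ b _ h
    exact Fin.ext h
  · intro n hn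
    rw [Finset.mem_Ico] at hn
    refine ⟨⟨n, by omega⟩, ?_, rfl⟩
    simp only [Finset.mem_filter, Finset.mem_univ, true_and]
    omega
  · intro n _
    rfl

end PUN_

open PUN_ in
theorem pun_proof (hHBU : Stmt_HBU) : Stmt_PUN := by
  obtain ⟨-, hb01, -, -, -, htel⟩ := hHBU
  intro Mc l R M hl
  refine ⟨?_, ?_⟩
  · intro x
    rw [sum_Gr Mc l R M hl]
    refine Finset.prod_le_one (fun c _ => Finset.sum_nonneg fun n _ => (hb01 _).1) fun c _ => ?_
    by_cases h : 11 ≤ Mc - 10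
    · rw [htel _ _ _ h]
      have h1 := Real.smoothTransition.le_one (tc l Mc x c - (11 : ℕ) + 1)
      have h2 := Real.smoothTransition.nonneg (tc l Mc x c - ((Mc - 10 : ℕ) : ℝ) + 1)
      linarith
    · rw [Finset.Ico_eq_empty_of_le (by omega)]
      simp
  · intro k hk x hx
    rw [sum_Gr Mc l R M hl]
    refine Finset.prod_eq_one fun c _ => ?_
    obtain ⟨h1, h2⟩ := hk c
    have h : 11 ≤ Mc - 10 := by omega
    rw [htel _ _ _ h]
    have hxc : |x c - cc l Mc k c| ≤ l := hx c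
    rw [cc_apply, abs_le] at hxc
    have e1 : tc l Mc x c - ((k c : ℕ) : ℝ) =
        (x c - (-((Mc : ℝ) * l / 2) + ((k c : ℕ) : ℝ) * l + l / 2)) / l := by
      unfold tc
      field_simp
      ring
    have b1 : -1 ≤ tc l Mc x c - ((k c : ℕ) : ℝ) := by
      rw [e1, le_div_iff₀ hl]
      linarith [hxc.1]
    have b2 : tc l Mc x c - ((k c : ℕ) : ℝ) ≤ 1 := by
      rw [e1, div_le_iff₀ hl]
      linarith [hxc.2]
    have c1 : (13 : ℝ) ≤ ((k c : ℕ) : ℝ) := by exact_mod_cast h1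
    have c2 : ((k c : ℕ) : ℝ) + 13 ≤ (Mc : ℝ) := by exact_mod_cast h2
    have c3 : ((Mc - 10 : ℕ) : ℝ) = (Mc : ℝ) - 10 := by
      rw [Nat.cast_sub (by omega)]
      norm_num
    rw [c3, Real.smoothTransition.one_of_one_le (by push_cast; linarith),
      Real.smoothTransition.zero_of_nonpos (by linarith)]
    norm_num

end Pool.Agent.TBK
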