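import Pool.Agent.TBK.Stmts

set_option autoImplicit false

open MeasureTheory Filter Topology
open scoped ContDiff

namespace Pool.Agent.TBK

open Pool.Agent.TBG Pool.Agent.TBL Pool.Agent.TBF Pool.Agent.TBS

namespace SUM_

/-- coordinates are bounded by the norm -/
lemma coord (v : Pool.Agent.TBG.E) (c : Fin 3) : |v c| ≤ ‖v‖ := by
  have := PiLp.norm_apply_le v c
  rwa [Real.norm_eq_abs] at this

lemma cc_apply (l : ℝ) (Mc : ℕ) (k : Fin 3 → Fin Mc) (c : Fin 3) :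
    cc l Mc k c = -((Mc : ℝ) * l / 2) + ((k c : ℕ) : ℝ) * l + l / 2 := by
  simp [cc, crn]

/-- one coordinate: the neighbouring cell -/
lemma one {l t : ℝ} (_hl : 0 < l) (Mc n : ℕ) (hn : 14 ≤ n) (hn' : n + 14 ≤ Mc)
    (ht : |t - (n : ℝ) * l| ≤ 7 / 6 * l) :
    ∃ m : ℕ, 13 ≤ m ∧ m + 13 ≤ Mc ∧ |t - (m : ℝ) * l| ≤ l := by
  have h := abs_le.1 ht
  by_cases h1 : t - (n : ℝ) * l > l
  · refine ⟨n + 1, by omega, by omega, ?_⟩
    push_cast
    rw [abs_le]
    constructor <;> nlinarith [h.1, h.2]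
  · by_cases h2 : t - (n : ℝ) * l < -l
    · refine ⟨n - 1, by omega, by omega, ?_⟩
      have h3 : ((n - 1 : ℕ) : ℝ) = (n : ℝ) - 1 := by
        rw [Nat.cast_sub (by omega)]; norm_num
      rw [h3, abs_le]
      constructor <;> nlinarith [h.1, h.2]
    · refine ⟨n, by omega, by omega, ?_⟩
      rw [abs_le]
      constructor <;> linarith

end SUM_

open SUM_ in
theorem sum_proof (_hBET : Stmt_BET) (hPUN : Stmt_PUN) (hPT1 : Stmt_PT1) : Stmt_SUM := by
  intro b R C l g hS hR hRl Mc R' M k hk x hx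
  have hl : 0 < l := by linarith
  have hb : 0 < b := hS.pos
  have hpun := (hPUN Mc l R' M hl).2
  have hpt := fun a => hPT1 b R C l g hS hR hRl a x
  have h1 : ∑ a ∈ (gpar Mc l R' M).Gr, thd b l g a x =
      (b * l ^ 3)⁻¹ * ∫ w : Pool.Agent.TBG.E × Pool.Agent.TBG.E,
        ∑ a ∈ (gpar Mc l R' M).Gr, be l a (x - (1 / 3 : ℝ) • (w.1 + w.2)) * g w := by
    rw [integral_finsetSum _ (fun a _ => (hpt a).1), Finset.mul_sum]
    exact Finset.sum_congr rfl (fun a _ => (hpt a).2)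
  have h2 : ∀ w : Pool.Agent.TBG.E × Pool.Agent.TBG.E,
      ∑ a ∈ (gpar Mc l R' M).Gr, be l a (x - (1 / 3 : ℝ) • (w.1 + w.2)) * g w = g w := by
    intro w
    rw [← Finset.sum_mul]
    by_cases hg : g w = 0
    · rw [hg, mul_zero]
    · have hw : ‖w‖ ≤ R := by
        by_contra hc
        push Not at hc
        exact hg (hS.sp w hc)
      have hw1 : ‖w.1‖ ≤ l := le_trans (norm_fst_le w) (le_trans hw hRl)
      have hw2 : ‖w.2‖ ≤ l := le_trans (norm_snd_le w) (le_trans hw hRl)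
      have hy : ∀ c, |((x - (1 / 3 : ℝ) • (w.1 + w.2)) c + (Mc : ℝ) * l / 2 - l / 2) - ((k c : ℕ) : ℝ) * l| ≤
          7 / 6 * l := by
        intro c
        have e1 : (x - (1 / 3 : ℝ) • (w.1 + w.2)) c = x c - (1 / 3) * (w.1 c + w.2 c) := by
          rw [PiLp.sub_apply, PiLp.smul_apply, PiLp.add_apply, smul_eq_mul]
        have a1 := abs_le.1 (le_trans (coord w.1 c) hw1)
        have a2 := abs_le.1 (le_trans (coord w.2 c) hw2)
        have a3 := hx c
        have e2 : (crn l Mc k) c = -((Mc : ℝ) * l / 2) + ((k c : ℕ) : ℝ) * l := by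
          simp [crn]
        rw [e2] at a3
        rw [e1, abs_le]
        constructor <;> linarith [a1.1, a1.2, a2.1, a2.2, a3.1, a3.2]
      have hex : ∀ c, ∃ m : ℕ, 13 ≤ m ∧ m + 13 ≤ Mc ∧
          |((x - (1 / 3 : ℝ) • (w.1 + w.2)) c + (Mc : ℝ) * l / 2 - l / 2) - (m : ℝ) * l| ≤ l :=
        fun c => one hl Mc (k c : ℕ) (hk c).1 (hk c).2 (hy c)
      choose m hm1 hm2 hm3 using hex
      have hlt : ∀ c, m c < Mc := fun c => by have := hm2 c; omega
      have hq : (x - (1 / 3 : ℝ) • (w.1 + w.2)) ∈ Qb (cc l Mc (fun c => (⟨m c, hlt c⟩ : Fin Mc))) l := by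
        intro c
        rw [cc_apply]
        have h3 := hm3 c
        have e3 : (x - (1 / 3 : ℝ) • (w.1 + w.2)) c - (-((Mc : ℝ) * l / 2) +
            (((⟨m c, hlt c⟩ : Fin Mc) : ℕ) : ℝ) * l + l / 2) =
            ((x - (1 / 3 : ℝ) • (w.1 + w.2)) c + (Mc : ℝ) * l / 2 - l / 2) - (m c : ℝ) * l := by
          ring
        rw [e3]
        exact h3
      rw [hpun (fun c => (⟨m c, hlt c⟩ : Fin Mc)) (fun c => ⟨hm1 c, hm2 c⟩) _ hq, one_mul]
  rw [h1]
  simp_rw [h2]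
  rw [hS.mass]
  have hl3 : l ^ 3 ≠ 0 := by positivity
  have hb' : b ≠ 0 := hb.ne'
  field_simp

end Pool.Agent.TBK
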