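import Pool.Agent.TBK.Stmts

/-!
# Three-body Bose gases (MP_80dc41_mp), kernels, SY4: symmetrisation of the products of gradients
-/

set_option autoImplicit false

open MeasureTheory Filter Topology
open scoped ContDiff

namespace Pool.Agent.TBK

open Pool.Agent.TBG Pool.Agent.TBL Pool.Agent.TBF Pool.Agent.TBS

namespace SY4_

/-- the base function -/
noncomputable def HH (φ : E × E → ℝ) (q : W4) : ℝ :=
  ∑ c, dv (dr 0 c) φ (q.1, q.2.1) * dv (dr 0 c) φ (q.1, q.2.2)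

/-- the terms -/
noncomputable def TT (φ : E × E → ℝ) (m j i : Fin 4) (p : W4) : ℝ :=
  ∑ c, dv (d4 i c) (fun p => φ (pm m p)) p * dv (d4 i c) (fun p => φ (pm j p)) p

theorem pm3 (p : W4) : pm 3 p = (p.1, p.2.1) := by
  have h0 : (3 : Fin 4).succAbove 0 = 0 := by decide
  have h1 : (3 : Fin 4).succAbove 1 = 1 := by decide
  have h2 : (3 : Fin 4).succAbove 2 = 2 := by decide
  unfold pm
  rw [h0, h1, h2]
  simp [cf]

theorem pm2 (p : W4) : pm 2 p = (p.1, p.2.2) := by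
  have h0 : (2 : Fin 4).succAbove 0 = 0 := by decide
  have h1 : (2 : Fin 4).succAbove 1 = 1 := by decide
  have h2 : (2 : Fin 4).succAbove 2 = 3 := by decide
  unfold pm
  rw [h0, h1, h2]
  simp [cf]

theorem exσ : ∀ m j i : Fin 4, j ≠ m → i ≠ m → i ≠ j →
    ∃ σ : Equiv.Perm (Fin 4), σ 3 = m ∧ σ 2 = j ∧ σ 0 = i := by decide

theorem dv_cont {W : Type} [NormedAddCommGroup W] [NormedSpace ℝ W] (v : W) (f : W → ℝ)
    (hf : ContDiff ℝ ∞ f) : Continuous (dv v f) := by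
  unfold dv
  exact (hf.continuous_fderiv (by simp)).clm_apply continuous_const

theorem HH_int (hTAI : Stmt_TAI) (φ : E × E → ℝ) (hφ : ContDiff ℝ ∞ φ) (C : ℝ) (hC : 0 < C)
    (hb : ∀ m c z, |dv (dr m c) φ z| ≤ C * ((1 + ‖z‖) ^ 5)⁻¹) : Integrable (HH φ) := by
  obtain ⟨c, hc, H⟩ := hTAI
  have hmeas : Measurable (HH φ) := by
    apply Continuous.measurable
    unfold HH
    refine continuous_finset_sum _ (fun c _ => ?_)
    have hd := dv_cont (dr 0 c) φ hφ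
    exact (hd.comp (by fun_prop)).mul (hd.comp (by fun_prop))
  have hbd : ∀ q, |HH φ q| ≤ 3 * C ^ 2 * G5 q := by
    intro q
    unfold HH
    refine (Finset.abs_sum_le_sum_abs _ _).trans ?_
    have h1 : ∀ c : Fin 3, |dv (dr 0 c) φ (q.1, q.2.1) * dv (dr 0 c) φ (q.1, q.2.2)| ≤ C ^ 2 * G5 q := by
      intro c
      rw [abs_mul]
      refine (mul_le_mul (hb 0 c _) (hb 0 c _) (abs_nonneg _) (by positivity)).trans (le_of_eq ?_)
      unfold G5
      ring
    refine (Finset.sum_le_sum (fun c _ => h1 c)).trans (le_of_eq ?_)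
    simp
    ring
  have h3 : 0 < 3 * C ^ 2 := by positivity
  have := (H 1 le_rfl (fun q => (3 * C ^ 2)⁻¹ * HH φ q) (hmeas.const_mul _) (fun q => by
    rw [abs_mul, abs_of_pos (inv_pos.mpr h3)]
    calc (3 * C ^ 2)⁻¹ * |HH φ q| ≤ (3 * C ^ 2)⁻¹ * (3 * C ^ 2 * G5 q) :=
          mul_le_mul_of_nonneg_left (hbd q) (inv_pos.mpr h3).le
      _ = G5 q := by field_simp) (fun q _ => Or.inl (by linarith [norm_nonneg (q.1, q.2.1)]))).1
  have h4 := this.const_mul (3 * C ^ 2)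
  refine h4.congr (Filter.Eventually.of_forall (fun q => ?_))
  show 3 * C ^ 2 * ((3 * C ^ 2)⁻¹ * HH φ q) = HH φ q
  field_simp

theorem TT_self_left (hDER : Pool.Agent.TBF.Stmt_DER) (φ : E × E → ℝ) (hφ : ContDiff ℝ ∞ φ) (m j : Fin 4) (p : W4) :
    TT φ m j m p = 0 := by
  unfold TT
  refine Finset.sum_eq_zero (fun c _ => ?_)
  rw [(hDER φ m hφ).2.1 c p, zero_mul]

theorem TT_self_right (hDER : Pool.Agent.TBF.Stmt_DER) (φ : E × E → ℝ) (hφ : ContDiff ℝ ∞ φ) (m j : Fin 4) (p : W4) :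
    TT φ m j j p = 0 := by
  unfold TT
  refine Finset.sum_eq_zero (fun c _ => ?_)
  rw [(hDER φ j hφ).2.1 c p, mul_zero]

theorem HH_eq (hDER : Pool.Agent.TBF.Stmt_DER) (φ : E × E → ℝ) (hφ : ContDiff ℝ ∞ φ) (q : W4) :
    HH φ q = ∑ c, dv (d4 0 c) (fun p => φ (pm 3 p)) q * dv (d4 0 c) (fun p => φ (pm 2 p)) q := by
  have h3 : (3 : Fin 4).succAbove 0 = 0 := by decide
  have h2 : (2 : Fin 4).succAbove 0 = 0 := by decide
  unfold HH
  refine Finset.sum_congr rfl (fun c _ => ?_)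
  have e3 := (hDER φ 3 hφ).2.2.1 0 c q
  have e2 := (hDER φ 2 hφ).2.2.1 0 c q
  rw [h3, pm3] at e3
  rw [h2, pm2] at e2
  rw [e3, e2]

theorem TT_perm (hRLS : Pool.Agent.TBF.Stmt_RLS) (hDER : Pool.Agent.TBF.Stmt_DER) (hDVP : Pool.Agent.TBF.Stmt_DVP)
    (φ : E × E → ℝ) (hφ : ContDiff ℝ ∞ φ)
    (s1 : ∀ x y, φ (x, y) = φ (y, x)) (s2 : ∀ x y, φ (x, y) = φ (-x, y - x)) (σ : Equiv.Perm (Fin 4)) (p : W4) :
    TT φ (σ 3) (σ 2) (σ 0) p = HH φ (Pm σ p) := by
  rw [HH_eq hDER φ hφ]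
  unfold TT
  refine Finset.sum_congr rfl (fun c _ => ?_)
  have key : ∀ m : Fin 4, dv (d4 (σ 0) c) (fun p => φ (pm (σ m) p)) p
      = dv (d4 0 c) (fun p => φ (pm m p)) (Pm σ p) := by
    intro m
    have e1 : (fun p => φ (pm (σ m) p)) = (fun p => (fun p => φ (pm m p)) (Pm σ p)) := by
      funext p
      exact (hRLS.1 φ s1 s2 σ m p).symm
    rw [e1, (hDVP (fun p => φ (pm m p)) σ (hDER φ m hφ).1).2.1 (σ 0) c p]
    simp
  rw [key 3, key 2]

theorem count : (∑ m : Fin 4, ∑ j ∈ Finset.univ.erase m, ∑ i : Fin 4, if i ≠ m ∧ i ≠ j then 1 else 0 : ℕ) = 24 := by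
  decide

end SY4_

open SY4_ in
theorem sy4_proof (_hRLP : Pool.Agent.TBF.Stmt_RLP) (_hRLD : Pool.Agent.TBF.Stmt_RLD)
    (hRLS : Pool.Agent.TBF.Stmt_RLS) (hPMV : Pool.Agent.TBF.Stmt_PMV) (hDER : Pool.Agent.TBF.Stmt_DER)
    (hDVP : Pool.Agent.TBF.Stmt_DVP) (hSCB : Pool.Agent.TBF.Stmt_SCB) (hTAI : Stmt_TAI) : Stmt_SY4 := by
  intro φ hs
  have hφ : ContDiff ℝ ∞ φ := hs.smooth
  have s1 := hs.sy1
  have s2 := hs.sy2
  obtain ⟨C, hC, -, hb, -⟩ := hSCB φ hs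
  have hI : Integrable (HH φ) := HH_int hTAI φ hφ C hC hb
  -- the terms
  have key : ∀ m j i : Fin 4, j ≠ m → Integrable (TT φ m j i) ∧
      ∫ p, TT φ m j i p = ((if i ≠ m ∧ i ≠ j then 1 else 0 : ℕ) : ℝ) * ∫ q, HH φ q := by
    intro m j i hjm
    by_cases him : i = m
    · subst him
      have h0 : TT φ i j i = fun _ => 0 := funext (fun p => TT_self_left hDER φ hφ i j p)
      rw [h0]
      simp
    by_cases hij : i = j
    · subst hij
      have h0 : TT φ m i i = fun _ => 0 := funext (fun p => TT_self_right hDER φ hφ m i p)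
      rw [h0]
      simp
    obtain ⟨σ, r3, r2, r0⟩ := exσ m j i hjm him hij
    have h0 : TT φ m j i = fun p => HH φ (Pm σ p) := by
      funext p
      rw [← r3, ← r2, ← r0]
      exact TT_perm hRLS hDER hDVP φ hφ s1 s2 σ p
    rw [h0]
    refine ⟨(hPMV σ).2.2 _ hI, ?_⟩
    rw [(hPMV σ).2.1 (HH φ)]
    simp [him, hij]
  have e1 : (fun p => ∑ m, ∑ j ∈ Finset.univ.erase m, gdt (fun p => φ (pm m p)) (fun p => φ (pm j p)) p)
      = fun p => ∑ m, ∑ j ∈ Finset.univ.erase m, ∑ i, TT φ m j i p := by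
    funext p
    rfl
  rw [e1, integral_finset_sum]
  · have e2 : ∀ m : Fin 4, ∫ p, ∑ j ∈ Finset.univ.erase m, ∑ i, TT φ m j i p
        = ∑ j ∈ Finset.univ.erase m, ∑ i : Fin 4, ((if i ≠ m ∧ i ≠ j then 1 else 0 : ℕ) : ℝ) * ∫ q, HH φ q := by
      intro m
      rw [integral_finset_sum]
      · refine Finset.sum_congr rfl (fun j hj => ?_)
        have hjm : j ≠ m := (Finset.mem_erase.mp hj).1
        rw [integral_finset_sum]
        · exact Finset.sum_congr rfl (fun i _ => (key m j i hjm).2)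
        · intro i _
          exact (key m j i hjm).1
      · intro j hj
        have hjm : j ≠ m := (Finset.mem_erase.mp hj).1
        exact integrable_finset_sum _ (fun i _ => (key m j i hjm).1)
    rw [Finset.sum_congr rfl (fun m _ => e2 m)]
    have e3 : ∑ m : Fin 4, ∑ j ∈ Finset.univ.erase m, ∑ i : Fin 4,
        ((if i ≠ m ∧ i ≠ j then 1 else 0 : ℕ) : ℝ) * ∫ q, HH φ q
        = ((∑ m : Fin 4, ∑ j ∈ Finset.univ.erase m, ∑ i : Fin 4, if i ≠ m ∧ i ≠ j then 1 else 0 : ℕ) : ℝ)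
          * ∫ q, HH φ q := by
      push_cast
      simp only [Finset.sum_mul]
    rw [e3, count]
    norm_num
    rfl
  · intro m _
    refine integrable_finset_sum _ (fun j hj => ?_)
    have hjm : j ≠ m := (Finset.mem_erase.mp hj).1
    exact integrable_finset_sum _ (fun i _ => (key m j i hjm).1)

end Pool.Agent.TBK
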