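import Pool.Agent.TBK.Stmts

set_option autoImplicit false

open MeasureTheory Filter Topology
open scoped ContDiff

namespace Pool.Agent.TBK

open Pool.Agent.TBG Pool.Agent.TBL Pool.Agent.TBF Pool.Agent.TBS

namespace SY5_

lemma exists_perm : ∀ m j : Fin 4, j ≠ m → ∃ σ : Equiv.Perm (Fin 4), σ 0 = m ∧ σ 3 = j := by
  decide

end SY5_

open SY5_ in
theorem sy5_proof (_hRLP : Pool.Agent.TBF.Stmt_RLP) (_hRLD : Pool.Agent.TBF.Stmt_RLD)
    (hRLS : Pool.Agent.TBF.Stmt_RLS) (hPMV : Pool.Agent.TBF.Stmt_PMV)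
    (hDER : Pool.Agent.TBF.Stmt_DER) (hDVP : Pool.Agent.TBF.Stmt_DVP)
    (hALG : Pool.Agent.TBF.Stmt_ALG) : Stmt_SY5 := by
  intro C φ y l Y g₄ hφ hD
  have hF : ∀ j : Fin 4, ContDiff ℝ ∞ (fun p : W4 => φ (pm j p)) := fun j =>
    (hDER φ j hφ.smooth).1
  obtain ⟨G, hG⟩ : ∃ G : Fin 3 → W4 → ℝ, G = fun c q =>
      dv (d4 0 c) (fun p => φ (pm 3 p)) q * Y 0 c q := ⟨_, rfl⟩
  -- the value of `G`
  have hGv : ∀ c q, G c q = dv (dr 0 c) φ (q.1, q.2.1) * Y 0 c q := by
    intro c q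
    have h1 := (hDER φ 3 hφ.smooth).2.2.1 0 c q
    have h2 : (Fin.succAbove (3 : Fin 4) 0) = 0 := by decide
    rw [h2] at h1
    have h3 : pm 3 q = (q.1, q.2.1) := by
      have h4 : (Fin.succAbove (3 : Fin 4) 1) = 1 := by decide
      have h5 : (Fin.succAbove (3 : Fin 4) 2) = 2 := by decide
      rw [pm, h2, h4, h5]
      simp [cf]
    rw [hG]
    simp only
    rw [h1, h3]
  -- integrability
  have hGi : ∀ c, Integrable (G c) := by
    intro c
    have hcont : Continuous (G c) := by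
      rw [hG]
      exact ((hALG _ _ (hF 3) (hF 3)).2.2.2.1 (d4 0 c)).continuous.mul (hD.smY 0 c).continuous
    refine hcont.integrable_of_hasCompactSupport ?_
    refine HasCompactSupport.intro (isCompact_closedBall (0 : W4) l) fun q hq => ?_
    have h1 : l < ‖q‖ := by simpa using hq
    rw [hGv, hD.spY 0 c q h1, mul_zero]
  -- one term
  have hterm : ∀ m j c, j ≠ m → ∃ σ : Equiv.Perm (Fin 4), ∀ p,
      dv (d4 m c) (fun p => φ (pm j p)) p * Y m c p = G c (Pm σ p) := by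
    intro m j c hj
    obtain ⟨σ, h0, h3⟩ := exists_perm m j hj
    refine ⟨σ, fun p => ?_⟩
    have e1 : (fun p => φ (pm j p)) = fun p => φ (pm 3 (Pm σ p)) := by
      funext p
      rw [hRLS.1 φ hφ.sy1 hφ.sy2 σ 3 p, h3]
    have e2 := (hDVP (fun p => φ (pm 3 p)) σ (hF 3)).2.1 m c p
    have e3 : σ⁻¹ m = 0 := by rw [← h0]; simp
    rw [e3] at e2
    have e4 := hD.eqv σ 0 c p
    rw [h0] at e4
    rw [e1, hG]
    simp only
    rw [e2, e4]
  have hz : ∀ m c p, dv (d4 m c) (fun p => φ (pm m p)) p = 0 := fun m c p =>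
    (hDER φ m hφ.smooth).2.1 c p
  -- derivative of the sum
  have hsum : ∀ m c p, dv (d4 m c) (Ph φ) p = ∑ j, dv (d4 m c) (fun p => φ (pm j p)) p := by
    intro m c p
    unfold dv
    have h1 : fderiv ℝ (Ph φ) p = ∑ j, fderiv ℝ (fun p => φ (pm j p)) p := by
      have : Ph φ = fun p => ∑ j, φ (pm j p) := rfl
      rw [this, fderiv_fun_sum]
      intro j _
      exact ((hF j).differentiable (by simp)) p
    rw [h1, sum_apply]
  have hone : ∀ m c j, ∫ p, dv (d4 m c) (fun p => φ (pm j p)) p * Y m c p =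
      if j = m then 0 else ∫ q, G c q := by
    intro m c j
    split_ifs with h
    · subst h; simp [hz]
    · obtain ⟨σ, hσ⟩ := hterm m j c h
      simp_rw [hσ]
      exact (hPMV σ).2.1 (G c)
  have hint : ∀ m c j, Integrable (fun p => dv (d4 m c) (fun p => φ (pm j p)) p * Y m c p) := by
    intro m c j
    by_cases h : j = m
    · subst h; simp [hz]
    · obtain ⟨σ, hσ⟩ := hterm m j c h
      simp_rw [hσ]
      exact (hPMV σ).2.2 (G c) (hGi c)
  have hL : ∀ p, ∑ m, ∑ c, dv (d4 m c) (Ph φ) p * Y m c p =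
      ∑ m, ∑ c, ∑ j, dv (d4 m c) (fun p => φ (pm j p)) p * Y m c p := by
    intro p
    simp_rw [hsum, Finset.sum_mul]
  simp_rw [hL]
  rw [integral_finsetSum _ (fun m _ => integrable_finsetSum _ fun c _ =>
    integrable_finsetSum _ fun j _ => hint m c j)]
  have h1 : ∀ m, ∫ p, ∑ c, ∑ j, dv (d4 m c) (fun p => φ (pm j p)) p * Y m c p =
      3 * ∑ c, ∫ q, G c q := by
    intro m
    rw [integral_finsetSum _ (fun c _ => integrable_finsetSum _ fun j _ => hint m c j),
      Finset.mul_sum]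
    refine Finset.sum_congr rfl fun c _ => ?_
    rw [integral_finsetSum _ (fun j _ => hint m c j)]
    simp_rw [hone]
    rw [Finset.sum_ite, Finset.sum_const_zero, zero_add, Finset.sum_const, nsmul_eq_mul]
    have : (Finset.univ.filter fun x : Fin 4 => ¬ x = m).card = 3 := by
      revert m; decide
    rw [this]; norm_num
  simp_rw [h1]
  rw [Finset.sum_const, Finset.card_univ, Fintype.card_fin, nsmul_eq_mul]
  have h2 : ∫ q : W4, ∑ c, dv (dr 0 c) φ (q.1, q.2.1) * Y 0 c q = ∑ c, ∫ q, G c q := by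
    simp_rw [← hGv]
    exact integral_finsetSum _ fun c _ => hGi c
  rw [h2]
  push_cast
  ring

end Pool.Agent.TBK
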