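import Pool.Agent.TBK.Stmts

/-!
Squad TBK, module SY6: symmetrisation.
-/

set_option autoImplicit false

open MeasureTheory Filter Topology
open scoped ContDiff

namespace Pool.Agent.TBK

open Pool.Agent.TBG Pool.Agent.TBL Pool.Agent.TBF Pool.Agent.TBS

namespace SY6_

theorem pm_three (q : W4) : pm 3 q = (q.1, q.2.1) := by
  have e0 : (3 : Fin 4).succAbove 0 = 0 := by decide
  have e1 : (3 : Fin 4).succAbove 1 = 1 := by decide
  have e2 : (3 : Fin 4).succAbove 2 = 2 := by decide
  unfold pm
  rw [e0, e1, e2]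
  show ((0 : TBG.E) - -q.1, (0 : TBG.E) - -q.2.1) = (q.1, q.2.1)
  rw [zero_sub, zero_sub, neg_neg, neg_neg]

end SY6_

open SY6_ in
theorem sy6_proof (hRLP : Pool.Agent.TBF.Stmt_RLP) (hRLS : Pool.Agent.TBF.Stmt_RLS)
    (hPMV : Pool.Agent.TBF.Stmt_PMV) (hSCB : Pool.Agent.TBF.Stmt_SCB) : Stmt_SY6 := by
  intro C φ y l Y g₄ hφ hy hD
  obtain ⟨C0, hC0, _, _, _, _, hVc, hwc, _, _, _⟩ := hSCB φ hφ
  have hpmc : ∀ m : Fin 4, Continuous (pm m) := by
    intro m
    obtain ⟨T, hT⟩ := hRLP.2.2.2.2.2.2.2.1 m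
    have : pm m = fun p => T p := funext fun p => (hT p).symm
    rw [this]
    exact T.continuous
  refine ⟨?_, ?_, ?_⟩
  · have hYi : ∀ m, Integrable (fun p => ∑ c, Y m c p ^ 2) := by
      intro m
      have hc : Continuous (fun p => ∑ c, Y m c p ^ 2) :=
        continuous_finsetSum _ fun c _ => (hD.smY m c).continuous.pow 2
      refine hc.integrable_of_hasCompactSupport ?_
      refine HasCompactSupport.intro (isCompact_closedBall (0 : W4) l) fun p hp => ?_
      rw [Metric.mem_closedBall, dist_zero_right, not_le] at hp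
      exact Finset.sum_eq_zero fun c _ => by rw [hD.spY m c p hp]; norm_num
    rw [integral_finsetSum _ fun m _ => hYi m]
    have h1 : ∀ m : Fin 4, ∫ p, ∑ c, Y m c p ^ 2 = ∫ q, ∑ c, Y 0 c q ^ 2 := by
      intro m
      have h2 : ∀ p, ∑ c, Y m c p ^ 2 =
          (fun q => ∑ c, Y 0 c q ^ 2) (Pm (Equiv.swap 0 m) p) := by
        intro p
        refine Finset.sum_congr rfl fun c _ => ?_
        rw [hD.eqv, Equiv.swap_apply_left]
      simp_rw [h2]
      exact (hPMV (Equiv.swap 0 m)).2.1 (fun q => ∑ c, Y 0 c q ^ 2)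
    rw [Finset.sum_congr rfl fun m _ => h1 m, Finset.sum_const, Finset.card_univ,
      Fintype.card_fin, nsmul_eq_mul]
    norm_num
  · set F : W4 → ℝ := fun q => ww φ (q.1, q.2.1) * y q with hF
    have hFi : Integrable F := by
      have hc : Continuous F :=
        (hwc.continuous.comp (continuous_fst.prodMk (continuous_fst.comp continuous_snd))).mul
          hy.1.continuous
      exact hc.integrable_of_hasCompactSupport hy.2.mul_left
    have hm : ∀ m : Fin 4, ∃ τ : Equiv.Perm (Fin 4),
        ∀ p, ww φ (pm m p) * ym y m p = F (Pm τ p) := by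
      intro m
      obtain ⟨τ, _, h1, h2⟩ := hRLS.2.1 m
      refine ⟨τ, fun p => ?_⟩
      rw [h1 p, h2 y p, pm_three]
    choose τ hτ using hm
    have e1 : ∫ p, ∑ m, ww φ (pm m p) * ym y m p = ∫ p, ∑ m, F (Pm (τ m) p) :=
      integral_congr_ae (Eventually.of_forall fun p => Finset.sum_congr rfl fun m _ => hτ m p)
    rw [e1, integral_finsetSum _ fun m _ => (hPMV (τ m)).2.2 F hFi,
      Finset.sum_congr rfl fun m _ => (hPMV (τ m)).2.1 F, Finset.sum_const, Finset.card_univ,
      Fintype.card_fin, nsmul_eq_mul]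
    norm_num
  · set F : W4 → ℝ := fun q => VV φ q.1 q.2.1 * y q ^ 2 with hF
    have hFi : Integrable F := by
      have hc : Continuous F :=
        (hVc.continuous.comp (continuous_fst.prodMk (continuous_fst.comp continuous_snd))).mul
          (hy.1.continuous.pow 2)
      refine hc.integrable_of_hasCompactSupport ?_
      have h2 : HasCompactSupport (fun q => y q ^ 2) := by
        have h3 : (fun q => y q ^ 2) = y * y := by
          funext q
          show y q ^ 2 = y q * y q
          ring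
        rw [h3]
        exact hy.2.mul_left
      exact h2.mul_left
    have hm : ∀ m : Fin 4, ∃ τ : Equiv.Perm (Fin 4),
        ∀ p, Vm φ m p * (ym y m p) ^ 2 = F (Pm τ p) := by
      intro m
      obtain ⟨τ, _, h1, h2⟩ := hRLS.2.1 m
      refine ⟨τ, fun p => ?_⟩
      unfold Vm
      rw [h1 p, h2 y p, pm_three]
    choose τ hτ using hm
    have e1 : ∫ p, ∑ m, Vm φ m p * (ym y m p) ^ 2 = ∫ p, ∑ m, F (Pm (τ m) p) :=
      integral_congr_ae (Eventually.of_forall fun p => Finset.sum_congr rfl fun m _ => hτ m p)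
    rw [e1, integral_finsetSum _ fun m _ => (hPMV (τ m)).2.2 F hFi,
      Finset.sum_congr rfl fun m _ => (hPMV (τ m)).2.1 F, Finset.sum_const, Finset.card_univ,
      Fintype.card_fin, nsmul_eq_mul]
    norm_num

end Pool.Agent.TBK
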