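import Pool.Agent.TBK.Stmts

/-!
# Squad TBK: module SYC (construction of the system, output)
-/

set_option autoImplicit false

open MeasureTheory Filter Topology
open scoped ContDiff

namespace Pool.Agent.TBK

open Pool.Agent.TBG Pool.Agent.TBL Pool.Agent.TBF Pool.Agent.TBS

theorem syc_proof (hBET : Stmt_BET) (hPUN : Stmt_PUN) (hGRD : Stmt_GRD) (hGSY : Stmt_GSY)
    (hPT2 : Stmt_PT2) (hPT3 : Stmt_PT3) (hSUM : Stmt_SUM) : Pool.Agent.TBS.Stmt_SYC := by
  intro C₀ φ hφ hb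
  obtain ⟨Cb, hCb, hbet⟩ := hBET
  set b : ℝ := ∫ z, ww φ z with hbdef
  refine ⟨15625 + Cb + |C₀ / b|, by positivity, ?_⟩
  set C : ℝ := 15625 + Cb + |C₀ / b| with hC
  have hCC : 0 ≤ |C₀ / b| := abs_nonneg _
  intro Mc l R M τ g hT hR hRl hM
  have hl1 : 1 ≤ l := hR.trans hRl
  have hl : 0 < l := by linarith
  obtain ⟨hsy, hcont, hcs, hint⟩ := hGSY C₀ R φ τ g hφ hT
  have hSof : Sof b R C₀ g := ⟨hb, hcont, hT.g0, hT.gsp, hT.gb, hT.mass, fun x y => (hsy x y).1,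
    fun x y => (hsy x y).2⟩
  obtain ⟨hpun1, hpun2⟩ := hPUN Mc l R M hl
  obtain ⟨hg1, hg2, hg3⟩ := hGRD Mc l R M hl
  have h2 := hPT2 b R C₀ l g hSof hR hRl
  have h3 := hPT3 b R C₀ l g hSof hR hRl
  refine ⟨be l, thd b l g, Pd b l g, ?_, ?_, ?_⟩
  · refine ⟨hR, hRl, hM, hg1, hg2, fun x => (hg3 x).trans ?_, fun a => (hbet l hl a).1,
      fun a x => ((hbet l hl a).2.1 x).1, fun a x hx => (hbet l hl a).2.2.1 x hx,
      fun a c x => ?_, hpun1, ?_, fun a => (hbet l hl a).2.2.2.2, fun a => (h2 a).1,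
      fun a x => ((h2 a).2.1 x).1, fun a x => ?_, fun a x hx => (h2 a).2.2.1 x hx,
      fun a => (h2 a).2.2.2⟩
    · linarith
    · refine ((hbet l hl a).2.2.2.1 c x).trans ?_
      show Cb / l ≤ C / l
      exact div_le_div_of_nonneg_right (by linarith) hl.le
    · intro a ha x hx
      have ha' : a ∈ (gpar Mc l R M).Gi := ha
      unfold gpar at ha'
      simp only [Finset.mem_image, Finset.mem_filter, Finset.mem_univ, true_and] at ha'
      obtain ⟨k, hk, rfl⟩ := ha'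
      exact hpun2 k hk x hx
    · refine ((h2 a).2.1 x).2.trans ?_
      show (l ^ 3)⁻¹ ≤ C / l ^ 3
      rw [div_eq_mul_inv]
      have h4 : (0 : ℝ) ≤ (l ^ 3)⁻¹ := by positivity
      have h5 : (1 : ℝ) ≤ C := by linarith
      calc (l ^ 3)⁻¹ = 1 * (l ^ 3)⁻¹ := (one_mul _).symm
        _ ≤ C * (l ^ 3)⁻¹ := mul_le_mul_of_nonneg_right h5 h4
  · refine ⟨fun a x y z => rfl, fun a => (h3 a).1, fun a => (h3 a).2.1,
      fun a x y z => ((h3 a).2.2.1 x y z).1, fun a x y z => ?_, fun a x y z h => (h3 a).2.2.2 x y z h,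
      fun a x => rfl⟩
    refine ((h3 a).2.2.1 x y z).2.trans ?_
    show C₀ / b / (l ^ 3 * R ^ 6) ≤ C / (l ^ 3 * R ^ 6)
    refine div_le_div_of_nonneg_right ?_ (by positivity)
    linarith [le_abs_self (C₀ / b)]
  · intro k hk x hx
    exact hSUM b R C₀ l g hSof hR hRl Mc R M k hk x hx

end Pool.Agent.TBK
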