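import Pool.Agent.TBK.Stmts

/-!
Squad TBK, module TAI: tails of the four-body kernels.
-/

set_option autoImplicit false

open MeasureTheory Filter Topology
open scoped ContDiff

namespace Pool.Agent.TBK

open Pool.Agent.TBG Pool.Agent.TBL Pool.Agent.TBF Pool.Agent.TBS

namespace TAI_

/-- the dominating function -/
noncomputable def HH (A B : ℝ) (q : W4) : ℝ :=
  ((A + ‖q.1‖ + ‖q.2.1‖) ^ 5)⁻¹ * ((B + ‖q.1‖ + ‖q.2.2‖) ^ 5)⁻¹

theorem HH_nonneg {A B : ℝ} (hA : 1 ≤ A) (hB : 1 ≤ B) (q : W4) : 0 ≤ HH A B q := by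
  unfold HH
  positivity

theorem HH_cont {A B : ℝ} (hA : 1 ≤ A) (hB : 1 ≤ B) : Continuous (HH A B) := by
  unfold HH
  refine Continuous.mul (Continuous.inv₀ (by fun_prop) fun q => ?_)
    (Continuous.inv₀ (by fun_prop) fun q => ?_)
  · positivity
  · positivity

theorem HH_int {c : ℝ} (hc : 0 < c)
    (h1 : ∀ A : ℝ, 1 ≤ A → Integrable (fun x : E => ((A + ‖x‖) ^ 5)⁻¹) ∧
      ∫ x : E, ((A + ‖x‖) ^ 5)⁻¹ ≤ c * (A ^ 2)⁻¹)
    (h2 : ∀ ρ : ℝ, 1 ≤ ρ → Integrable (fun x : E => ((ρ + ‖x‖) ^ 2)⁻¹ * ((1 + ‖x‖) ^ 2)⁻¹) ∧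
      ∫ x : E, ((ρ + ‖x‖) ^ 2)⁻¹ * ((1 + ‖x‖) ^ 2)⁻¹ ≤ c / ρ)
    {A B ρ : ℝ} (hA : 1 ≤ A) (hB : 1 ≤ B) (hρ : 1 ≤ ρ)
    (hAB : ∀ t : ℝ, ((A + t) ^ 2)⁻¹ * ((B + t) ^ 2)⁻¹ = ((ρ + t) ^ 2)⁻¹ * ((1 + t) ^ 2)⁻¹) :
    Integrable (HH A B) ((volume : Measure E).prod ((volume : Measure E).prod (volume : Measure E))) ∧
    ∫ q, HH A B q ∂((volume : Measure E).prod ((volume : Measure E).prod (volume : Measure E))) ≤
      c ^ 3 / ρ := by
  have ha : ∀ x : E, 1 ≤ A + ‖x‖ := fun x => by have := norm_nonneg x; linarith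
  have hb : ∀ x : E, 1 ≤ B + ‖x‖ := fun x => by have := norm_nonneg x; linarith
  have hi : ∀ x : E, Integrable (fun r : E × E => HH A B (x, r))
      ((volume : Measure E).prod (volume : Measure E)) := fun x =>
    (h1 _ (ha x)).1.mul_prod (h1 _ (hb x)).1
  have hv : ∀ x : E, ∫ r : E × E, HH A B (x, r) ∂((volume : Measure E).prod (volume : Measure E)) =
      (∫ y : E, ((A + ‖x‖ + ‖y‖) ^ 5)⁻¹) * ∫ y : E, ((B + ‖x‖ + ‖y‖) ^ 5)⁻¹ := by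
    intro x
    exact integral_prod_mul (μ := (volume : Measure E)) (ν := (volume : Measure E))
      (fun y : E => ((A + ‖x‖ + ‖y‖) ^ 5)⁻¹) (fun y : E => ((B + ‖x‖ + ‖y‖) ^ 5)⁻¹)
  have hle : ∀ x : E, ∫ r : E × E, HH A B (x, r) ∂((volume : Measure E).prod (volume : Measure E)) ≤
      c ^ 2 * (((ρ + ‖x‖) ^ 2)⁻¹ * ((1 + ‖x‖) ^ 2)⁻¹) := by
    intro x
    rw [hv, ← hAB ‖x‖]
    calc (∫ y : E, ((A + ‖x‖ + ‖y‖) ^ 5)⁻¹) * ∫ y : E, ((B + ‖x‖ + ‖y‖) ^ 5)⁻¹ ≤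
          (c * ((A + ‖x‖) ^ 2)⁻¹) * (c * ((B + ‖x‖) ^ 2)⁻¹) := by
          refine mul_le_mul (h1 _ (ha x)).2 (h1 _ (hb x)).2 ?_ (by positivity)
          refine integral_nonneg fun y => ?_
          have := norm_nonneg y
          have := hb x
          positivity
      _ = _ := by ring
  have hnn : ∀ x : E, 0 ≤ ∫ r : E × E, HH A B (x, r)
      ∂((volume : Measure E).prod (volume : Measure E)) :=
    fun x => integral_nonneg fun r => HH_nonneg hA hB _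
  have hm : AEStronglyMeasurable (HH A B)
      ((volume : Measure E).prod ((volume : Measure E).prod (volume : Measure E))) :=
    (HH_cont hA hB).aestronglyMeasurable
  have hI : Integrable (fun x : E => ∫ r : E × E, HH A B (x, r)
      ∂((volume : Measure E).prod (volume : Measure E))) := by
    refine ((h2 ρ hρ).1.const_mul (c ^ 2)).mono' hm.integral_prod_right'
      (Eventually.of_forall fun x => ?_)
    rw [Real.norm_of_nonneg (hnn x)]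
    exact hle x
  have hint : Integrable (HH A B)
      ((volume : Measure E).prod ((volume : Measure E).prod (volume : Measure E))) := by
    rw [integrable_prod_iff hm]
    refine ⟨Eventually.of_forall hi, ?_⟩
    refine hI.congr (Eventually.of_forall fun x => ?_)
    refine integral_congr_ae (Eventually.of_forall fun r => ?_)
    exact (Real.norm_of_nonneg (HH_nonneg hA hB (x, r))).symm
  refine ⟨hint, ?_⟩
  rw [integral_prod _ hint]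
  calc ∫ x : E, ∫ r : E × E, HH A B (x, r) ∂((volume : Measure E).prod (volume : Measure E)) ≤
        ∫ x : E, c ^ 2 * (((ρ + ‖x‖) ^ 2)⁻¹ * ((1 + ‖x‖) ^ 2)⁻¹) :=
        integral_mono hI ((h2 ρ hρ).1.const_mul _) hle
    _ = c ^ 2 * ∫ x : E, ((ρ + ‖x‖) ^ 2)⁻¹ * ((1 + ‖x‖) ^ 2)⁻¹ := integral_const_mul _ _
    _ ≤ c ^ 2 * (c / ρ) := mul_le_mul_of_nonneg_left (h2 ρ hρ).2 (by positivity)
    _ = c ^ 3 / ρ := by ring

theorem inv5 {a b k : ℝ} (hk : 0 < k) (ha : 0 < a) (hab : a ≤ k * b) :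
    (b ^ 5)⁻¹ ≤ k ^ 5 * (a ^ 5)⁻¹ := by
  have hb : 0 < b := by
    by_contra h
    push Not at h
    nlinarith
  rw [← div_eq_mul_inv, le_div_iff₀ (by positivity), inv_mul_le_iff₀ (by positivity), ← mul_pow]
  exact pow_le_pow_left₀ ha.le (by linarith) 5

end TAI_

open TAI_ in
theorem tai_proof (hJIN : Stmt_JIN) : Stmt_TAI := by
  obtain ⟨c, hc, h1, h2⟩ := hJIN
  refine ⟨2 ^ 16 * c ^ 3, by positivity, fun ρ hρ F hF hG hz => ?_⟩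
  have i1 := HH_int hc h1 h2 hρ le_rfl hρ (fun t => rfl)
  have i2 := HH_int hc h1 h2 le_rfl hρ hρ (fun t => by ring)
  -- pointwise bound
  have hpt : ∀ q : W4, |F q| ≤ 2 ^ 15 * HH ρ 1 q + 2 ^ 15 * HH 1 ρ q := by
    intro q
    have n1 : 0 ≤ HH ρ 1 q := HH_nonneg hρ le_rfl q
    have n2 : 0 ≤ HH 1 ρ q := HH_nonneg le_rfl hρ q
    by_cases hq : F q = 0
    · rw [hq, abs_zero]
      positivity
    · have a1 : ‖q.1‖ ≤ ‖(q.1, q.2.1)‖ := norm_fst_le ((q.1, q.2.1) : E × E)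
      have a2 : ‖q.2.1‖ ≤ ‖(q.1, q.2.1)‖ := norm_snd_le ((q.1, q.2.1) : E × E)
      have b1 : ‖q.1‖ ≤ ‖(q.1, q.2.2)‖ := norm_fst_le ((q.1, q.2.2) : E × E)
      have b2 : ‖q.2.2‖ ≤ ‖(q.1, q.2.2)‖ := norm_snd_le ((q.1, q.2.2) : E × E)
      have c1 := norm_nonneg q.1
      have c2 := norm_nonneg q.2.1
      have c3 := norm_nonneg q.2.2
      refine (hG q).trans ?_
      rcases hz q hq with h | h
      · have e1 : ((1 + ‖(q.1, q.2.1)‖) ^ 5)⁻¹ ≤ 4 ^ 5 * ((ρ + ‖q.1‖ + ‖q.2.1‖) ^ 5)⁻¹ :=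
          inv5 (by norm_num) (by linarith) (by linarith)
        have e2 : ((1 + ‖(q.1, q.2.2)‖) ^ 5)⁻¹ ≤ 2 ^ 5 * ((1 + ‖q.1‖ + ‖q.2.2‖) ^ 5)⁻¹ :=
          inv5 (by norm_num) (by linarith) (by linarith)
        have e3 : G5 q ≤ (4 ^ 5 * ((ρ + ‖q.1‖ + ‖q.2.1‖) ^ 5)⁻¹) *
            (2 ^ 5 * ((1 + ‖q.1‖ + ‖q.2.2‖) ^ 5)⁻¹) := by
          unfold G5
          exact mul_le_mul e1 e2 (by positivity) (by positivity)
        have e4 : (4 ^ 5 * ((ρ + ‖q.1‖ + ‖q.2.1‖) ^ 5)⁻¹) *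
            (2 ^ 5 * ((1 + ‖q.1‖ + ‖q.2.2‖) ^ 5)⁻¹) = 2 ^ 15 * HH ρ 1 q := by
          unfold HH
          ring
        rw [e4] at e3
        linarith
      · have e1 : ((1 + ‖(q.1, q.2.1)‖) ^ 5)⁻¹ ≤ 2 ^ 5 * ((1 + ‖q.1‖ + ‖q.2.1‖) ^ 5)⁻¹ :=
          inv5 (by norm_num) (by linarith) (by linarith)
        have e2 : ((1 + ‖(q.1, q.2.2)‖) ^ 5)⁻¹ ≤ 4 ^ 5 * ((ρ + ‖q.1‖ + ‖q.2.2‖) ^ 5)⁻¹ :=
          inv5 (by norm_num) (by linarith) (by linarith)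
        have e3 : G5 q ≤ (2 ^ 5 * ((1 + ‖q.1‖ + ‖q.2.1‖) ^ 5)⁻¹) *
            (4 ^ 5 * ((ρ + ‖q.1‖ + ‖q.2.2‖) ^ 5)⁻¹) := by
          unfold G5
          exact mul_le_mul e1 e2 (by positivity) (by positivity)
        have e4 : (2 ^ 5 * ((1 + ‖q.1‖ + ‖q.2.1‖) ^ 5)⁻¹) *
            (4 ^ 5 * ((ρ + ‖q.1‖ + ‖q.2.2‖) ^ 5)⁻¹) = 2 ^ 15 * HH 1 ρ q := by
          unfold HH
          ring
        rw [e4] at e3
        linarith
  have j1 : Integrable (HH ρ 1) (volume : Measure W4) := i1.1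
  have j2 : Integrable (HH 1 ρ) (volume : Measure W4) := i2.1
  have v1 : ∫ q : W4, HH ρ 1 q ≤ c ^ 3 / ρ := i1.2
  have v2 : ∫ q : W4, HH 1 ρ q ≤ c ^ 3 / ρ := i2.2
  have hI : Integrable F := by
    refine ((j1.const_mul (2 ^ 15)).add (j2.const_mul (2 ^ 15))).mono' hF.aestronglyMeasurable
      (Eventually.of_forall fun q => ?_)
    rw [Real.norm_eq_abs]
    exact hpt q
  refine ⟨hI, ?_⟩
  calc ∫ q, |F q| ≤ ∫ q, (2 ^ 15 * HH ρ 1 q + 2 ^ 15 * HH 1 ρ q) :=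
        integral_mono hI.abs ((j1.const_mul _).add (j2.const_mul _)) hpt
    _ = 2 ^ 15 * (∫ q : W4, HH ρ 1 q) + 2 ^ 15 * ∫ q : W4, HH 1 ρ q := by
        rw [integral_add (j1.const_mul _) (j2.const_mul _), integral_const_mul, integral_const_mul]
    _ ≤ 2 ^ 15 * (c ^ 3 / ρ) + 2 ^ 15 * (c ^ 3 / ρ) := by linarith
    _ = 2 ^ 16 * c ^ 3 / ρ := by ring

end Pool.Agent.TBK
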