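import Pool.Agent.TBK.Stmts

set_option autoImplicit false

open MeasureTheory Filter Topology
open scoped ContDiff

namespace Pool.Agent.TBK

open Pool.Agent.TBG Pool.Agent.TBL Pool.Agent.TBF Pool.Agent.TBS

theorem tau_proof (hSCB : Pool.Agent.TBF.Stmt_SCB) (hTDL : Pool.Agent.TBG.Stmt_TDL)
    (hLPC : Pool.Agent.TBG.Stmt_LPC) : Stmt_TAU := by
  intro φ hφ
  obtain ⟨C, hC, h1, h2, -⟩ := hSCB φ hφ
  refine ⟨C, hC, fun δ hδ => ?_⟩
  obtain ⟨hs, hd, -, hb, -⟩ := hTDL.1 δ hδ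
  have hL := hLPC (Td δ) φ Set.univ isOpen_univ hs.contDiffOn hφ.smooth (fun z => Set.mem_univ _)
  have hb' : ∀ z, 0 ≤ Td δ (φ z) ∧ Td δ (φ z) ≤ φ z := fun z =>
    ⟨(hb _ (h1 z).1.le).1, (hb _ (h1 z).1.le).2.1⟩
  refine ⟨(hL 0).1, ?_, ?_, ?_, ?_⟩
  · intro x y
    rw [hφ.sy1 x y]
    refine ⟨rfl, ?_⟩
    rw [← hφ.sy1 x y, hφ.sy2 x y]
  · intro z
    have h0 : 0 < (1 + ‖z‖) ^ 4 := by positivity
    refine ⟨(hb' z).1, (hb' z).2, ?_⟩
    have h3 := (h1 z).2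
    calc (1 + ‖z‖) ^ 4 * Td δ (φ z) ≤ (1 + ‖z‖) ^ 4 * (C * ((1 + ‖z‖) ^ 4)⁻¹) :=
          mul_le_mul_of_nonneg_left ((hb' z).2.trans h3) h0.le
      _ = C := by field_simp
  · intro m c z
    have h0 : 0 < (1 + ‖z‖) ^ 5 := by positivity
    have h3 := (hL z).2.1 (dr m c)
    refine ⟨h3, ?_⟩
    rw [h3, abs_mul, hd]
    have h4 : |Real.smoothTransition (φ z / δ - 1)| ≤ 1 := by
      rw [abs_of_nonneg (Real.smoothTransition.nonneg _)]
      exact Real.smoothTransition.le_one _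
    have h5 := h2 m c z
    calc (1 + ‖z‖) ^ 5 * (|Real.smoothTransition (φ z / δ - 1)| * |dv (dr m c) φ z|)
        ≤ (1 + ‖z‖) ^ 5 * (1 * (C * ((1 + ‖z‖) ^ 5)⁻¹)) := by
          apply mul_le_mul_of_nonneg_left _ h0.le
          exact mul_le_mul h4 h5 (abs_nonneg _) zero_le_one
      _ = C := by field_simp
  · intro z
    unfold sg
    rw [(hL z).2.2.2]
    unfold ww
    ring

end Pool.Agent.TBK
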