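import Pool.Agent.TBK.Stmts

set_option autoImplicit false

open MeasureTheory Filter Topology
open scoped ContDiff

namespace Pool.Agent.TBK

open Pool.Agent.TBG Pool.Agent.TBL Pool.Agent.TBF Pool.Agent.TBS

namespace TEN_

theorem dv_smooth (f : E × E → ℝ) (hf : ContDiff ℝ ∞ f) (v : E × E) : ContDiff ℝ ∞ (dv v f) := by
  unfold dv
  exact (hf.fderiv_right (m := ∞) (by norm_num)).clm_apply contDiff_const

theorem dv_cpt (f : E × E → ℝ) (hf : HasCompactSupport f) (v : E × E) : HasCompactSupport (dv v f) :=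
  hf.fderiv_apply (𝕜 := ℝ) v

theorem ten_proof' (hIBP : Pool.Agent.TBG.Stmt_IBP) (τ φ w s : E × E → ℝ) (hτ : ContDiff ℝ ∞ τ)
    (hτs : HasCompactSupport τ) (hw : Continuous w) (hws : HasCompactSupport w) (hw0 : ∀ z, 0 ≤ w z)
    (hφ : Continuous φ) (hτ0 : ∀ z, 0 ≤ τ z) (hτφ : ∀ z, τ z ≤ φ z) (hs : ∀ z, s z = Lap τ z + w z)
    (hs0 : ∀ z, 0 ≤ s z) : ∫ z, s z = ∫ z, w z ∧
      ∫ z, (gsq τ z + w z * (1 - φ z)) ≤ ∫ z, w z := by
  have h1 : (1 : WithTop ℕ∞) ≤ ∞ := by norm_num
  have hhaar : (volume : Measure (E × E)).IsAddHaarMeasure :=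
    inferInstanceAs ((volume : Measure E).prod (volume : Measure E)).IsAddHaarMeasure
  have hI : ∀ v : E × E, ∫ z, dv v (dv v τ) z = 0 := fun v =>
    (hIBP (E × E) volume (dv v τ) (dv v τ) v ((dv_smooth τ hτ v).of_le h1) ((dv_smooth τ hτ v).of_le h1)
      (dv_cpt τ hτs v)).1
  have hJ : ∀ v : E × E, ∫ z, τ z * dv v (dv v τ) z = - ∫ z, dv v τ z * dv v τ z := fun v =>
    (hIBP (E × E) volume τ (dv v τ) v (hτ.of_le h1) ((dv_smooth τ hτ v).of_le h1) hτs).2
  have hi2 : ∀ v : E × E, Integrable (dv v (dv v τ)) := fun v =>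
    (dv_smooth _ (dv_smooth τ hτ v) v).continuous.integrable_of_hasCompactSupport
      (dv_cpt _ (dv_cpt τ hτs v) v)
  have hi3 : ∀ v : E × E, Integrable (fun z => τ z * dv v (dv v τ) z) := fun v =>
    (hτ.continuous.mul (dv_smooth _ (dv_smooth τ hτ v) v).continuous).integrable_of_hasCompactSupport
      hτs.mul_right
  have hi4 : ∀ v : E × E, Integrable (fun z => dv v τ z * dv v τ z) := fun v =>
    ((dv_smooth τ hτ v).continuous.mul (dv_smooth τ hτ v).continuous).integrable_of_hasCompactSupport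
      (dv_cpt τ hτs v).mul_right
  have hLapI : Integrable (Lap τ) := by
    unfold Lap
    exact integrable_finset_sum _ fun m _ => integrable_finset_sum _ fun c _ => hi2 (dr m c)
  have hLap0 : ∫ z, Lap τ z = 0 := by
    unfold Lap
    rw [integral_finset_sum _ (fun m _ => integrable_finset_sum _ fun c _ => hi2 (dr m c))]
    refine Finset.sum_eq_zero fun m _ => ?_
    rw [integral_finset_sum _ (fun c _ => hi2 (dr m c))]
    exact Finset.sum_eq_zero fun c _ => hI _
  have hwI : Integrable w := hw.integrable_of_hasCompactSupport hws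
  have hsf : s = fun z => Lap τ z + w z := by
    funext z; exact hs z
  have hfirst : ∫ z, s z = ∫ z, w z := by
    rw [hsf, integral_add hLapI hwI, hLap0, zero_add]
  refine ⟨hfirst, ?_⟩
  have hgsqI : Integrable (gsq τ) := by
    unfold gsq
    refine integrable_finset_sum _ fun m _ => integrable_finset_sum _ fun c _ => ?_
    have := hi4 (dr m c)
    refine this.congr (Eventually.of_forall fun z => ?_)
    show dv (dr m c) τ z * dv (dr m c) τ z = dv (dr m c) τ z ^ 2
    ring
  have hτLI : Integrable (fun z => τ z * Lap τ z) := by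
    have : (fun z => τ z * Lap τ z) = fun z => ∑ m, ∑ c, τ z * dv (dr m c) (dv (dr m c) τ) z := by
      funext z
      unfold Lap
      rw [Finset.mul_sum]
      exact Finset.sum_congr rfl fun m _ => Finset.mul_sum _ _ _
    rw [this]
    exact integrable_finset_sum _ fun m _ => integrable_finset_sum _ fun c _ => hi3 (dr m c)
  have hgsq : ∫ z, gsq τ z = - ∫ z, τ z * Lap τ z := by
    have e1 : ∫ z, gsq τ z = ∑ m, ∑ c, ∫ z, dv (dr m c) τ z * dv (dr m c) τ z := by
      have : gsq τ = fun z => ∑ m, ∑ c, dv (dr m c) τ z * dv (dr m c) τ z := by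
        funext z
        unfold gsq
        exact Finset.sum_congr rfl fun m _ => Finset.sum_congr rfl fun c _ => by ring
      rw [this, integral_finset_sum _ (fun m _ => integrable_finset_sum _ fun c _ => hi4 (dr m c))]
      refine Finset.sum_congr rfl fun m _ => ?_
      rw [integral_finset_sum _ (fun c _ => hi4 (dr m c))]
    have e2 : ∫ z, τ z * Lap τ z = ∑ m, ∑ c, ∫ z, τ z * dv (dr m c) (dv (dr m c) τ) z := by
      have : (fun z => τ z * Lap τ z) = fun z => ∑ m, ∑ c, τ z * dv (dr m c) (dv (dr m c) τ) z := by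
        funext z
        unfold Lap
        rw [Finset.mul_sum]
        exact Finset.sum_congr rfl fun m _ => Finset.mul_sum _ _ _
      rw [this, integral_finset_sum _ (fun m _ => integrable_finset_sum _ fun c _ => hi3 (dr m c))]
      refine Finset.sum_congr rfl fun m _ => ?_
      rw [integral_finset_sum _ (fun c _ => hi3 (dr m c))]
    rw [e1, e2, ← Finset.sum_neg_distrib]
    refine Finset.sum_congr rfl fun m _ => ?_
    rw [← Finset.sum_neg_distrib]
    refine Finset.sum_congr rfl fun c _ => ?_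
    rw [hJ]
    ring
  have hwφI : Integrable (fun z => w z * φ z) :=
    (hw.mul hφ).integrable_of_hasCompactSupport hws.mul_right
  -- `-∫ τ Lap τ ≤ ∫ w φ`
  have hle : - ∫ z, τ z * Lap τ z ≤ ∫ z, w z * φ z := by
    rw [← integral_neg]
    refine integral_mono hτLI.neg hwφI fun z => ?_
    show -(τ z * Lap τ z) ≤ w z * φ z
    have h2 : Lap τ z = s z - w z := by rw [hs z]; ring
    rw [h2]
    have h3 : 0 ≤ τ z * s z := mul_nonneg (hτ0 z) (hs0 z)
    have h4 : w z * τ z ≤ w z * φ z := mul_le_mul_of_nonneg_left (hτφ z) (hw0 z)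
    nlinarith
  have e : (fun z => gsq τ z + w z * (1 - φ z)) = fun z => gsq τ z + (w z - w z * φ z) := by
    funext z; ring
  have hsub : Integrable (fun z => w z - w z * φ z) := hwI.sub hwφI
  rw [e, integral_add hgsqI hsub, integral_sub hwI hwφI, hgsq]
  linarith

end TEN_

open TEN_ in
theorem ten_proof (hIBP : Pool.Agent.TBG.Stmt_IBP) (hADM : Pool.Agent.TBG.Stmt_ADM) (hTAU : Stmt_TAU) :
    Stmt_TEN := by
  intro φ δ R hS hδ hR hs0
  obtain ⟨C, -, hT⟩ := hTAU φ hS
  obtain ⟨h1, -, h3, -, -⟩ := hT δ hδ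
  obtain ⟨-, -, hwc, hws, hw0, -, -⟩ := hADM φ hS
  have hτs : HasCompactSupport (fun z => Td δ (φ z)) := by
    refine HasCompactSupport.intro (isCompact_closedBall (0 : E × E) R) fun z hz => hR z ?_
    rw [Metric.mem_closedBall, dist_zero_right, not_le] at hz
    exact hz
  exact ten_proof' hIBP (fun z => Td δ (φ z)) φ (ww φ) (sg φ δ) h1 hτs hwc hws hw0 hS.smooth.continuous
    (fun z => (h3 z).1) (fun z => (h3 z).2.1) (fun z => rfl) hs0

end Pool.Agent.TBK
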