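import Pool.Agent.TBK.Stmts

set_option autoImplicit false

open MeasureTheory Filter Topology
open scoped ContDiff ENNReal

namespace Pool.Agent.TBK

open Pool.Agent.TBG Pool.Agent.TBL Pool.Agent.TBF Pool.Agent.TBS

namespace WEI_

theorem pk_int {α R l w₁ w₂ w₃ : ℝ} (h : Pk l w₁ w₂ w₃ (pk α R)) : Integrable (pk α R) := by
  have h1 : IntegrableOn (pk α R) (Metric.closedBall (0 : E) R) := by
    refine Measure.integrableOn_of_bounded (M := 1) ?_ h.meas.aestronglyMeasurable ?_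
    · exact measure_closedBall_lt_top.ne
    · refine Filter.Eventually.of_forall (fun x => ?_)
      rw [Real.norm_eq_abs, abs_of_nonneg (h.nn x)]
      exact h.le1 x
  refine (integrableOn_iff_integrable_of_support_subset ?_).1 h1
  intro x hx
  rw [Function.mem_support] at hx
  by_contra hn
  apply hx
  have h2 : x ∉ {y : E | ‖y‖ ≤ R} := by
    intro h3
    apply hn
    rw [Metric.mem_closedBall, dist_zero_right]
    exact h3
  unfold pk ic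
  rw [Set.indicator_of_notMem h2, zero_mul]

theorem pk_lint {α R l w₁ w₂ w₃ : ℝ} (h : Pk l w₁ w₂ w₃ (pk α R)) :
    ∫⁻ x, ENNReal.ofReal (pk α R x) ≤ ENNReal.ofReal w₁ := by
  rw [← ofReal_integral_eq_lintegral_ofReal (pk_int h) (Filter.Eventually.of_forall h.nn)]
  exact ENNReal.ofReal_le_ofReal h.m1

/-- the indicator times `(1 + |x|)^(-1/2)` -/
noncomputable def aa (R : ℝ) (x : E) : ℝ := ic {y | ‖y‖ ≤ R} x * (1 + ‖x‖) ^ (-(1 / 2 : ℝ))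

theorem ic_meas (R : ℝ) : Measurable (ic {y : E | ‖y‖ ≤ R}) := by
  unfold ic
  exact (measurable_const (a := (1 : ℝ))).indicator (measurableSet_le measurable_norm measurable_const)

theorem ic_nn (R : ℝ) (x : E) : 0 ≤ ic {y : E | ‖y‖ ≤ R} x := by
  unfold ic
  exact Set.indicator_nonneg (fun _ _ => (zero_le_one : (0 : ℝ) ≤ 1)) x

theorem ic_one {R : ℝ} {x : E} (h : ‖x‖ ≤ R) : ic {y : E | ‖y‖ ≤ R} x = 1 := by
  unfold ic
  exact Set.indicator_of_mem (s := {y : E | ‖y‖ ≤ R}) (f := fun _ => (1 : ℝ)) h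

theorem aa_meas (R : ℝ) : Measurable (aa R) := by
  unfold aa
  exact (ic_meas R).mul ((measurable_const.add measurable_norm).pow_const _)

theorem aa_nn (R : ℝ) (x : E) : 0 ≤ aa R x :=
  mul_nonneg (ic_nn R x) (Real.rpow_nonneg (by positivity) _)

theorem pk_meas (α R : ℝ) : Measurable (pk α R) := by
  unfold pk
  exact (ic_meas R).mul ((measurable_const.add measurable_norm).pow_const _)

theorem pk_nn (α R : ℝ) (x : E) : 0 ≤ pk α R x :=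
  mul_nonneg (ic_nn R x) (Real.rpow_nonneg (by positivity) _)

/-- the weight -/
noncomputable def hw (x y : E) : ℝ := (((1 + ‖x‖) + ‖y‖) ^ 5)⁻¹

theorem hw_nn (x y : E) : 0 ≤ hw x y := by unfold hw; positivity

theorem hw_lint {c : ℝ} (hc : ∀ A : ℝ, 1 ≤ A → Integrable (fun x : E => ((A + ‖x‖) ^ 5)⁻¹) ∧
    ∫ x : E, ((A + ‖x‖) ^ 5)⁻¹ ≤ c * (A ^ 2)⁻¹) (x : E) :
    ∫⁻ y, ENNReal.ofReal (hw x y) ≤ ENNReal.ofReal (c * ((1 + ‖x‖) ^ 2)⁻¹) := by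
  obtain ⟨h1, h2⟩ := hc (1 + ‖x‖) (by linarith [norm_nonneg x])
  unfold hw
  rw [← ofReal_integral_eq_lintegral_ofReal h1 (Filter.Eventually.of_forall (fun y => by positivity))]
  exact ENNReal.ofReal_le_ofReal h2

theorem aa_pk (R : ℝ) (x : E) : aa R x * ((1 + ‖x‖) ^ 2)⁻¹ = pk (5 / 2) R x := by
  unfold aa pk
  rw [mul_assoc]
  congr 1
  have h0 : (0 : ℝ) < 1 + ‖x‖ := by positivity
  have h1 : ((1 + ‖x‖) ^ 2)⁻¹ = (1 + ‖x‖) ^ (-(2 : ℝ)) := by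
    rw [Real.rpow_neg h0.le]
    norm_num
  rw [h1, ← Real.rpow_add h0]
  norm_num

/-- measurability of products, first form -/
theorem mes1 {α β γ : Type*} [MeasurableSpace α] [MeasurableSpace β] [MeasurableSpace γ]
    (a : α → ℝ≥0∞) (p : β → ℝ≥0∞) (h : α × γ → ℝ≥0∞) (ha : Measurable a) (hp : Measurable p) (hw' : Measurable h) :
    Measurable (fun q : α × β × γ => a q.1 * (p q.2.1 * h (q.1, q.2.2))) := by
  fun_prop

/-- measurability of products, second form -/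
theorem mes2 {α β γ : Type*} [MeasurableSpace α] [MeasurableSpace β] [MeasurableSpace γ]
    (a : α → ℝ≥0∞) (p : γ → ℝ≥0∞) (h : α × β → ℝ≥0∞) (ha : Measurable a) (hp : Measurable p) (hw' : Measurable h) :
    Measurable (fun q : α × β × γ => a q.1 * (h (q.1, q.2.1) * p q.2.2)) := by
  fun_prop

/-- the first iterated integral, abstract form -/
theorem gen1 {α β γ : Type*} [MeasurableSpace α] [MeasurableSpace β] [MeasurableSpace γ]
    (μ : Measure α) (ν : Measure β) (ρ : Measure γ) [SFinite μ] [SFinite ν] [SFinite ρ]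
    (a : α → ℝ≥0∞) (p : β → ℝ≥0∞) (h : α × γ → ℝ≥0∞) (ha : Measurable a) (hp : Measurable p) (hw' : Measurable h) :
    ∫⁻ q : α × β × γ, a q.1 * (p q.2.1 * h (q.1, q.2.2)) ∂(μ.prod (ν.prod ρ)) =
      ∫⁻ x, a x * ((∫⁻ y, p y ∂ν) * ∫⁻ z, h (x, z) ∂ρ) ∂μ := by
  rw [lintegral_prod _ (mes1 a p h ha hp hw').aemeasurable]
  refine lintegral_congr (fun x => ?_)
  have hmx : Measurable (fun z => h (x, z)) := by fun_prop
  have hm2 : Measurable (fun y : β × γ => p y.1 * h (x, y.2)) := by fun_prop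
  simp only
  rw [lintegral_const_mul _ hm2, lintegral_prod_mul hp.aemeasurable hmx.aemeasurable]

/-- the second iterated integral, abstract form -/
theorem gen2 {α β γ : Type*} [MeasurableSpace α] [MeasurableSpace β] [MeasurableSpace γ]
    (μ : Measure α) (ν : Measure β) (ρ : Measure γ) [SFinite μ] [SFinite ν] [SFinite ρ]
    (a : α → ℝ≥0∞) (p : γ → ℝ≥0∞) (h : α × β → ℝ≥0∞) (ha : Measurable a) (hp : Measurable p) (hw' : Measurable h) :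
    ∫⁻ q : α × β × γ, a q.1 * (h (q.1, q.2.1) * p q.2.2) ∂(μ.prod (ν.prod ρ)) =
      ∫⁻ x, a x * ((∫⁻ y, h (x, y) ∂ν) * ∫⁻ z, p z ∂ρ) ∂μ := by
  rw [lintegral_prod _ (mes2 a p h ha hp hw').aemeasurable]
  refine lintegral_congr (fun x => ?_)
  have hmx : Measurable (fun z => h (x, z)) := by fun_prop
  have hm2 : Measurable (fun y : β × γ => h (x, y.1) * p y.2) := by fun_prop
  simp only
  rw [lintegral_const_mul _ hm2, lintegral_prod_mul hmx.aemeasurable hp.aemeasurable]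

/-- the functions with values in `ℝ≥0∞` -/
noncomputable def ea (R : ℝ) (x : E) : ℝ≥0∞ := ENNReal.ofReal (aa R x)
noncomputable def ep (R : ℝ) (x : E) : ℝ≥0∞ := ENNReal.ofReal (pk (5 / 2) R x)
noncomputable def eh (p : E × E) : ℝ≥0∞ := ENNReal.ofReal (hw p.1 p.2)

theorem ea_meas (R : ℝ) : Measurable (ea R) := (aa_meas R).ennreal_ofReal
theorem ep_meas (R : ℝ) : Measurable (ep R) := (pk_meas _ R).ennreal_ofReal
theorem eh_meas : Measurable eh := by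
  unfold eh hw
  fun_prop

theorem outer {c D R : ℝ} (hc0 : 0 < c) (hB : ∫⁻ x, ep R x ≤ ENNReal.ofReal D) (g : E → ℝ≥0∞)
    (hg : ∀ x, g x ≤ ENNReal.ofReal D * ENNReal.ofReal (c * ((1 + ‖x‖) ^ 2)⁻¹)) :
    ∫⁻ x, ea R x * g x ≤ ENNReal.ofReal c * (ENNReal.ofReal D * ENNReal.ofReal D) := by
  calc ∫⁻ x, ea R x * g x ≤ ∫⁻ x, (ENNReal.ofReal c * ENNReal.ofReal D) * ep R x := by
        refine lintegral_mono (fun x => ?_)
        calc ea R x * g x ≤ ea R x * (ENNReal.ofReal D * ENNReal.ofReal (c * ((1 + ‖x‖) ^ 2)⁻¹)) := by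
              gcongr
              exact hg x
          _ = (ENNReal.ofReal c * ENNReal.ofReal D) * ep R x := by
              unfold ea ep
              rw [← aa_pk R x, ENNReal.ofReal_mul hc0.le, ENNReal.ofReal_mul (aa_nn R x)]
              ring
    _ = (ENNReal.ofReal c * ENNReal.ofReal D) * ∫⁻ x, ep R x := lintegral_const_mul _ (ep_meas R)
    _ ≤ (ENNReal.ofReal c * ENNReal.ofReal D) * ENNReal.ofReal D := by gcongr
    _ = _ := by ring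

theorem volW : (volume : Measure W4) =
    (volume : Measure E).prod ((volume : Measure E).prod (volume : Measure E)) := rfl

/-- the first iterated integral -/
theorem first {c D R : ℝ} (hc0 : 0 < c) (hc : ∀ A : ℝ, 1 ≤ A → Integrable (fun x : E => ((A + ‖x‖) ^ 5)⁻¹) ∧
    ∫ x : E, ((A + ‖x‖) ^ 5)⁻¹ ≤ c * (A ^ 2)⁻¹) (hB : ∫⁻ x, ep R x ≤ ENNReal.ofReal D) :
    ∫⁻ q : W4, ea R q.1 * (ep R q.2.1 * eh (q.1, q.2.2)) ≤
      ENNReal.ofReal c * (ENNReal.ofReal D * ENNReal.ofReal D) := by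
  rw [volW, gen1 _ _ _ _ _ _ (ea_meas R) (ep_meas R) eh_meas]
  refine outer hc0 hB _ (fun x => ?_)
  exact mul_le_mul' hB (hw_lint hc x)

/-- the second iterated integral -/
theorem second {c D R : ℝ} (hc0 : 0 < c) (hc : ∀ A : ℝ, 1 ≤ A → Integrable (fun x : E => ((A + ‖x‖) ^ 5)⁻¹) ∧
    ∫ x : E, ((A + ‖x‖) ^ 5)⁻¹ ≤ c * (A ^ 2)⁻¹) (hB : ∫⁻ x, ep R x ≤ ENNReal.ofReal D) :
    ∫⁻ q : W4, ea R q.1 * (eh (q.1, q.2.1) * ep R q.2.2) ≤
      ENNReal.ofReal c * (ENNReal.ofReal D * ENNReal.ofReal D) := by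
  rw [volW, gen2 _ _ _ _ _ _ (ea_meas R) (ep_meas R) eh_meas]
  refine outer hc0 hB _ (fun x => ?_)
  rw [mul_comm (ENNReal.ofReal D)]
  exact mul_le_mul' (hw_lint hc x) hB

/-- the one half of the pointwise bound: `(1 + |(a, b)|)^(-3) (1 + |(a, d)|)^(-5)` -/
theorem half {R : ℝ} (a b d : E) (ha : ‖a‖ ≤ R) (hb : ‖b‖ ≤ R) :
    ((1 + ‖(a, b)‖) ^ 3)⁻¹ * ((1 + ‖(a, d)‖) ^ 5)⁻¹ ≤ 32 * (aa R a * (pk (5 / 2) R b * hw a d)) := by
  have ha0 := norm_nonneg a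
  have hb0 := norm_nonneg b
  have hd0 := norm_nonneg d
  have hz1 : ‖a‖ ≤ ‖(a, b)‖ := norm_fst_le (a, b)
  have hz2 : ‖b‖ ≤ ‖(a, b)‖ := norm_snd_le (a, b)
  have hz3 : ‖a‖ ≤ ‖(a, d)‖ := norm_fst_le (a, d)
  have hz4 : ‖d‖ ≤ ‖(a, d)‖ := norm_snd_le (a, d)
  have h1 : ((1 + ‖(a, b)‖) ^ 3)⁻¹ ≤ (1 + ‖a‖) ^ (-(1 / 2 : ℝ)) * (1 + ‖b‖) ^ (-(5 / 2 : ℝ)) := by
    have h0 : (0 : ℝ) < 1 + ‖(a, b)‖ := by positivity
    have e : ((1 + ‖(a, b)‖) ^ 3)⁻¹ = (1 + ‖(a, b)‖) ^ (-(1 / 2 : ℝ)) * (1 + ‖(a, b)‖) ^ (-(5 / 2 : ℝ)) := by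
      rw [← Real.rpow_add h0, ← Real.rpow_natCast, ← Real.rpow_neg h0.le]
      norm_num
    rw [e]
    apply mul_le_mul
    · exact Real.rpow_le_rpow_of_nonpos (by positivity) (by linarith) (by norm_num)
    · exact Real.rpow_le_rpow_of_nonpos (by positivity) (by linarith) (by norm_num)
    · exact Real.rpow_nonneg h0.le _
    · exact Real.rpow_nonneg (by positivity) _
  have h2 : ((1 + ‖(a, d)‖) ^ 5)⁻¹ ≤ 32 * hw a d := by
    unfold hw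
    rw [← div_eq_mul_inv, le_div_iff₀ (by positivity), inv_mul_le_iff₀ (by positivity)]
    have h3 : (1 + ‖a‖) + ‖d‖ ≤ 2 * (1 + ‖(a, d)‖) := by linarith
    calc ((1 + ‖a‖) + ‖d‖) ^ 5 ≤ (2 * (1 + ‖(a, d)‖)) ^ 5 := by gcongr
      _ = (1 + ‖(a, d)‖) ^ 5 * 32 := by ring
  have h3 : aa R a = (1 + ‖a‖) ^ (-(1 / 2 : ℝ)) := by
    unfold aa
    rw [ic_one ha, one_mul]
  have h4 : pk (5 / 2) R b = (1 + ‖b‖) ^ (-(5 / 2 : ℝ)) := by
    unfold pk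
    rw [ic_one hb, one_mul]
  rw [h3, h4]
  calc ((1 + ‖(a, b)‖) ^ 3)⁻¹ * ((1 + ‖(a, d)‖) ^ 5)⁻¹
      ≤ ((1 + ‖a‖) ^ (-(1 / 2 : ℝ)) * (1 + ‖b‖) ^ (-(5 / 2 : ℝ))) * (32 * hw a d) :=
        mul_le_mul h1 h2 (by positivity)
          (mul_nonneg (Real.rpow_nonneg (by positivity) _) (Real.rpow_nonneg (by positivity) _))
    _ = _ := by ring

/-- the pointwise bound -/
theorem bound {R : ℝ} (a b d : E) (h : ‖(a, b, d)‖ ≤ R) :
    G5 (a, b, d) * ‖(a, b, d)‖ ^ 2 ≤ 32 * (aa R a * (pk (5 / 2) R b * hw a d)) +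
      32 * (aa R a * (hw a b * pk (5 / 2) R d)) := by
  have ha : ‖a‖ ≤ R := (norm_fst_le (a, b, d)).trans h
  have hbd : ‖(b, d)‖ ≤ R := (norm_snd_le (a, b, d)).trans h
  have hb : ‖b‖ ≤ R := (norm_fst_le (b, d)).trans hbd
  have hd : ‖d‖ ≤ R := (norm_snd_le (b, d)).trans hbd
  have k1 := half a b d ha hb
  have k2 := half a d b ha hd
  have hz0 : (0 : ℝ) < 1 + ‖(a, b)‖ := by positivity
  have hw0 : (0 : ℝ) < 1 + ‖(a, d)‖ := by positivity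
  have hn : ‖(a, b, d)‖ ^ 2 ≤ (1 + ‖(a, b)‖) ^ 2 + (1 + ‖(a, d)‖) ^ 2 := by
    have e : ‖(a, b, d)‖ = max ‖(a, b)‖ ‖(a, d)‖ := by
      rw [Prod.norm_def, Prod.norm_def, Prod.norm_def, Prod.norm_def]
      simp only
      rw [max_max_max_comm, max_self]
    rw [e]
    rcases le_total ‖(a, b)‖ ‖(a, d)‖ with h5 | h5
    · rw [max_eq_right h5]
      nlinarith [norm_nonneg (a, d), norm_nonneg (a, b)]
    · rw [max_eq_left h5]
      nlinarith [norm_nonneg (a, d), norm_nonneg (a, b)]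
  have hG : G5 (a, b, d) = ((1 + ‖(a, b)‖) ^ 5)⁻¹ * ((1 + ‖(a, d)‖) ^ 5)⁻¹ := rfl
  have e1 : ((1 + ‖(a, b)‖) ^ 5)⁻¹ * ((1 + ‖(a, d)‖) ^ 5)⁻¹ * ((1 + ‖(a, b)‖) ^ 2 + (1 + ‖(a, d)‖) ^ 2) =
      ((1 + ‖(a, b)‖) ^ 3)⁻¹ * ((1 + ‖(a, d)‖) ^ 5)⁻¹ + ((1 + ‖(a, d)‖) ^ 3)⁻¹ * ((1 + ‖(a, b)‖) ^ 5)⁻¹ := by
    field_simp
    try ring
  rw [hG]
  calc ((1 + ‖(a, b)‖) ^ 5)⁻¹ * ((1 + ‖(a, d)‖) ^ 5)⁻¹ * ‖(a, b, d)‖ ^ 2
      ≤ ((1 + ‖(a, b)‖) ^ 5)⁻¹ * ((1 + ‖(a, d)‖) ^ 5)⁻¹ * ((1 + ‖(a, b)‖) ^ 2 + (1 + ‖(a, d)‖) ^ 2) := by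
        gcongr
    _ ≤ _ := by
        rw [e1]
        linarith [k1, k2]

theorem pointwise {R : ℝ} (F : W4 → ℝ) (hFG : ∀ q, |F q| ≤ G5 q) (hFs : ∀ q, F q ≠ 0 → ‖q‖ ≤ R) (q : W4) :
    ENNReal.ofReal (|F q| * ‖q‖ ^ 2) ≤ ENNReal.ofReal 32 * (ea R q.1 * (ep R q.2.1 * eh (q.1, q.2.2))) +
      ENNReal.ofReal 32 * (ea R q.1 * (eh (q.1, q.2.1) * ep R q.2.2)) := by
  obtain ⟨a, b, d⟩ := q
  simp only
  unfold ea ep eh
  simp only
  have ha := aa_nn R a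
  have hb := pk_nn (5 / 2) R b
  have hd := pk_nn (5 / 2) R d
  have h1 := hw_nn a d
  have h2 := hw_nn a b
  rw [← ENNReal.ofReal_mul hb, ← ENNReal.ofReal_mul ha, ← ENNReal.ofReal_mul (by norm_num : (0 : ℝ) ≤ 32),
    ← ENNReal.ofReal_mul h2, ← ENNReal.ofReal_mul ha, ← ENNReal.ofReal_mul (by norm_num : (0 : ℝ) ≤ 32),
    ← ENNReal.ofReal_add (by positivity) (by positivity)]
  apply ENNReal.ofReal_le_ofReal
  by_cases hz : F (a, b, d) = 0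
  · rw [hz, abs_zero, zero_mul]
    positivity
  · have hn := hFs _ hz
    refine le_trans ?_ (bound a b d hn)
    have := hFG (a, b, d)
    gcongr

end WEI_

theorem wei_proof (hPKA : Stmt_PKA) (hJIN : Stmt_JIN) : Stmt_WEI := by
  obtain ⟨c, hc0, hc, -⟩ := hJIN
  obtain ⟨C₁, hC0, hC⟩ := hPKA.1 (5 / 2) (by norm_num) (by norm_num)
  refine ⟨64 * (c * (C₁ * C₁)), by positivity, ?_⟩
  intro R hR F hF hFG hFs
  have hP := hC R R hR le_rfl
  have hB : ∫⁻ x, WEI_.ep R x ≤ ENNReal.ofReal (C₁ * R ^ (3 - 5 / 2 : ℝ)) := WEI_.pk_lint hP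
  have f1 := WEI_.first hc0 hc hB
  have f2 := WEI_.second hc0 hc hB
  have hR0 : (0 : ℝ) < R := by linarith
  have hRR : ENNReal.ofReal (C₁ * R ^ (3 - 5 / 2 : ℝ)) * ENNReal.ofReal (C₁ * R ^ (3 - 5 / 2 : ℝ)) =
      ENNReal.ofReal (C₁ * C₁ * R) := by
    rw [← ENNReal.ofReal_mul (by positivity)]
    congr 1
    have : R ^ (3 - 5 / 2 : ℝ) * R ^ (3 - 5 / 2 : ℝ) = R := by
      rw [← Real.rpow_add hR0]
      norm_num
    calc C₁ * R ^ (3 - 5 / 2 : ℝ) * (C₁ * R ^ (3 - 5 / 2 : ℝ)) =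
        C₁ * C₁ * (R ^ (3 - 5 / 2 : ℝ) * R ^ (3 - 5 / 2 : ℝ)) := by ring
      _ = _ := by rw [this]
  rw [hRR, ← ENNReal.ofReal_mul hc0.le] at f1 f2
  have hmF : Measurable (fun q : W4 => |F q| * ‖q‖ ^ 2) := by
    have h1 : Measurable (fun q : W4 => |F q|) := by
      simpa [Real.norm_eq_abs] using hF.norm
    exact h1.mul (measurable_norm.pow_const _)
  rw [integral_eq_lintegral_of_nonneg_ae (Filter.Eventually.of_forall (fun q => by positivity))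
    hmF.aestronglyMeasurable]
  refine ENNReal.toReal_le_of_le_ofReal (by positivity) ?_
  have hM1 : Measurable (fun q : W4 => WEI_.ea R q.1 * (WEI_.ep R q.2.1 * WEI_.eh (q.1, q.2.2))) :=
    WEI_.mes1 _ _ _ (WEI_.ea_meas R) (WEI_.ep_meas R) WEI_.eh_meas
  have hM2 : Measurable (fun q : W4 => WEI_.ea R q.1 * (WEI_.eh (q.1, q.2.1) * WEI_.ep R q.2.2)) :=
    WEI_.mes2 _ _ _ (WEI_.ea_meas R) (WEI_.ep_meas R) WEI_.eh_meas
  refine (lintegral_mono (WEI_.pointwise F hFG hFs)).trans ?_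
  rw [lintegral_add_left (hM1.const_mul _), lintegral_const_mul _ hM1, lintegral_const_mul _ hM2]
  refine (add_le_add (mul_le_mul' le_rfl f1) (mul_le_mul' le_rfl f2)).trans ?_
  rw [← ENNReal.ofReal_mul (by norm_num : (0 : ℝ) ≤ 32), ← ENNReal.ofReal_add (by positivity) (by positivity)]
  apply ENNReal.ofReal_le_ofReal
  apply le_of_eq
  ring

end Pool.Agent.TBK
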