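import Pool.Agent.TBF.All
import Pool.Agent.TBG.All
import Pool.Agent.TBK.TAU
import Pool.Agent.TBK.GTA
import Pool.Agent.TBK.TEN
import Pool.Agent.TBK.KTR
import Pool.Agent.TBK.HBU
import Pool.Agent.TBK.BET
import Pool.Agent.TBK.PUN
import Pool.Agent.TBK.GRD
import Pool.Agent.TBK.GSY
import Pool.Agent.TBK.PT1
import Pool.Agent.TBK.PT2
import Pool.Agent.TBK.PT3
import Pool.Agent.TBK.SUM
import Pool.Agent.TBK.SYC
import Pool.Agent.TBK.PKA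
import Pool.Agent.TBK.KMP
import Pool.Agent.TBK.CKP
import Pool.Agent.TBK.KMS
import Pool.Agent.TBK.KMY
import Pool.Agent.TBK.JIN
import Pool.Agent.TBK.TAI
import Pool.Agent.TBK.WEI
import Pool.Agent.TBK.KM1
import Pool.Agent.TBK.KM2
import Pool.Agent.TBK.KM3
import Pool.Agent.TBK.K4M
import Pool.Agent.TBK.SY4
import Pool.Agent.TBK.SY5
import Pool.Agent.TBK.SY6
import Pool.Agent.TBK.BEK
import Pool.Agent.TBK.KDI
import Pool.Agent.TBK.K4C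
import Pool.Agent.TBK.DTX

/-!
# Kernels of the three-body Bose gas (MP_80dc41_mp, part D, stage K): assembly
-/

set_option autoImplicit false

namespace Pool.Agent.TBK

open Pool.Agent.TBG Pool.Agent.TBL Pool.Agent.TBF Pool.Agent.TBS

theorem t_tau : Stmt_TAU := tau_proof Pool.Agent.TBF.s_scb Pool.Agent.TBG.q_tdl Pool.Agent.TBG.q_lpc
theorem t_gta : Stmt_GTA := gta_proof Pool.Agent.TBF.s_scb Pool.Agent.TBG.q_tdl t_tau
theorem t_ten : Stmt_TEN := ten_proof Pool.Agent.TBG.q_ibp Pool.Agent.TBG.q_adm t_tau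
theorem t_ktr : Pool.Agent.TBS.Stmt_KTR := ktr_proof t_tau t_gta t_ten
theorem t_hbu : Stmt_HBU := hbu_proof
theorem t_bet : Stmt_BET := bet_proof t_hbu
theorem t_pun : Stmt_PUN := pun_proof t_hbu
theorem t_grd : Stmt_GRD := grd_proof
theorem t_gsy : Stmt_GSY := gsy_proof Pool.Agent.TBG.q_ltr Pool.Agent.TBG.q_adm
theorem t_pt1 : Stmt_PT1 := pt1_proof t_bet
theorem t_pt2 : Stmt_PT2 := pt2_proof t_bet t_pt1
theorem t_pt3 : Stmt_PT3 := pt3_proof t_bet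
theorem t_sum : Stmt_SUM := sum_proof t_bet t_pun t_pt1
theorem t_syc : Pool.Agent.TBS.Stmt_SYC := syc_proof t_bet t_pun t_grd t_gsy t_pt2 t_pt3 t_sum
theorem t_pka : Stmt_PKA := pka_proof
theorem t_kmp : Pool.Agent.TBS.Stmt_KMP := kmp_proof t_pka
theorem t_ckp : Stmt_CKP := ckp_proof
theorem t_kms : Pool.Agent.TBS.Stmt_KMS := kms_proof t_pka t_ckp
theorem t_kmy : Pool.Agent.TBS.Stmt_KMY := kmy_proof Pool.Agent.TBF.s_rlp t_pka t_ckp
theorem t_jin : Stmt_JIN := jin_proof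
theorem t_tai : Stmt_TAI := tai_proof t_jin
theorem t_wei : Stmt_WEI := wei_proof t_pka t_jin
theorem t_km1 : Stmt_KM1 := km1_proof t_tai t_wei
theorem t_km2 : Stmt_KM2 := km2_proof Pool.Agent.TBF.s_rlp Pool.Agent.TBF.s_inw
theorem t_km3 : Stmt_KM3 := km3_proof Pool.Agent.TBF.s_scb
theorem t_k4m : Pool.Agent.TBS.Stmt_K4M := k4m_proof t_km1 t_km2 t_km3
theorem t_sy4 : Stmt_SY4 := sy4_proof Pool.Agent.TBF.s_rlp Pool.Agent.TBF.s_rld
  Pool.Agent.TBF.s_rls Pool.Agent.TBF.s_pmv Pool.Agent.TBF.s_der Pool.Agent.TBF.s_dvp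
  Pool.Agent.TBF.s_scb t_tai
theorem t_sy5 : Stmt_SY5 := sy5_proof Pool.Agent.TBF.s_rlp Pool.Agent.TBF.s_rld
  Pool.Agent.TBF.s_rls Pool.Agent.TBF.s_pmv Pool.Agent.TBF.s_der Pool.Agent.TBF.s_dvp
  Pool.Agent.TBF.s_alg
theorem t_sy6 : Stmt_SY6 := sy6_proof Pool.Agent.TBF.s_rlp Pool.Agent.TBF.s_rls
  Pool.Agent.TBF.s_pmv Pool.Agent.TBF.s_scb
theorem t_bek : Stmt_BEK := bek_proof Pool.Agent.TBF.s_scb t_km2 t_km3 t_tai t_sy4 t_sy5 t_sy6
theorem t_kdi : Stmt_KDI := kdi_proof Pool.Agent.TBF.s_rlp Pool.Agent.TBF.s_inw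
  Pool.Agent.TBF.s_scb t_tai t_km2 t_km3
theorem t_k4c : Pool.Agent.TBS.Stmt_K4C := k4c_proof t_k4m t_bek t_kdi
theorem t_dtx : Pool.Agent.TBS.Stmt_DTX := dtx_proof t_ktr t_syc t_kmp t_kms t_kmy t_k4c t_km1
  t_km2 t_km3

end Pool.Agent.TBK
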