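import Pool.Agent.TBK.Stmts

/-!
# Three-body Bose gases (MP_80dc41_mp), construction of the kernels: module K4C
-/

set_option autoImplicit false

open MeasureTheory Filter Topology
open scoped ContDiff

namespace Pool.Agent.TBK

open Pool.Agent.TBG Pool.Agent.TBL Pool.Agent.TBF Pool.Agent.TBS

namespace K4C_

theorem int_of (K : W4 → ℝ) (r : ℝ) (h1 : BM K) (h2 : ∀ q, K q ≠ 0 → ‖q‖ ≤ r) : Integrable K := by
  obtain ⟨hm, C, hC⟩ := h1
  have hs : Function.support K ⊆ Metric.closedBall (0 : W4) r := fun q hq => by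
    rw [mem_closedBall_zero_iff]
    exact h2 q hq
  rw [← integrableOn_iff_integrable_of_support_subset hs]
  have hfin : volume (Metric.closedBall (0 : W4) r) < ⊤ := (isCompact_closedBall (0 : W4) r).measure_lt_top
  exact Measure.integrableOn_of_bounded hfin.ne hm.aestronglyMeasurable
    (Eventually.of_forall fun q => by rw [Real.norm_eq_abs]; exact hC q)

end K4C_

open K4C_

theorem k4c_proof (h1 : Pool.Agent.TBS.Stmt_K4M) (h2 : Stmt_BEK) (h3 : Stmt_KDI) :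
    Pool.Agent.TBS.Stmt_K4C := by
  intro C φ y hφ hy hs
  obtain ⟨A, hA, hM⟩ := h1 C φ y hφ hy hs
  obtain ⟨B, hB, hD⟩ := h3 C φ y hφ hy
  refine ⟨3 * A + 24 * B, by positivity, ?_⟩
  intro R l τ g Y g₄ hR hRl hT hY
  have hR0 : 0 < R := by linarith
  obtain ⟨i1, e1⟩ := h2 C φ y l Y g₄ hφ hy (hR.trans hRl) hY
  obtain ⟨i2, e2⟩ := hD R l τ g Y g₄ hR hRl hT hY
  have i3 : Integrable (k4 φ τ y Y) := by
    have := i2.add i1
    refine this.congr (Eventually.of_forall fun q => ?_)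
    simp
  refine ⟨i3, ?_, ?_⟩
  · obtain ⟨a1, b1, c1, d1, -⟩ := hM R l τ g Y g₄ hR hRl hT hY _ (Or.inl rfl)
    obtain ⟨a2, b2, c2, d2, -⟩ := hM R l τ g Y g₄ hR hRl hT hY _ (Or.inr (Or.inl rfl))
    obtain ⟨a3, b3, c3, d3, -⟩ := hM R l τ g Y g₄ hR hRl hT hY _ (Or.inr (Or.inr (Or.inl rfl)))
    obtain ⟨a4, b4, c4, d4, -⟩ := hM R l τ g Y g₄ hR hRl hT hY _ (Or.inr (Or.inr (Or.inr (Or.inl rfl))))
    obtain ⟨a5, b5, c5, d5, -⟩ := hM R l τ g Y g₄ hR hRl hT hY _ (Or.inr (Or.inr (Or.inr (Or.inr rfl))))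
    have hr : ∀ K : W4 → ℝ, (∀ q, K q ≠ 0 → ‖q‖ ≤ A + R ∨ ‖q‖ ≤ l) → ∀ q, K q ≠ 0 → ‖q‖ ≤ max (A + R) l :=
      fun K h q hq => le_max_iff.2 (h q hq)
    have j1 := int_of _ _ a1 (hr _ c1)
    have j2 := int_of _ _ a2 (hr _ c2)
    have j3 := int_of _ _ a3 (hr _ c3)
    have j4 := int_of _ _ a4 (hr _ c4)
    have j5 := int_of _ _ a5 (hr _ c5)
    have key : ∫ q, |k4 φ τ y Y q| ≤ ∫ q, ((∑ c, |dv (dr 0 c) τ (q.1, q.2.1)| * |dv (dr 0 c) τ (q.1, q.2.2)|)
        + (∑ c, |dv (dr 0 c) τ (q.1, q.2.1)| * |Y 0 c q|) + 1 / 6 * (∑ c, Y 0 c q ^ 2)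
        + 1 / 3 * (ww φ (q.1, q.2.1) * |y q|) + 1 / 6 * (VV φ q.1 q.2.1 * y q ^ 2)) := by
      refine integral_mono i3.abs ((((j1.add j2).add (j3.const_mul _)).add (j4.const_mul _)).add
        (j5.const_mul _)) fun q => ?_
      have t1 : |∑ c, dv (dr 0 c) τ (q.1, q.2.1) * dv (dr 0 c) τ (q.1, q.2.2)| ≤
          ∑ c, |dv (dr 0 c) τ (q.1, q.2.1)| * |dv (dr 0 c) τ (q.1, q.2.2)| := by
        refine (Finset.abs_sum_le_sum_abs _ _).trans (le_of_eq ?_)
        exact Finset.sum_congr rfl fun c _ => abs_mul _ _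
      have t2 : |∑ c, dv (dr 0 c) τ (q.1, q.2.1) * Y 0 c q| ≤
          ∑ c, |dv (dr 0 c) τ (q.1, q.2.1)| * |Y 0 c q| := by
        refine (Finset.abs_sum_le_sum_abs _ _).trans (le_of_eq ?_)
        exact Finset.sum_congr rfl fun c _ => abs_mul _ _
      have t3 : 0 ≤ ∑ c, Y 0 c q ^ 2 := b3 q
      have t4 : |ww φ (q.1, q.2.1) * y q| = ww φ (q.1, q.2.1) * |y q| := by
        rw [abs_mul, abs_of_nonneg]
        have := hφ.sup (q.1, q.2.1)
        unfold ww
        linarith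
      have t5 : 0 ≤ VV φ q.1 q.2.1 * y q ^ 2 := b5 q
      have t1' := abs_le.1 t1
      have t2' := abs_le.1 t2
      have t4' := abs_le.1 t4.le
      show |k4 φ τ y Y q| ≤ _
      unfold k4
      rw [abs_le]
      constructor <;> linarith [t1'.1, t1'.2, t2'.1, t2'.2, t4'.1, t4'.2]
    refine key.trans ?_
    rw [integral_add, integral_add, integral_add, integral_add, integral_const_mul, integral_const_mul,
      integral_const_mul]
    · linarith
    · exact j1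
    · exact j2
    · exact j1.add j2
    · exact j3.const_mul _
    · exact (j1.add j2).add (j3.const_mul _)
    · exact j4.const_mul _
    · exact ((j1.add j2).add (j3.const_mul _)).add (j4.const_mul _)
    · exact j5.const_mul _
  · have e3 : ∫ q, (k4 φ τ y Y q - k4 φ φ y Y q) = (∫ q, k4 φ τ y Y q) - ∫ q, k4 φ φ y Y q :=
      integral_sub i3 i1
    have e4 : |∫ q, (k4 φ τ y Y q - k4 φ φ y Y q)| ≤ B / R := (abs_integral_le_integral_abs).trans e2
    rw [e3] at e4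
    have e5 : 2 * (∫ q, g₄ q) - 24 * (∫ q, k4 φ τ y Y q) - bet φ y Y g₄ =
        -(24 * ((∫ q, k4 φ τ y Y q) - ∫ q, k4 φ φ y Y q)) := by
      rw [e1]
      ring
    rw [e5, abs_neg, abs_mul, abs_of_pos (by norm_num : (0 : ℝ) < 24)]
    have e6 : 24 * (B / R) ≤ (3 * A + 24 * B) / R := by
      rw [← mul_div_assoc]
      exact div_le_div_of_nonneg_right (by linarith) hR0.le
    linarith

end Pool.Agent.TBK
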