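import Pool.Agent.TBK.Stmts

/-!
# Squad TBK: module PKA (one-particle kernels)
-/

set_option autoImplicit false

open MeasureTheory Filter Topology
open scoped ContDiff

namespace Pool.Agent.TBK

open Pool.Agent.TBG Pool.Agent.TBL Pool.Agent.TBF Pool.Agent.TBS

namespace PKA_

lemma fin3 : Module.finrank ℝ E = 3 := by simp

/-- the profile -/
noncomputable def pf (α R s : ℝ) : ℝ := if s ≤ R then (1 + s) ^ (-α) else 0

lemma pk_eq (α R : ℝ) (x : E) : pk α R x = pf α R ‖x‖ := by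
  unfold pk pf ic
  by_cases h : ‖x‖ ≤ R
  · rw [Set.indicator_of_mem (show x ∈ {y : E | ‖y‖ ≤ R} from h), if_pos h, one_mul]
  · rw [Set.indicator_of_notMem (show x ∉ {y : E | ‖y‖ ≤ R} from h), if_neg h, zero_mul]

lemma pk_of_le {α R : ℝ} {x : E} (h : ‖x‖ ≤ R) : pk α R x = (1 + ‖x‖) ^ (-α) := by
  rw [pk_eq, pf, if_pos h]

lemma pk_of_gt {α R : ℝ} {x : E} (h : ¬ ‖x‖ ≤ R) : pk α R x = 0 := by
  rw [pk_eq, pf, if_neg h]

lemma pk_meas (α R : ℝ) : Measurable (pk α R) := by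
  unfold pk ic
  refine Measurable.mul ?_ ?_
  · refine measurable_const.indicator ?_
    exact measurableSet_le measurable_norm measurable_const
  · exact (measurable_const.add measurable_norm).pow_const _

lemma pk_nn (α R : ℝ) (x : E) : 0 ≤ pk α R x := by
  by_cases h : ‖x‖ ≤ R
  · rw [pk_of_le h]
    positivity
  · rw [pk_of_gt h]

/-- comparison of powers -/
lemma rp_le {a b t : ℝ} (ht : 1 ≤ t) (hab : b ≤ a) : t ^ (-a) ≤ t ^ (-b) :=
  Real.rpow_le_rpow_of_exponent_le ht (by linarith)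

lemma one_le (x : E) : (1 : ℝ) ≤ 1 + ‖x‖ := by linarith [norm_nonneg x]

lemma pk_le1 {α : ℝ} (hα : 0 ≤ α) (R : ℝ) (x : E) : pk α R x ≤ 1 := by
  by_cases h : ‖x‖ ≤ R
  · rw [pk_of_le h]
    have := rp_le (one_le x) hα
    simpa using this
  · rw [pk_of_gt h]
    exact zero_le_one

lemma coord_le (x : E) (c : Fin 3) : |x c| ≤ ‖x‖ := by
  have := PiLp.norm_apply_le x c
  simpa using this

lemma pk_sp {α R l : ℝ} (hRl : R ≤ l) (x : E) (hx : pk α R x ≠ 0) (c : Fin 3) : |x c| ≤ l := by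
  have h : ‖x‖ ≤ R := by
    by_contra h
    exact hx (pk_of_gt h)
  linarith [coord_le x c]

lemma pk_m2 {α : ℝ} (hα : 2 ≤ α) (R : ℝ) (x : E) : pk α R x * ‖x‖ ^ 2 ≤ 1 := by
  by_cases h : ‖x‖ ≤ R
  · rw [pk_of_le h]
    have h1 : (1 + ‖x‖) ^ (-α) ≤ (1 + ‖x‖) ^ (-(2 : ℝ)) := rp_le (one_le x) hα
    have h2 : ‖x‖ ^ 2 ≤ (1 + ‖x‖) ^ 2 :=
      pow_le_pow_left₀ (norm_nonneg x) (by linarith [norm_nonneg x]) 2
    have h3 : (1 + ‖x‖) ^ (-(2 : ℝ)) * (1 + ‖x‖) ^ 2 = 1 := by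
      rw [Real.rpow_neg (by positivity), Real.rpow_two]
      exact inv_mul_cancel₀ (by positivity)
    calc (1 + ‖x‖) ^ (-α) * ‖x‖ ^ 2 ≤ (1 + ‖x‖) ^ (-(2 : ℝ)) * (1 + ‖x‖) ^ 2 :=
          mul_le_mul h1 h2 (by positivity) (by positivity)
      _ = 1 := h3
  · rw [pk_of_gt h, zero_mul]
    exact zero_le_one

lemma int_pow {a : ℝ} (ha : 3 < a) : Integrable (fun x : E => (1 + ‖x‖) ^ (-a)) := by
  refine integrable_one_add_norm ?_
  rw [fin3]
  exact_mod_cast ha

lemma pk_m3 {α : ℝ} (hα : 2 ≤ α) (R : ℝ) :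
    ∫ x, pk α R x ^ 2 ≤ ∫ x : E, (1 + ‖x‖) ^ (-(4 : ℝ)) := by
  refine integral_mono_of_nonneg (Eventually.of_forall fun x => sq_nonneg _)
    (int_pow (by norm_num)) (Eventually.of_forall fun x => ?_)
  simp only
  by_cases h : ‖x‖ ≤ R
  · rw [pk_of_le h, ← Real.rpow_natCast, ← Real.rpow_mul (by positivity)]
    have := rp_le (a := 2 * α) (one_le x) (show (4 : ℝ) ≤ 2 * α by linarith)
    refine le_trans (le_of_eq ?_) this
    congr 1
    push_cast
    ring
  · rw [pk_of_gt h]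
    simp only [ne_eq, OfNat.ofNat_ne_zero, not_false_eq_true, zero_pow]
    positivity

lemma pk_m1_big {α : ℝ} (hα : 3 < α) (R : ℝ) :
    ∫ x, pk α R x ≤ ∫ x : E, (1 + ‖x‖) ^ (-α) := by
  refine integral_mono_of_nonneg (Eventually.of_forall fun x => pk_nn α R x)
    (int_pow hα) (Eventually.of_forall fun x => ?_)
  simp only
  by_cases h : ‖x‖ ≤ R
  · rw [pk_of_le h]
  · rw [pk_of_gt h]
    positivity

lemma prof {α R : ℝ} (hα : 2 ≤ α) (hα3 : α < 3) (hR : 1 ≤ R) :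
    ∫ y in Set.Ioi (0 : ℝ), y ^ 2 • pf α R y ≤ R ^ (3 - α) / (3 - α) := by
  have hR0 : (0 : ℝ) ≤ R := by linarith
  have e1 : ∫ y in Set.Ioi (0 : ℝ), y ^ 2 • pf α R y =
      ∫ y in Set.Ioc (0 : ℝ) R, y ^ 2 • pf α R y := by
    refine setIntegral_eq_of_subset_of_forall_sdiff_eq_zero measurableSet_Ioi
      (fun y hy => hy.1) fun y hy => ?_
    have h1 : ¬ y ≤ R := fun h => hy.2 ⟨hy.1, h⟩
    rw [pf, if_neg h1, smul_zero]
  have hii : IntervalIntegrable (fun y : ℝ => y ^ (2 - α)) volume 0 R :=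
    intervalIntegral.intervalIntegrable_rpow' (by linarith)
  have hi : IntegrableOn (fun y : ℝ => y ^ (2 - α)) (Set.Ioc 0 R) :=
    (intervalIntegrable_iff_integrableOn_Ioc_of_le hR0).1 hii
  have e2 : ∫ y in Set.Ioc (0 : ℝ) R, y ^ 2 • pf α R y ≤
      ∫ y in Set.Ioc (0 : ℝ) R, y ^ (2 - α) := by
    refine integral_mono_of_nonneg ?_ hi ?_
    · rw [EventuallyLE, ae_restrict_iff' measurableSet_Ioc]
      refine Eventually.of_forall fun y hy => ?_
      have hy0 : 0 < y := hy.1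
      simp only [Pi.zero_apply, smul_eq_mul, pf, if_pos hy.2]
      positivity
    · rw [EventuallyLE, ae_restrict_iff' measurableSet_Ioc]
      refine Eventually.of_forall fun y hy => ?_
      have hy0 : 0 < y := hy.1
      simp only [smul_eq_mul, pf, if_pos hy.2]
      have h1 : (1 + y) ^ (-α) ≤ y ^ (-α) :=
        Real.rpow_le_rpow_of_nonpos hy0 (by linarith) (by linarith)
      calc y ^ 2 * (1 + y) ^ (-α) ≤ y ^ 2 * y ^ (-α) :=
            mul_le_mul_of_nonneg_left h1 (by positivity)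
        _ = y ^ (2 - α) := by
            rw [← Real.rpow_natCast y 2, ← Real.rpow_add hy0]
            congr 1
  rw [e1]
  refine e2.trans (le_of_eq ?_)
  rw [← intervalIntegral.integral_of_le hR0, integral_rpow (Or.inl (by linarith)),
    Real.zero_rpow (by linarith)]
  rw [show (2 : ℝ) - α + 1 = 3 - α by ring]
  ring

lemma pk_m1 {α : ℝ} (hα : 2 ≤ α) (hα3 : α < 3) {R : ℝ} (hR : 1 ≤ R) :
    ∫ x, pk α R x ≤ 3 * (volume.real (Metric.ball (0 : E) 1) * (R ^ (3 - α) / (3 - α))) := by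
  have e : ∫ x, pk α R x = ∫ x : E, pf α R ‖x‖ := by
    simp only [pk_eq]
  rw [e, integral_fun_norm_addHaar, fin3]
  have h1 := prof hα hα3 hR
  have h2 : (0 : ℝ) ≤ volume.real (Metric.ball (0 : E) 1) := measureReal_nonneg
  have h3 := mul_le_mul_of_nonneg_left h1 h2
  simp only [nsmul_eq_mul, smul_eq_mul] at h3 ⊢
  norm_num at h3 ⊢
  linarith

end PKA_

open PKA_ in
theorem pka_proof : Stmt_PKA := by
  constructor
  · intro α hα hα3
    set I4 : ℝ := ∫ x : E, (1 + ‖x‖) ^ (-(4 : ℝ)) with hI4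
    have hI40 : 0 ≤ I4 := integral_nonneg fun x => by positivity
    set V : ℝ := volume.real (Metric.ball (0 : E) 1) with hV
    have hV0 : 0 ≤ V := measureReal_nonneg
    have h3α : 0 < 3 - α := by linarith
    refine ⟨3 * (V / (3 - α)) + I4 + 1, by positivity, fun R l hR hRl => ?_⟩
    refine ⟨pk_meas α R, pk_nn α R, pk_le1 (by linarith) R, fun x hx c => pk_sp hRl x hx c, ?_,
      fun x => ?_, ?_⟩
    · refine (pk_m1 hα hα3 hR).trans ?_
      have hRp : (0 : ℝ) ≤ R ^ (3 - α) := by positivity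
      have e : 3 * (V * (R ^ (3 - α) / (3 - α))) = 3 * (V / (3 - α)) * R ^ (3 - α) := by ring
      rw [← hV, e]
      refine mul_le_mul_of_nonneg_right ?_ hRp
      linarith
    · refine (pk_m2 hα R x).trans ?_
      have : 0 ≤ 3 * (V / (3 - α)) := by positivity
      linarith
    · refine (pk_m3 hα R).trans ?_
      have : 0 ≤ 3 * (V / (3 - α)) := by positivity
      linarith
  · intro α hα
    set I4 : ℝ := ∫ x : E, (1 + ‖x‖) ^ (-(4 : ℝ)) with hI4
    have hI40 : 0 ≤ I4 := integral_nonneg fun x => by positivity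
    set Ia : ℝ := ∫ x : E, (1 + ‖x‖) ^ (-α) with hIa
    have hIa0 : 0 ≤ Ia := integral_nonneg fun x => by positivity
    refine ⟨Ia + I4 + 1, by positivity, fun R l hR hRl => ?_⟩
    refine ⟨pk_meas α R, pk_nn α R, pk_le1 (by linarith) R, fun x hx c => pk_sp hRl x hx c, ?_,
      fun x => ?_, ?_⟩
    · refine (pk_m1_big hα R).trans ?_
      linarith
    · refine (pk_m2 (by linarith) R x).trans ?_
      linarith
    · refine (pk_m3 (by linarith) R).trans ?_
      linarith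

end Pool.Agent.TBK
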