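import Pool.Agent.TBS.StmtsK
import Pool.Agent.TBF.Stmts

/-!
# Three-body Bose gases (MP_80dc41_mp), construction of the kernels: statements of the modules
# Recipes: /team-store/MP_80dc41_TBK.md.  Outputs: Pool/Agent/TBS/StmtsK.lean
-/

set_option autoImplicit false

open MeasureTheory Filter Topology
open scoped ContDiff

namespace Pool.Agent.TBK

open Pool.Agent.TBG Pool.Agent.TBL Pool.Agent.TBF Pool.Agent.TBS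

/-! ## A. The cut off scattering function -/

/-- the soft potential of the cut off function -/
noncomputable def sg (φ : E × E → ℝ) (δ : ℝ) (z : E × E) : ℝ := Lap (fun z => Td δ (φ z)) z + ww φ z

/-- TAU: the cut off function. Uses F:SCB G:TDL G:LPC. -/
def Stmt_TAU : Prop := ∀ φ : E × E → ℝ, Scat φ → ∃ C : ℝ, 0 < C ∧ ∀ δ : ℝ, 0 < δ →
  ContDiff ℝ ∞ (fun z => Td δ (φ z)) ∧
  (∀ x y, Td δ (φ (x, y)) = Td δ (φ (y, x)) ∧ Td δ (φ (x, y)) = Td δ (φ (-x, y - x))) ∧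
  (∀ z, 0 ≤ Td δ (φ z) ∧ Td δ (φ z) ≤ φ z ∧ (1 + ‖z‖) ^ 4 * Td δ (φ z) ≤ C) ∧
  (∀ m c z, dv (dr m c) (fun z => Td δ (φ z)) z = deriv (Td δ) (φ z) * dv (dr m c) φ z ∧
    (1 + ‖z‖) ^ 5 * |dv (dr m c) (fun z => Td δ (φ z)) z| ≤ C) ∧
  (∀ z, sg φ δ z = (1 - deriv (Td δ) (φ z)) * ww φ z + deriv (deriv (Td δ)) (φ z) * gsq φ z)

/-- GTA: supports and bounds, `δ = A / R⁴`. Uses F:SCB G:TDL TAU. -/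
def Stmt_GTA : Prop := ∀ φ : E × E → ℝ, Scat φ → ∃ A C R₀ : ℝ, 0 < A ∧ 0 < C ∧ 1 ≤ R₀ ∧ ∀ R : ℝ, R₀ ≤ R →
  (∀ z : E × E, R < ‖z‖ → Td (A / R ^ 4) (φ z) = 0 ∧ sg φ (A / R ^ 4) z = 0) ∧
  (∀ z, 0 ≤ sg φ (A / R ^ 4) z ∧ R ^ 6 * sg φ (A / R ^ 4) z ≤ C) ∧
  (∀ m c (z : E × E), C * ‖z‖ ≤ R → dv (dr m c) (fun z => Td (A / R ^ 4) (φ z)) z = dv (dr m c) φ z)

/-- TEN: mass and energy. Uses G:IBP G:ADM TAU. -/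
def Stmt_TEN : Prop := ∀ (φ : E × E → ℝ) (δ R : ℝ), Scat φ → 0 < δ → (∀ z : E × E, R < ‖z‖ → Td δ (φ z) = 0) →
  (∀ z, 0 ≤ sg φ δ z) → ∫ z, sg φ δ z = ∫ z, ww φ z ∧
  ∫ z, (gsq (fun z => Td δ (φ z)) z + ww φ z * (1 - φ z)) ≤ ∫ z, ww φ z

-- KTR (output, Pool.Agent.TBS.Stmt_KTR). Uses TAU GTA TEN.

/-! ## B. The grid -/

/-- a bump function -/
noncomputable def hb (t : ℝ) : ℝ := Real.smoothTransition (t + 1) - Real.smoothTransition t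

/-- HBU: the bump function. Uses nothing. -/
def Stmt_HBU : Prop := ContDiff ℝ ∞ hb ∧ (∀ t, 0 ≤ hb t ∧ hb t ≤ 1) ∧ (∀ t, 1 ≤ |t| → hb t = 0) ∧
  (∃ C : ℝ, ∀ t, |deriv hb t| ≤ C) ∧ ∫ t, hb t = 1 ∧
  (∀ (t : ℝ) (a b : ℕ), a ≤ b → ∑ n ∈ Finset.Ico a b, hb (t - n) =
    Real.smoothTransition (t - a + 1) - Real.smoothTransition (t - b + 1))

/-- the partition functions -/
noncomputable def be (l : ℝ) (a x : E) : ℝ := ∏ c, hb ((x c - a c) / l)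

/-- BET: the partition functions. Uses HBU. -/
def Stmt_BET : Prop := ∃ C : ℝ, 0 < C ∧ ∀ l : ℝ, 0 < l → ∀ a : E, ContDiff ℝ ∞ (be l a) ∧
  (∀ x, 0 ≤ be l a x ∧ be l a x ≤ 1) ∧ (∀ x, be l a x ≠ 0 → x ∈ Qb a l) ∧
  (∀ c x, |pd c (be l a) x| ≤ C / l) ∧ ∫ x, be l a x = l ^ 3

/-- PUN: partition of unity. Uses HBU. -/
def Stmt_PUN : Prop := ∀ (Mc : ℕ) (l R M : ℝ), 0 < l → (∀ x, ∑ a ∈ (gpar Mc l R M).Gr, be l a x ≤ 1) ∧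
  (∀ k : Fin 3 → Fin Mc, (∀ c, 13 ≤ (k c : ℕ) ∧ (k c : ℕ) + 13 ≤ Mc) → ∀ x ∈ Qb (cc l Mc k) l,
    ∑ a ∈ (gpar Mc l R M).Gr, be l a x = 1)

/-- GRD: the grid. Uses nothing. -/
def Stmt_GRD : Prop := ∀ (Mc : ℕ) (l R M : ℝ), 0 < l →
  (∀ a ∈ (gpar Mc l R M).Gr, Qc (gpar Mc l R M) a ⊆ Om (gpar Mc l R M).L) ∧
  (gpar Mc l R M).Gi ⊆ (gpar Mc l R M).Gr ∧
  (∀ x : E, ((((gpar Mc l R M).Gr.filter (fun a => ∀ c, |x c - a c| ≤ 12 * (gpar Mc l R M).l)).card : ℕ) : ℝ)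
    ≤ 15625)

/-- GSY: the soft potential. Uses G:LTR G:ADM. -/
def Stmt_GSY : Prop := ∀ (C R : ℝ) (φ τ g : E × E → ℝ), Scat φ → Tri C R φ τ g →
  (∀ x y, g (x, y) = g (y, x) ∧ g (x, y) = g (-x, y - x)) ∧ Continuous g ∧ HasCompactSupport g ∧ Integrable g

/-- the density of triples -/
noncomputable def Pd (b l : ℝ) (g : E × E → ℝ) (a x y z : E) : ℝ :=
  (b * l ^ 3)⁻¹ * (be l a ((1 / 3 : ℝ) • (x + y + z)) * g (x - y, x - z))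

/-- its marginal -/
noncomputable def thd (b l : ℝ) (g : E × E → ℝ) (a x : E) : ℝ := ∫ y, ∫ z, Pd b l g a x y z

/-- soft potentials -/
structure Sof (b R C : ℝ) (g : E × E → ℝ) : Prop where
  pos : 0 < b
  cont : Continuous g
  nn : ∀ z, 0 ≤ g z
  sp : ∀ z : E × E, R < ‖z‖ → g z = 0
  gb : ∀ z, R ^ 6 * g z ≤ C
  mass : ∫ z, g z = b
  sy1 : ∀ x y, g (x, y) = g (y, x)
  sy2 : ∀ x y, g (x, y) = g (-x, y - x)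

/-- PT1: formula for the marginal. Uses BET. -/
def Stmt_PT1 : Prop := ∀ (b R C l : ℝ) (g : E × E → ℝ), Sof b R C g → 1 ≤ R → R ≤ l → ∀ a x : E,
  Integrable (fun w : E × E => be l a (x - (1 / 3 : ℝ) • (w.1 + w.2)) * g w) ∧
  thd b l g a x = (b * l ^ 3)⁻¹ * ∫ w : E × E, be l a (x - (1 / 3 : ℝ) • (w.1 + w.2)) * g w

/-- PT2: properties of the marginal. Uses BET PT1. -/
def Stmt_PT2 : Prop := ∀ (b R C l : ℝ) (g : E × E → ℝ), Sof b R C g → 1 ≤ R → R ≤ l → ∀ a : E,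
  Measurable (thd b l g a) ∧ (∀ x, 0 ≤ thd b l g a x ∧ thd b l g a x ≤ (l ^ 3)⁻¹) ∧
  (∀ x, thd b l g a x ≠ 0 → x ∈ Qb a (2 * l)) ∧ ∫ x, thd b l g a x = 1

/-- PT3: properties of the density. Uses BET. -/
def Stmt_PT3 : Prop := ∀ (b R C l : ℝ) (g : E × E → ℝ), Sof b R C g → 1 ≤ R → R ≤ l → ∀ a : E,
  Sy3 (Pd b l g a) ∧ BM3 (Pd b l g a) ∧
  (∀ x y z, 0 ≤ Pd b l g a x y z ∧ Pd b l g a x y z ≤ C / b / (l ^ 3 * R ^ 6)) ∧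
  (∀ x y z, Pd b l g a x y z ≠ 0 → x ∈ Qb a (2 * l) ∧ ‖x - y‖ ≤ R ∧ ‖x - z‖ ≤ R)

/-- SUM: the sum of the marginals. Uses BET PUN PT1. -/
def Stmt_SUM : Prop := ∀ (b R C l : ℝ) (g : E × E → ℝ), Sof b R C g → 1 ≤ R → R ≤ l → ∀ (Mc : ℕ) (R' M : ℝ)
  (k : Fin 3 → Fin Mc), (∀ c, 14 ≤ (k c : ℕ) ∧ (k c : ℕ) + 14 ≤ Mc) → ∀ x ∈ cub l (crn l Mc k),
  l ^ 3 * ∑ a ∈ (gpar Mc l R' M).Gr, thd b l g a x = 1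

-- SYC (output, Pool.Agent.TBS.Stmt_SYC). Uses BET PUN GRD GSY PT2 PT3 SUM.

/-! ## C. Kernels -/

/-- PKA: one-particle kernels. Uses nothing. -/
def Stmt_PKA : Prop := (∀ α : ℝ, 2 ≤ α → α < 3 → ∃ C₁ : ℝ, 0 < C₁ ∧ ∀ R l : ℝ, 1 ≤ R → R ≤ l →
    Pk l (C₁ * R ^ (3 - α)) C₁ C₁ (pk α R)) ∧
  (∀ α : ℝ, 3 < α → ∃ C₁ : ℝ, 0 < C₁ ∧ ∀ R l : ℝ, 1 ≤ R → R ≤ l → Pk l C₁ C₁ C₁ (pk α R))

-- KMP (output, Pool.Agent.TBS.Stmt_KMP). Uses PKA.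

/-- CKP: products of one-particle kernels. Uses nothing. -/
def Stmt_CKP : Prop := (∀ (m : ℕ) (l C₁ : ℝ) (w w₂ w₃ : Fin m → ℝ) (q : Fin m → E → ℝ) (K : (Fin (m + 1) → E) → ℝ),
    0 ≤ l → 0 ≤ C₁ → (∀ s, Pk l (w s) (w₂ s) (w₃ s) (q s)) → Measurable K →
    (∀ x, 0 ≤ K x ∧ K x ≤ C₁ * ∏ s : Fin m, q s (x 0 - x s.succ)) → Ck m l (C₁ * ∏ s, w s) K) ∧
  (∀ (m : ℕ) (l κ₁ κ₂ : ℝ) (K₁ K₂ : (Fin (m + 1) → E) → ℝ), Ck m l κ₁ K₁ → Ck m l κ₂ K₂ →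
    Ck m l (κ₁ + κ₂) (fun x => K₁ x + K₂ x)) ∧
  (∀ (m : ℕ) (l κ κ' : ℝ) (K : (Fin (m + 1) → E) → ℝ), Ck m l κ K → κ ≤ κ' → Ck m l κ' K)

-- KMS (output, Pool.Agent.TBS.Stmt_KMS). Uses PKA CKP.
-- KMY (output, Pool.Agent.TBS.Stmt_KMY). Uses F:RLP PKA CKP.

/-! ## D. Four-body kernels -/

/-- JIN: integrals over `ℝ³`. Uses nothing. -/
def Stmt_JIN : Prop := ∃ c : ℝ, 0 < c ∧ (∀ A : ℝ, 1 ≤ A → Integrable (fun x : E => ((A + ‖x‖) ^ 5)⁻¹) ∧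
    ∫ x : E, ((A + ‖x‖) ^ 5)⁻¹ ≤ c * (A ^ 2)⁻¹) ∧
  (∀ ρ : ℝ, 1 ≤ ρ → Integrable (fun x : E => ((ρ + ‖x‖) ^ 2)⁻¹ * ((1 + ‖x‖) ^ 2)⁻¹) ∧
    ∫ x : E, ((ρ + ‖x‖) ^ 2)⁻¹ * ((1 + ‖x‖) ^ 2)⁻¹ ≤ c / ρ)

/-- the weight of products of gradients in the particle `1` -/
noncomputable def G5 (q : W4) : ℝ := ((1 + ‖(q.1, q.2.1)‖) ^ 5)⁻¹ * ((1 + ‖(q.1, q.2.2)‖) ^ 5)⁻¹

/-- TAI: tails. Uses JIN. -/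
def Stmt_TAI : Prop := ∃ c : ℝ, 0 < c ∧ ∀ ρ : ℝ, 1 ≤ ρ → ∀ F : W4 → ℝ, Measurable F → (∀ q, |F q| ≤ G5 q) →
  (∀ q, F q ≠ 0 → ρ ≤ 1 + ‖(q.1, q.2.1)‖ ∨ ρ ≤ 1 + ‖(q.1, q.2.2)‖) → Integrable F ∧ ∫ q, |F q| ≤ c / ρ

/-- WEI: weighted integrals. Uses PKA JIN. -/
def Stmt_WEI : Prop := ∃ c : ℝ, 0 < c ∧ ∀ R : ℝ, 1 ≤ R → ∀ F : W4 → ℝ, Measurable F → (∀ q, |F q| ≤ G5 q) →
  (∀ q, F q ≠ 0 → ‖q‖ ≤ R) → ∫ q, |F q| * ‖q‖ ^ 2 ≤ c * R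

/-- the properties of the four-body kernels -/
structure K4P (C₁ r R : ℝ) (K : W4 → ℝ) : Prop where
  bm : BM K
  nn : ∀ q, 0 ≤ K q
  sp : ∀ q, K q ≠ 0 → ‖q‖ ≤ r
  int : Integrable K
  mass : ∫ q, K q ≤ C₁
  sec : ∫ q, K q * ‖q‖ ^ 2 ≤ C₁ * R

/-- KM1: products of two gradients. Uses TAI WEI. -/
def Stmt_KM1 : Prop := ∀ C : ℝ, ∃ C₁ : ℝ, 0 < C₁ ∧ ∀ (φ : E × E → ℝ) (R : ℝ) (τ g : E × E → ℝ), 1 ≤ R →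
  Tri C R φ τ g →
  K4P C₁ R R (fun q => ∑ c, |dv (dr 0 c) τ (q.1, q.2.1)| * |dv (dr 0 c) τ (q.1, q.2.2)|)

/-- KM2: terms with the field `Y`. Uses F:RLP F:INW. -/
def Stmt_KM2 : Prop := ∀ C : ℝ, ∃ C₁ : ℝ, 0 < C₁ ∧ ∀ (φ : E × E → ℝ) (y : W4 → ℝ) (l : ℝ)
  (Y : Fin 4 → Fin 3 → W4 → ℝ) (g₄ : W4 → ℝ), 1 ≤ l → Dua φ y l C Y g₄ →
  K4P C₁ l 1 (fun q => ∑ c, Y 0 c q ^ 2) ∧
  (∀ τ : E × E → ℝ, ContDiff ℝ ∞ τ → (∀ m c z, (1 + ‖z‖) ^ 5 * |dv (dr m c) τ z| ≤ C) →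
    K4P C₁ l 1 (fun q => ∑ c, |dv (dr 0 c) τ (q.1, q.2.1)| * |Y 0 c q|))

/-- KM3: terms with the potential. Uses F:SCB. -/
def Stmt_KM3 : Prop := ∀ (φ : E × E → ℝ) (y : W4 → ℝ), Scat φ → TF y → ∃ C₁ : ℝ, 0 < C₁ ∧
  K4P C₁ C₁ 1 (fun q => ww φ (q.1, q.2.1) * |y q|) ∧ K4P C₁ C₁ 1 (fun q => VV φ q.1 q.2.1 * y q ^ 2)

-- K4M (output, Pool.Agent.TBS.Stmt_K4M). Uses KM1 KM2 KM3.

/-- SY4: symmetrisation of the products of gradients. Uses F:RLP F:RLD F:RLS F:PMV F:DER F:DVP F:SCB TAI. -/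
def Stmt_SY4 : Prop := ∀ φ : E × E → ℝ, Scat φ →
  ∫ p, ∑ m, ∑ j ∈ Finset.univ.erase m, gdt (fun p => φ (pm m p)) (fun p => φ (pm j p)) p =
    24 * ∫ q : W4, ∑ c, dv (dr 0 c) φ (q.1, q.2.1) * dv (dr 0 c) φ (q.1, q.2.2)

/-- SY5: symmetrisation of the pairing with `Y`. Uses F:RLP F:RLD F:RLS F:PMV F:DER F:DVP F:ALG. -/
def Stmt_SY5 : Prop := ∀ (C : ℝ) (φ : E × E → ℝ) (y : W4 → ℝ) (l : ℝ) (Y : Fin 4 → Fin 3 → W4 → ℝ) (g₄ : W4 → ℝ),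
  Scat φ → Dua φ y l C Y g₄ →
  ∫ p, ∑ m, ∑ c, dv (d4 m c) (Ph φ) p * Y m c p =
    12 * ∫ q : W4, ∑ c, dv (dr 0 c) φ (q.1, q.2.1) * Y 0 c q

/-- SY6: symmetrisation of the other terms. Uses F:RLP F:RLS F:PMV F:SCB. -/
def Stmt_SY6 : Prop := ∀ (C : ℝ) (φ : E × E → ℝ) (y : W4 → ℝ) (l : ℝ) (Y : Fin 4 → Fin 3 → W4 → ℝ) (g₄ : W4 → ℝ),
  Scat φ → TF y → Dua φ y l C Y g₄ →
  ∫ p, ∑ m, ∑ c, Y m c p ^ 2 = 4 * ∫ q, ∑ c, Y 0 c q ^ 2 ∧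
  ∫ p, ∑ m, ww φ (pm m p) * ym y m p = 4 * ∫ q : W4, ww φ (q.1, q.2.1) * y q ∧
  ∫ p, ∑ m, Vm φ m p * (ym y m p) ^ 2 = 4 * ∫ q : W4, VV φ q.1 q.2.1 * y q ^ 2

/-- BEK: the value in terms of the kernel `k4`. Uses F:SCB KM2 KM3 TAI SY4 SY5 SY6. -/
def Stmt_BEK : Prop := ∀ (C : ℝ) (φ : E × E → ℝ) (y : W4 → ℝ) (l : ℝ) (Y : Fin 4 → Fin 3 → W4 → ℝ) (g₄ : W4 → ℝ),
  Scat φ → TF y → 1 ≤ l → Dua φ y l C Y g₄ →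
  Integrable (k4 φ φ y Y) ∧ bet φ y Y g₄ = 2 * (∫ q, g₄ q) - 24 * ∫ q, k4 φ φ y Y q

/-- KDI: replacing `φ` by `τ`. Uses F:RLP F:INW F:SCB TAI KM2 KM3. -/
def Stmt_KDI : Prop := ∀ (C : ℝ) (φ : E × E → ℝ) (y : W4 → ℝ), Scat φ → TF y → ∃ C₁ : ℝ, 0 < C₁ ∧
  ∀ (R l : ℝ) (τ g : E × E → ℝ) (Y : Fin 4 → Fin 3 → W4 → ℝ) (g₄ : W4 → ℝ), 1 ≤ R → R ≤ l →
  Tri C R φ τ g → Dua φ y l C Y g₄ →
  Integrable (fun q => k4 φ τ y Y q - k4 φ φ y Y q) ∧ ∫ q, |k4 φ τ y Y q - k4 φ φ y Y q| ≤ C₁ / R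

-- K4C (output, Pool.Agent.TBS.Stmt_K4C). Uses K4M BEK KDI.

end Pool.Agent.TBK
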